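import Pool.Agent.H430.Gw.Adapt
import Pool.Agent.H430.Hf.Main

/-!
The subspace theorem for the linear forms of a subspace.
-/

set_option autoImplicit false

namespace Pool.Agent.H430.Gw

open Finset NumberField IsDedekindDomain Height Module
open Pool.Agent.W180.OP (Pl av wt fv nrm wt_nonneg le_nrm exists_nrm nrm_pos nrm_nonneg
  fv_support_finite)
open Pool.Agent.NH28 (height_sum nrm_support fv_sum_le sch_rat fin_pos_of_ne)

section

variable {K : Type} [Field K] [NumberField K]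

lemma wt_inl (v : InfinitePlace K) : wt (Sum.inl v : Pl K) = v.mult := rfl

/-- the height as a sum over places -/
lemma ht_T {n : ℕ} {F : Fin n → K} (hF : F ≠ 0) : ∃ T0 : Finset (Pl K), ∀ T, T0 ⊆ T →
    logHeight F = ∑ v ∈ T, wt v * Real.log (nrm (av v) F) := by
  classical
  set G := (nrm_support hF).toFinset with hG
  have hmem : ∀ v, v ∈ G ↔ nrm (fv v) F ≠ 1 := by
    intro v
    rw [hG, Set.Finite.mem_toFinset, Set.mem_ofPred_eq]
  refine ⟨univ.image Sum.inl ∪ G.image Sum.inr, fun T hT => ?_⟩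
  have hinf : ∀ v : InfinitePlace K, (Sum.inl v : Pl K) ∈ T := fun v =>
    hT (mem_union_left _ (mem_image_of_mem _ (mem_univ v)))
  have h1 := height_sum hF T.toRight (fun v hv => by
    rw [mem_toRight]
    exact hT (mem_union_right _ (mem_image_of_mem _ ((hmem v).2 hv))))
  have h2 : T.toLeft = univ := by
    ext v
    rw [mem_toLeft]
    simp [hinf v]
  have h3 : ∑ v ∈ T, wt v * Real.log (nrm (av v) F) =
      ∑ v, wt (Sum.inl v : Pl K) * Real.log (nrm (av (Sum.inl v : Pl K)) F) +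
      ∑ v ∈ T.toRight, wt (Sum.inr v : Pl K) * Real.log (nrm (av (Sum.inr v : Pl K)) F) := by
    conv_lhs => rw [← toLeft_disjSum_toRight (u := T), sum_disjSum, h2]
  rw [h3, h1]
  congr 1
  refine sum_congr rfl fun v _ => ?_
  show _ = (1 : ℝ) * _
  rw [one_mul]
  rfl

/-- the places at which a matrix is not integral -/
lemma bad_mat {N n : ℕ} (A : Fin N → Fin n → K) : ∃ T : Finset (Pl K),
    ∀ v : Pl K, v ∉ T → ∃ w : HeightOneSpectrum (𝓞 K), v = Sum.inr w ∧
      ∀ j i, fv w (A j i) ≤ 1 := by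
  classical
  have h1 : (⋃ t : {t : Fin N × Fin n // A t.1 t.2 ≠ 0},
      {v : HeightOneSpectrum (𝓞 K) | fv v (A t.1.1 t.1.2) ≠ 1}).Finite :=
    Set.finite_iUnion fun t => fv_support_finite t.2
  refine ⟨univ.image Sum.inl ∪ h1.toFinset.image Sum.inr, fun v hv => ?_⟩
  rcases v with v | w
  · exact absurd (mem_union_left _ (mem_image_of_mem _ (mem_univ v))) hv
  · refine ⟨w, rfl, fun j i => ?_⟩
    by_cases h0 : A j i = 0
    · rw [h0, map_zero]
      exact zero_le_one
    · by_contra hc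
      apply hv
      refine mem_union_right _ (mem_image_of_mem _ ?_)
      rw [Set.Finite.mem_toFinset, Set.mem_iUnion]
      exact ⟨⟨(j, i), h0⟩, fun h => hc h.le⟩

/-- the height of the image under a linear map, and local heights -/
theorem proj_ht {N n : ℕ} (A : Fin N → Fin n → K) : ∃ C : ℝ, 0 ≤ C ∧ ∀ (S : Finset (Pl K))
    (F : Fin n → K), F ≠ 0 → (fun j => ∑ i, A j i * F i) ≠ 0 →
    ∑ v ∈ S, wt v * (Real.log (nrm (av v) F) - Real.log (nrm (av v) fun j => ∑ i, A j i * F i)) ≤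
      logHeight F - logHeight (fun j => ∑ i, A j i * F i) + C := by
  classical
  obtain ⟨Tb, hTb⟩ := bad_mat A
  set B : Pl K → ℝ := fun v => max 1 (∑ j, ∑ i, av v (A j i)) with hB
  have hB1 : ∀ v, 1 ≤ B v := fun v => le_max_left _ _
  refine ⟨∑ v ∈ Tb, wt v * Real.log (B v), sum_nonneg fun v _ =>
    mul_nonneg (wt_nonneg v) (Real.log_nonneg (hB1 v)), ?_⟩
  intro S F hF hG0
  set G : Fin N → K := fun j => ∑ i, A j i * F i with hG
  have hN : 0 < N := fin_pos_of_ne hG0
  obtain ⟨T1, hT1⟩ := ht_T hF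
  obtain ⟨T2, hT2⟩ := ht_T hG0
  set T := T1 ∪ T2 ∪ S ∪ Tb with hT
  have e1 := hT1 T (by intro v hv; simp [hT, hv])
  have e2 := hT2 T (by intro v hv; simp [hT, hv])
  have hS : S ⊆ T := by intro v hv; simp [hT, hv]
  have hTbT : Tb ⊆ T := by intro v hv; simp [hT, hv]
  have hFp : ∀ v : Pl K, 0 < nrm (av v) F := fun v => nrm_pos _ hF
  have hGp : ∀ v : Pl K, 0 < nrm (av v) G := fun v => nrm_pos _ hG0
  have hcr : ∀ v : Pl K, nrm (av v) G ≤ B v * nrm (av v) F := by
    intro v
    obtain ⟨j, hj⟩ := exists_nrm (av v) hN G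
    rw [← hj]
    have h1 : av v (G j) ≤ ∑ i, av v (A j i) * nrm (av v) F := by
      refine ((av v).sum_le _ _).trans (sum_le_sum fun i _ => ?_)
      rw [map_mul]
      exact mul_le_mul_of_nonneg_left (le_nrm _ _ _) ((av v).nonneg _)
    refine h1.trans ?_
    rw [← sum_mul]
    refine mul_le_mul_of_nonneg_right ?_ (hFp v).le
    refine le_trans ?_ (le_max_right _ _)
    exact single_le_sum (f := fun j => ∑ i, av v (A j i)) (fun j _ => sum_nonneg fun i _ =>
      (av v).nonneg _) (mem_univ j)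
  have hgood : ∀ v : Pl K, v ∉ Tb → nrm (av v) G ≤ nrm (av v) F := by
    intro v hv
    obtain ⟨w, rfl, hw⟩ := hTb v hv
    obtain ⟨j, hj⟩ := exists_nrm (av (Sum.inr w : Pl K)) hN G
    rw [← hj]
    refine fv_sum_le w univ (fun i => A j i * F i) _ (hFp _).le fun i _ => ?_
    rw [map_mul]
    refine (mul_le_mul_of_nonneg_right (hw j i) ((fv w).nonneg _)).trans ?_
    rw [one_mul]
    exact le_nrm (fv w) F i
  have hterm : ∀ v, wt v * (Real.log (nrm (av v) G) - Real.log (nrm (av v) F)) ≤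
      if v ∈ Tb then wt v * Real.log (B v) else 0 := by
    intro v
    split_ifs with h
    · refine mul_le_mul_of_nonneg_left ?_ (wt_nonneg v)
      have h1 := Real.log_le_log (hGp v) (hcr v)
      rw [Real.log_mul (by have := hB1 v; positivity) (hFp v).ne'] at h1
      linarith
    · refine mul_nonpos_of_nonneg_of_nonpos (wt_nonneg v) ?_
      have := Real.log_le_log (hGp v) (hgood v h)
      linarith
  have h1 : ∑ v ∈ T \ S, wt v * (Real.log (nrm (av v) G) - Real.log (nrm (av v) F)) ≤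
      ∑ v ∈ Tb, wt v * Real.log (B v) := by
    refine (sum_le_sum fun v _ => hterm v).trans ?_
    rw [← sum_filter]
    refine sum_le_sum_of_subset_of_nonneg (fun v hv => (mem_filter.1 hv).2) fun v _ _ =>
      mul_nonneg (wt_nonneg v) (Real.log_nonneg (hB1 v))
  have h2 : ∑ v ∈ T, wt v * (Real.log (nrm (av v) G) - Real.log (nrm (av v) F)) =
      logHeight G - logHeight F := by
    rw [e1, e2, ← sum_sub_distrib]
    exact sum_congr rfl fun v _ => by ring
  have h3 := sum_sdiff hS (f := fun v => wt v * (Real.log (nrm (av v) G) -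
    Real.log (nrm (av v) F)))
  have h4 : ∑ v ∈ S, wt v * (Real.log (nrm (av v) F) - Real.log (nrm (av v) G)) =
      -∑ v ∈ S, wt v * (Real.log (nrm (av v) G) - Real.log (nrm (av v) F)) := by
    rw [← sum_neg_distrib]
    exact sum_congr rfl fun v _ => by ring
  rw [h4]
  linarith

/-- the subspace theorem for the forms in a subspace of the space of forms -/
theorem sch_sub {d : ℕ} (U : Submodule K (Fin d → K))
    (Φ : Finset (Fin d → K)) (hΦ : ∀ φ ∈ Φ, φ ∈ U) :
    ∃ Z : Finset (Fin d → K), (∀ z ∈ Z, z ≠ 0) ∧ ∀ (S : Finset (Pl K)) (ε : ℝ), 0 < ε →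
      ∃ C : ℝ, 0 ≤ C ∧ ∀ F : Fin d → K, F ≠ 0 → (∀ z ∈ Z, ∑ i, z i * F i ≠ 0) →
      (∀ φ ∈ Φ, ∑ i, φ i * F i ≠ 0) →
      ∀ b : Pl K → Finset (Fin d → K), (∀ v ∈ S, b v ⊆ Φ) →
      (∀ v ∈ S, LinearIndepOn K id (b v : Set (Fin d → K))) →
      (∀ v ∈ S, (b v).card = finrank K U) →
      ∑ v ∈ S, wt v * ∑ φ ∈ b v, (Real.log (nrm (av v) F) -
        Real.log (av v (∑ i, φ i * F i))) ≤ (finrank K U + ε) * logHeight F + C := by
  classical
  rcases Nat.eq_zero_or_pos (finrank K U) with h0 | hpos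
  · refine ⟨∅, fun z hz => absurd hz (notMem_empty z), fun S ε hε => ⟨0, le_rfl, ?_⟩⟩
    intro F _ _ _ b _ _ hc
    have h1 : ∑ v ∈ S, wt v * ∑ φ ∈ b v, (Real.log (nrm (av v) F) -
        Real.log (av v (∑ i, φ i * F i))) = 0 := by
      refine sum_eq_zero fun v hv => ?_
      have h2 := hc v hv
      rw [h0, card_eq_zero] at h2
      rw [h2, sum_empty, mul_zero]
    rw [h1, h0]
    have := logHeight_nonneg F
    have h3 : 0 ≤ ((0 : ℕ) : ℝ) + ε := by
      push_cast
      linarith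
    have h4 := mul_nonneg h3 this
    linarith
  obtain ⟨N, hN⟩ : ∃ N, N = finrank K U := ⟨_, rfl⟩
  rw [← hN] at hpos
  set u : Basis (Fin N) K U := finBasisOfFinrankEq K U hN.symm with hu
  set cf : Φ → Fin N → K := fun φ => u.equivFun ⟨φ.1, hΦ φ.1 φ.2⟩ with hcf
  set Am : Fin N → Fin d → K := fun j => (u j : Fin d → K) with hAm
  have hcfF : ∀ (φ : Φ) (F : Fin d → K), ∑ j, cf φ j * ∑ i, Am j i * F i = ∑ i, φ.1 i * F i := by
    intro φ F
    have h1 : ∑ j, cf φ j • u j = (⟨φ.1, hΦ φ.1 φ.2⟩ : U) := u.sum_equivFun _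
    have h2 : ∀ i, ∑ j, cf φ j * Am j i = φ.1 i := by
      intro i
      have h3 := congrArg (fun z : U => (z : Fin d → K) i) h1
      simpa [Finset.sum_apply] using h3
    have h3 : ∑ i, φ.1 i * F i = ∑ i, (∑ j, cf φ j * Am j i) * F i :=
      sum_congr rfl fun i _ => by rw [h2 i]
    rw [h3]
    simp_rw [mul_sum, sum_mul]
    rw [sum_comm]
    exact sum_congr rfl fun i _ => sum_congr rfl fun j _ => by ring
  obtain ⟨Z0, hZ0, hsch⟩ := sch_rat (k := K) (N := N) hpos cf
  obtain ⟨Cp, hCp0, hCp⟩ := proj_ht Am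
  set lft : (Fin N → K) → Fin d → K := fun z => ∑ j, z j • Am j with hlft
  have hlftF : ∀ z (F : Fin d → K), ∑ i, lft z i * F i = ∑ j, z j * ∑ i, Am j i * F i := by
    intro z F
    simp only [hlft, Finset.sum_apply, Pi.smul_apply, smul_eq_mul]
    simp_rw [mul_sum, sum_mul]
    rw [sum_comm]
    exact sum_congr rfl fun i _ => sum_congr rfl fun j _ => by ring
  have hlft0 : ∀ z, z ≠ 0 → lft z ≠ 0 := by
    intro z hz h
    apply hz
    have h1 : ∑ j, z j • u j = 0 := by
      apply Subtype.ext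
      have h3 : ((∑ j, z j • u j : U) : Fin d → K) = lft z := by
        simp only [hlft, hAm]
        simp
      rw [h3, h]
      rfl
    have h2 := Fintype.linearIndependent_iff.1 u.linearIndependent z h1
    funext j
    exact h2 j
  refine ⟨insert (Am ⟨0, hpos⟩) (Z0.image lft), ?_, ?_⟩
  · intro z hz
    rcases mem_insert.1 hz with rfl | hz
    · intro h
      exact u.ne_zero ⟨0, hpos⟩ (Subtype.ext h)
    · obtain ⟨z', hz', rfl⟩ := mem_image.1 hz
      exact hlft0 z' (hZ0 z' hz')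
  intro S ε hε
  obtain ⟨C, hC0, hC⟩ := hsch S ε hε
  refine ⟨C + N * Cp + ε * Cp, by positivity, ?_⟩
  intro F hF hZF hΦF b hbΦ hbi hbc
  rcases S.eq_empty_or_nonempty with hS | ⟨v0, hv0⟩
  · subst hS
    rw [sum_empty]
    have := logHeight_nonneg F
    positivity
  obtain ⟨G, hG⟩ : ∃ G : Fin N → K, G = fun j => ∑ i, Am j i * F i := ⟨_, rfl⟩
  have hGj : ∀ j, G j = ∑ i, Am j i * F i := fun j => congrFun hG j
  have hG0 : G ≠ 0 := by
    intro h
    refine hZF _ (mem_insert_self _ _) ?_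
    rw [← hGj, h]
    rfl
  have hφ0 : ∃ φ0, φ0 ∈ Φ := by
    have h1 : 0 < (b v0).card := by
      rw [hbc v0 hv0, ← hN]
      exact hpos
    obtain ⟨φ0, hφ0⟩ := card_pos.1 h1
    exact ⟨φ0, hbΦ v0 hv0 hφ0⟩
  obtain ⟨φ0, hφ0⟩ := hφ0
  have hex : ∀ v, ∃ β : Fin N → Φ, v ∈ S → (LinearIndependent K fun a => cf (β a)) ∧
      ∀ g : (Fin d → K) → ℝ, ∑ a, g (β a).1 = ∑ φ ∈ b v, g φ := by
    intro v
    by_cases hv : v ∈ S
    · have e : Fin N ≃ b v := ((b v).equivFinOfCardEq ((hbc v hv).trans hN.symm)).symm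
      refine ⟨fun a => ⟨(e a).1, hbΦ v hv (e a).2⟩, fun _ => ⟨?_, fun g => ?_⟩⟩
      · have h1 : LinearIndependent K (fun a : Fin N => ((e a : b v) : Fin d → K)) := by
          have h2 := (hbi v hv).linearIndependent
          exact h2.comp e e.injective
        have h2 : LinearIndependent K (fun a : Fin N =>
            (⟨(e a).1, hΦ _ (hbΦ v hv (e a).2)⟩ : U)) := by
          refine LinearIndependent.of_comp U.subtype ?_
          exact h1
        exact h2.map' (u.equivFun : U →ₗ[K] Fin N → K) (LinearEquiv.ker _)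
      · rw [← sum_coe_sort (b v), ← e.sum_comp]
    · exact ⟨fun _ => ⟨φ0, hφ0⟩, fun h => absurd h hv⟩
  choose β hβ using hex
  have hcfG : ∀ φ : Φ, ∑ j, cf φ j * G j = ∑ i, φ.1 i * F i := fun φ => by
    rw [← hcfF φ F]
    exact sum_congr rfl fun j _ => by rw [hGj]
  have h1 := hC G hG0 (fun z hz => by
    have h2 := hZF (lft z) (mem_insert_of_mem (mem_image_of_mem _ hz))
    rw [hlftF] at h2
    rw [sum_congr rfl fun j _ => by rw [hGj]]
    exact h2) (fun φ => by
    rw [hcfG]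
    exact hΦF φ.1 φ.2) β (fun v hv => (hβ v hv).1)
  have h2 := hCp S F hF (by rw [← hG]; exact hG0)
  rw [← hG] at h2
  have h3 : ∀ v ∈ S, wt v * ∑ φ ∈ b v, (Real.log (nrm (av v) F) -
      Real.log (av v (∑ i, φ i * F i))) = N * (wt v * (Real.log (nrm (av v) F) -
        Real.log (nrm (av v) G))) + wt v * ∑ a, (Real.log (nrm (av v) G) -
        Real.log (av v (∑ j, cf (β v a) j * G j))) := by
    intro v hv
    have h4 : ∑ a, (Real.log (nrm (av v) G) - Real.log (av v (∑ j, cf (β v a) j * G j))) =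
        ∑ φ ∈ b v, (Real.log (nrm (av v) G) - Real.log (av v (∑ i, φ i * F i))) := by
      rw [← (hβ v hv).2 fun φ => Real.log (nrm (av v) G) - Real.log (av v (∑ i, φ i * F i))]
      exact sum_congr rfl fun a _ => by rw [hcfG]
    rw [h4, sum_sub_distrib, sum_sub_distrib, sum_const, sum_const, hbc v hv, ← hN, nsmul_eq_mul,
      nsmul_eq_mul]
    ring
  rw [sum_congr rfl h3, sum_add_distrib, ← mul_sum, ← hN]
  have h4 : (N : ℝ) * ∑ v ∈ S, wt v * (Real.log (nrm (av v) F) -
      Real.log (nrm (av v) G)) ≤ N * (logHeight F - logHeight G + Cp) :=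
    mul_le_mul_of_nonneg_left h2 (Nat.cast_nonneg _)
  have h5 : logHeight G ≤ logHeight F + Cp := by
    have h6 := hCp ∅ F hF (by rw [← hG]; exact hG0)
    rw [← hG, sum_empty] at h6
    linarith
  have h6 : ε * logHeight G ≤ ε * (logHeight F + Cp) :=
    mul_le_mul_of_nonneg_left h5 hε.le
  have h7 : ((N : ℝ) + ε) * logHeight G = N * logHeight G + ε * logHeight G := by ring
  have h8 : ((N : ℝ) + ε) * logHeight F = N * logHeight F + ε * logHeight F := by ring
  rw [h7] at h1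
  rw [h8]
  have h9 : (N : ℝ) * (logHeight F - logHeight G + Cp) =
    N * logHeight F - N * logHeight G + N * Cp := by ring
  rw [h9] at h4
  linarith

end

end Pool.Agent.H430.Gw
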