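import Pool.Agent.H430.Hf.Main

/-!
The sizes of the Taylor coefficients of the minimal polynomial at one place.
-/

set_option autoImplicit false

namespace Pool.Agent.H430.Gw

open MeasureTheory Finset NumberField IsDedekindDomain Height Module Polynomial
open Pool.Agent.W180.OP (Pl av wt fv nrm wt_nonneg le_nrm exists_nrm nrm_pos)
open Pool.Agent.NH28 (Ov nn ab mem_ab sum_nn one_le_nn nn_ext nn_nonneg exists_below ov_unique
  sum_split height_sum prod_formula fab mem_fab nrm_support ab_nonempty fv_sum_le)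
open Pool.Agent.H430.Cl
open Pool.Agent.H430.Hf

theorem layer3 {ι : Type} [DecidableEq ι] (W : Finset ι) (lam : ι → ℝ)
    (hlam : ∀ w ∈ W, 0 ≤ lam w) :
    ∃ s : ℕ → ℝ, (∀ a, 0 ≤ s a) ∧ Antitone s ∧ (∀ a, W.card ≤ a → s a = 0) ∧
      (∀ a, ∀ B, B ⊆ W → (W \ B).card ≤ a → s a ≤ ∑ w ∈ B, lam w) ∧
      ∀ A, W.card ≤ A → ∑ a ∈ range A, s a = (∑ w ∈ W, lam w +
        ∑ w ∈ W, ∑ w' ∈ W, min (lam w) (lam w')) / 2 := by
  set T : ℝ := ∑ w ∈ W, lam w with hT
  have hle : ∀ w ∈ W, lam w ≤ T := fun w hw => single_le_sum (f := lam) hlam hw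
  set N : ℝ → ℝ := fun t => ∑ w ∈ W, st (lam w) t with hN
  have hNn : ∀ t, ∃ k : ℕ, k ≤ W.card ∧ N t = k := by
    intro t
    refine ⟨(W.filter fun w => t < lam w).card, card_filter_le _ _, ?_⟩
    simp only [hN]
    rw [card_filter, Nat.cast_sum]
    refine sum_congr rfl fun w _ => ?_
    unfold st
    by_cases h : t < lam w <;> simp [Set.indicator, h]
  set μ : Measure ℝ := volume.restrict (Set.Ioc 0 T) with hμ
  have hst : ∀ l, Integrable (st l) μ := fun l => st_int T l
  have hNi : Integrable N μ := integrable_finsetSum _ fun w _ => hst _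
  have hNa : ∀ a : ℕ, Integrable (fun t => N t - a) μ := fun a =>
    hNi.sub (integrable_const _)
  have hpi : ∀ a : ℕ, Integrable (fun t => max (N t - a) 0) μ := fun a => (hNa a).pos_part
  have hint : ∀ l, 0 ≤ l → l ≤ T → ∫ t, st l t ∂μ = l := fun l h1 h2 => int_st h1 h2
  refine ⟨fun a => ∫ t, max (N t - a) 0 ∂μ, fun a => integral_nonneg fun t => le_max_right _ _,
    fun a b hab => ?_, fun a ha => ?_, fun a B hB hc => ?_, fun A hA => ?_⟩
  · refine integral_mono (hpi b) (hpi a) fun t => ?_
    refine max_le_max ?_ le_rfl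
    have : (a : ℝ) ≤ b := by exact_mod_cast hab
    linarith
  · show ∫ t, max (N t - a) 0 ∂μ = 0
    have h1 : (fun t => max (N t - a) 0) = fun _ => (0 : ℝ) := by
      funext t
      obtain ⟨k, hk, hk'⟩ := hNn t
      rw [hk']
      refine max_eq_right ?_
      have : (k : ℝ) ≤ a := by exact_mod_cast hk.trans ha
      linarith
    rw [h1, integral_zero]
  · have h1 : ∫ t, ∑ w ∈ B, st (lam w) t ∂μ = ∑ w ∈ B, lam w := by
      rw [integral_finsetSum _ fun w _ => hst _]
      exact sum_congr rfl fun w hw => hint _ (hlam w (hB hw)) (hle w (hB hw))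
    rw [← h1]
    refine integral_mono (hpi a) (integrable_finsetSum _ fun w _ => hst _) fun t => ?_
    show max (N t - a) 0 ≤ ∑ w ∈ B, st (lam w) t
    refine max_le ?_ (sum_nonneg fun w _ => st_nonneg _ _)
    simp only [hN]
    rw [← sum_sdiff hB]
    have h2 : ∑ w ∈ W \ B, st (lam w) t ≤ (W \ B).card := by
      refine (sum_le_card_nsmul _ _ 1 fun w _ => ?_).trans (by simp)
      rcases st_eq (lam w) t with h | h <;> rw [h]
      exact zero_le_one
    have h3 : (((W \ B).card : ℕ) : ℝ) ≤ a := by exact_mod_cast hc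
    linarith
  · rw [(integral_finsetSum _ fun a _ => hpi a).symm]
    have h1 : (fun t => ∑ a ∈ range A, max (N t - a) 0) = fun t =>
        (1 / 2 : ℝ) * ∑ w ∈ W, (st (lam w) t + ∑ w' ∈ W, st (min (lam w) (lam w')) t) := by
      funext t
      obtain ⟨k, hk, hk'⟩ := hNn t
      rw [hk', sum_pos_nat k A (hk.trans hA), ← hk', sum_add_distrib]
      have h2 : N t ^ 2 = ∑ w ∈ W, ∑ w' ∈ W, st (min (lam w) (lam w')) t := by
        rw [sq]
        simp only [hN]
        rw [sum_mul_sum]
        exact sum_congr rfl fun w _ => sum_congr rfl fun w' _ => st_mul _ _ _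
      rw [h2]
      simp only [hN]
      ring
    have h2 : ∀ w ∈ W, Integrable (fun t => st (lam w) t +
        ∑ w' ∈ W, st (min (lam w) (lam w')) t) μ := fun w _ =>
      (hst _).add (integrable_finsetSum _ fun w' _ => hst _)
    rw [h1, integral_const_mul, integral_finsetSum _ h2]
    have h3 : ∀ w ∈ W, ∫ t, (st (lam w) t + ∑ w' ∈ W, st (min (lam w) (lam w')) t) ∂μ =
        lam w + ∑ w' ∈ W, min (lam w) (lam w') := by
      intro w hw
      rw [integral_add (hst _) (integrable_finsetSum _ fun w' _ => hst _),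
        integral_finsetSum _ fun w' _ => hst _, hint _ (hlam w hw) (hle w hw)]
      congr 1
      exact sum_congr rfl fun w' hw' => hint _ (le_min (hlam w hw) (hlam w' hw'))
        ((min_le_left _ _).trans (hle w hw))
    rw [sum_congr rfl h3, sum_add_distrib]
    ring

/-- the sizes of the Taylor coefficients at one place -/
theorem place_tau {K : Type} [Field K] [NumberField K] {q : ℕ} (hq : 0 < q) (a : Fin q → K)
    (ha : Function.Injective a) (v : Pl K) (r : ℕ) :
    ∃ Cv : ℝ, 0 ≤ Cv ∧ ∀ (L E : Type) [Field L] [NumberField L] [Field E] [NumberField E]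
      [Algebra K L] [Algebra L E] [Algebra K E] [IsScalarTower K L E] [IsGalois K E] (x : L),
      IntermediateField.adjoin K {x} = ⊤ → finrank K L = r →
      (∀ i, x ≠ algebraMap K L (a i)) →
      ∀ u : Pl E, Ov v u → ∃ τ : Fin q → ℕ → ℝ, (∀ i k, 0 ≤ τ i k) ∧ (∀ i, Antitone (τ i)) ∧
        (∃ n : Fin q → ℕ, ∑ i, n i = r ∧ ∀ i k, n i ≤ k → τ i k = 0) ∧
        (∀ i, ∀ k ≤ r, (taylor (a i) (minpoly K x)).coeff k = 0 ∨
          τ i k - Cv ≤ wt v * (Real.log (nrm (av v) fun j : Fin (r + 1) =>
            (minpoly K x).coeff j) - Real.log (av v ((taylor (a i) (minpoly K x)).coeff k)))) ∧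
        ∑ i, (∑ y ∈ cj K (algebraMap L E x), prx v u (a i) y +
          ∑ y ∈ cj K (algebraMap L E x), ∑ z ∈ cj K (algebraMap L E x),
            min (prx v u (a i) y) (prx v u (a i) z)) ≤
        2 * ∑ i, ∑ k ∈ range (r + 1), τ i k + Cv := by
  classical
  choose cl hcl0 hcl using fun i : Fin q => prx_lb v (a i)
  choose cm hcm0 hcm using fun t : {p : Fin q × Fin q // p.1 ≠ p.2} =>
    prx_min v (a t.1.1) (a t.1.2) (fun h => t.2 (ha h))
  set c0 : ℝ := ∑ i, cl i with hc0
  have hc00 : 0 ≤ c0 := sum_nonneg fun i _ => hcl0 _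
  set c1 : ℝ := ∑ p, cm p with hc1
  have hc10 : 0 ≤ c1 := sum_nonneg fun i _ => hcm0 _
  set c2 : ℝ := 2 * (r * Real.log (r + 1)) + 2 * (r * Real.log 2) + r * c0 with hc2
  have hc20 : 0 ≤ c2 := by
    have h1 : 0 ≤ Real.log ((r : ℝ) + 1) := Real.log_nonneg (by
      have : (0 : ℝ) ≤ r := Nat.cast_nonneg r
      linarith)
    have h2 : 0 ≤ Real.log (2 : ℝ) := Real.log_nonneg (by norm_num)
    positivity
  set c3 : ℝ := q * (r * c1 + r * (r * c1)) with hc3
  have hc30 : 0 ≤ c3 := by positivity
  refine ⟨c2 + c3, by positivity, ?_⟩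
  intro L E _ _ _ _ _ _ _ _ _ x hx hr hxa u hu
  set Cj := cj K (algebraMap L E x) with hCj
  have hcard : Cj.card = r := by rw [hCj, card_cj' hx, hr]
  have hdeg : (minpoly K x).natDegree = r := by rw [minpoly_natDegree hx, hr]
  have hya : ∀ i, ∀ y ∈ Cj, y ≠ algebraMap K E (a i) := by
    intro i y hy hya
    have h1 := mem_cj.1 hy
    rw [minpoly.algebraMap_eq (algebraMap L E).injective, hya,
      aeval_algebraMap_apply_eq_algebraMap_eval] at h1
    have h2 : (minpoly K x).IsRoot (a i) := (map_eq_zero _).1 h1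
    exact hxa i (minpoly.root (Algebra.IsIntegral.isIntegral x) h2).symm
  have hlow : ∀ i, ∀ y ∈ Cj, 0 ≤ prx v u (a i) y + c0 := by
    intro i y hy
    have h1 := hcl i E u (mem_ab.2 hu) y (hya i y hy)
    have h2 : cl i ≤ c0 := single_le_sum (f := cl) (fun i _ => hcl0 _) (mem_univ i)
    linarith
  have : Nonempty (Fin q) := ⟨⟨0, hq⟩⟩
  choose e he using fun y : E => Finite.exists_max fun i => prx v u (a i) y
  have hup : ∀ i, ∀ y ∈ Cj, i ≠ e y → prx v u (a i) y ≤ c1 := by
    intro i y hy hi
    have h1 := hcm ⟨(i, e y), hi⟩ E u (mem_ab.2 hu) y (hya i y hy) (hya (e y) y hy)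
    have h2 := he y i
    simp only at h1
    rw [min_eq_left h2] at h1
    exact h1.trans (single_le_sum (f := cm) (fun i _ => hcm0 _) (mem_univ _))
  set W : Fin q → Finset E := fun i => Cj.filter (fun y => e y = i) with hW
  have hWs : ∀ i, W i ⊆ Cj := fun i => filter_subset _ _
  have hWcard : ∑ i, (W i).card = r := by
    rw [← hcard]
    exact (card_eq_sum_card_fiberwise (f := e) (t := univ) fun _ _ => mem_univ _).symm
  have hWr : ∀ i, (W i).card ≤ r + 1 := fun i => by
    have := single_le_sum (f := fun i => (W i).card) (fun _ _ => Nat.zero_le _) (mem_univ i)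
    omega
  choose s hs0 hsa hsz hs1 hs2 using fun i : Fin q => layer3 (W i) (fun y => prx v u (a i) y + c0)
    (fun y hy => hlow i y (hWs i hy))
  set F : Fin (r + 1) → K := fun j => (minpoly K x).coeff j with hF
  refine ⟨s, hs0, hsa, ⟨fun i => (W i).card, hWcard, fun i k hk => hsz i k hk⟩, ?_, ?_⟩
  · intro i k hk
    by_cases hT : (taylor (a i) (minpoly K x)).coeff k = 0
    · exact Or.inl hT
    right
    obtain ⟨B, hB1, hB2, hB3⟩ := tay_upper hx hr hu (a i) (hya i) k hk hT
    rw [mul_sub]
    have h1 := nrm_lower (E := E) hx hr hu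
    have h2 : s i k ≤ ∑ y ∈ B ∩ W i, (prx v u (a i) y + c0) := by
      refine hs1 i k (B ∩ W i) inter_subset_right ?_
      rw [← hB2]
      refine card_le_card ?_
      intro y hy
      rw [mem_sdiff, mem_inter, not_and] at hy
      rw [mem_sdiff]
      exact ⟨hWs i hy.1, fun h => hy.2 h hy.1⟩
    have h3 : ∑ y ∈ B ∩ W i, (prx v u (a i) y + c0) ≤ ∑ y ∈ B, (prx v u (a i) y + c0) :=
      sum_le_sum_of_subset_of_nonneg inter_subset_left fun y hy _ => hlow i y (hB1 hy)
    have h4 : ∑ y ∈ B, (prx v u (a i) y + c0) ≤ ∑ y ∈ B, prx v u (a i) y + r * c0 := by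
      rw [sum_add_distrib, sum_const, nsmul_eq_mul]
      have h5 : B.card ≤ r := by
        rw [← hcard]
        exact card_le_card hB1
      have h6 : (B.card : ℝ) * c0 ≤ r * c0 :=
        mul_le_mul_of_nonneg_right (by exact_mod_cast h5) hc00
      linarith
    linarith
  · -- the comparison with the sum over all conjugates
    have hcmp : ∀ i, ∑ y ∈ Cj, prx v u (a i) y +
        ∑ y ∈ Cj, ∑ z ∈ Cj, min (prx v u (a i) y) (prx v u (a i) z) ≤
        ∑ w ∈ W i, (prx v u (a i) w + c0) + ∑ w ∈ W i, ∑ w' ∈ W i,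
          min (prx v u (a i) w + c0) (prx v u (a i) w' + c0) + (r * c1 + r * (r * c1)) := by
      intro i
      have h1 : ∑ y ∈ Cj, prx v u (a i) y ≤ ∑ w ∈ W i, (prx v u (a i) w + c0) + r * c1 := by
        rw [← sum_filter_add_sum_filter_not Cj (fun y => e y = i)]
        refine add_le_add (sum_le_sum fun y _ => by linarith) ?_
        refine (sum_le_card_nsmul _ _ c1 fun y hy => ?_).trans ?_
        · rw [mem_filter] at hy
          exact hup i y hy.1 (fun h => hy.2 h.symm)
        · rw [nsmul_eq_mul]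
          refine mul_le_mul_of_nonneg_right ?_ hc10
          have : (Cj.filter fun y => ¬e y = i).card ≤ r := by
            rw [← hcard]
            exact card_filter_le _ _
          exact_mod_cast this
      have h2 : ∀ y ∈ Cj, ∀ z ∈ Cj, min (prx v u (a i) y) (prx v u (a i) z) ≤
          (if e y = i then (if e z = i then min (prx v u (a i) y + c0) (prx v u (a i) z + c0)
            else 0) else 0) + c1 := by
        intro y hy z hz
        by_cases h3 : e y = i
        · by_cases h4 : e z = i
          · rw [if_pos h3, if_pos h4]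
            have : min (prx v u (a i) y) (prx v u (a i) z) ≤
              min (prx v u (a i) y + c0) (prx v u (a i) z + c0) :=
              min_le_min (by linarith) (by linarith)
            linarith
          · rw [if_pos h3, if_neg h4, zero_add]
            exact (min_le_right _ _).trans (hup i z hz (fun h => h4 h.symm))
        · rw [if_neg h3, zero_add]
          exact (min_le_left _ _).trans (hup i y hy (fun h => h3 h.symm))
      have h3 : ∑ y ∈ Cj, ∑ z ∈ Cj, min (prx v u (a i) y) (prx v u (a i) z) ≤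
          ∑ w ∈ W i, ∑ w' ∈ W i, min (prx v u (a i) w + c0) (prx v u (a i) w' + c0) +
            r * (r * c1) := by
        refine (sum_le_sum fun y hy => sum_le_sum fun z hz => h2 y hy z hz).trans (le_of_eq ?_)
        simp_rw [sum_add_distrib, sum_const, nsmul_eq_mul, hcard]
        congr 1
        rw [sum_filter]
        refine sum_congr rfl fun w _ => ?_
        by_cases h1 : e w = i
        · simp only [h1, if_true, hW, sum_filter]
        · simp only [h1, if_false, sum_const_zero]
      linarith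
    have h5 := sum_le_sum fun i (_ : i ∈ (univ : Finset (Fin q))) => hcmp i
    have h6 : ∀ X : Fin q → ℝ, ∀ c : ℝ, ∑ i, (X i + c) = ∑ i, X i + q * c := by
      intro X c
      rw [sum_add_distrib, sum_const, card_univ, Fintype.card_fin, nsmul_eq_mul]
    rw [h6] at h5
    refine h5.trans ?_
    have h7 : ∀ i, ∑ w ∈ W i, (prx v u (a i) w + c0) + ∑ w ∈ W i, ∑ w' ∈ W i,
        min (prx v u (a i) w + c0) (prx v u (a i) w' + c0) =
        2 * ∑ k ∈ range (r + 1), s i k := by
      intro i
      rw [hs2 i (r + 1) (hWr i)]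
      ring
    rw [sum_congr rfl fun i _ => h7 i, ← mul_sum]
    linarith

end Pool.Agent.H430.Gw
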