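import Pool.Agent.H430.Gw.Jets
import Pool.Agent.H430.Gw.Sch
import Pool.Agent.H430.Gw.Tau

/-!
The estimate at one place for the points of a linear system.
-/

set_option autoImplicit false

namespace Pool.Agent.H430.Gw

open Finset NumberField IsDedekindDomain Height Module Polynomial
open Pool.Agent.W180.OP (Pl av wt fv nrm wt_nonneg le_nrm exists_nrm nrm_pos)
open Pool.Agent.NH28 (Ov nn ab mem_ab sum_nn one_le_nn nn_ext nn_nonneg exists_below ov_unique
  sum_split height_sum prod_formula fab mem_fab nrm_support ab_nonempty fv_sum_le)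
open Pool.Agent.H430.Cl
open Pool.Agent.H430.Hf

section

variable {k V : Type} [Field k] [AddCommGroup V] [Module k V] {q r : ℕ}

/-- the flag of an ordering -/
def fl (ψ : Fin q × Fin (r + 1) → V) (σ : Fin (q * (r + 1)) ≃ Fin q × Fin (r + 1)) (j : ℕ) :
    Submodule k V := Submodule.span k (ψ '' {t | ((σ.symm t : Fin (q * (r + 1))) : ℕ) < j})

lemma fl_mono (ψ : Fin q × Fin (r + 1) → V) (σ : Fin (q * (r + 1)) ≃ Fin q × Fin (r + 1)) :
    Monotone (fl (k := k) ψ σ) := fun _ _ h =>
  Submodule.span_mono (Set.image_mono fun _ ht => lt_of_lt_of_le ht h)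

lemma fl_zero (ψ : Fin q × Fin (r + 1) → V) (σ : Fin (q * (r + 1)) ≃ Fin q × Fin (r + 1)) :
    fl (k := k) ψ σ 0 = ⊥ := by
  unfold fl
  simp

end

variable {K : Type} [Field K] [NumberField K] {q r d : ℕ}

lemma fl_top (hq : 0 < q) (a : Fin q → K) (ha : Function.Injective a)
    (M : Fin (r + 1) → Fin d → K)
    (hM : Function.Injective fun y : Fin d → K => fun j => ∑ l, M j l * y l)
    (σ : Fin (q * (r + 1)) ≃ Fin q × Fin (r + 1)) :
    fl (k := K) (jf M a) σ (q * (r + 1)) = ⊤ := by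
  by_contra hne
  have h1 := jets hq a ha M hM _ hne
  have h2 : jt (jf M a) (fl (k := K) (jf M a) σ (q * (r + 1))) = univ := by
    ext t
    rw [mem_jt]
    simp only [mem_univ, iff_true]
    intro j _
    exact Submodule.subset_span ⟨(t.1, j), (σ.symm (t.1, j)).2, rfl⟩
  rw [h2, card_univ, Fintype.card_prod, Fintype.card_fin, Fintype.card_fin] at h1
  have h3 : finrank K (fl (k := K) (jf M a) σ (q * (r + 1))) < d := by
    have := Submodule.finrank_lt hne
    simpa using this
  have h4 : r + 1 ≤ q * (r + 1) := Nat.le_mul_of_pos_left _ hq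
  have h5 : d ≤ r + 1 := by
    have h1 := LinearMap.finrank_le_finrank_of_injective (f := Matrix.toLin' (Matrix.of M))
      (fun y y' h => hM h)
    simpa using h1
  omega

open Classical in
/-- adapted bases -/
lemma exists_b {ι' : Type} (hq : 0 < q) (a : Fin q → K) (ha : Function.Injective a)
    (M : Fin (r + 1) → Fin d → K)
    (hM : Function.Injective fun y : Fin d → K => fun j => ∑ l, M j l * y l)
    (U : ι' → Submodule K (Fin d → K)) :
    ∃ b : (Fin (q * (r + 1)) ≃ Fin q × Fin (r + 1)) → ι' → Finset (Fin d → K), ∀ σ l,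
      LinearIndepOn K id (b σ l : Set (Fin d → K)) ∧ (∀ φ ∈ b σ l, φ ∈ U l) ∧
      (∀ φ ∈ b σ l, φ ≠ 0) ∧
      (∀ φ ∈ b σ l, φ ∈ fl (k := K) (jf M a) σ (q * (r + 1))) ∧
      (b σ l).card = finrank K (U l) ∧
      ∀ j ≤ q * (r + 1), ((b σ l).filter fun φ => φ ∈ fl (k := K) (jf M a) σ j).card =
        finrank K (fl (k := K) (jf M a) σ j ⊓ U l : Submodule K (Fin d → K)) := by
  choose b hb1 hb2 hb3 hb4 using fun (σ : Fin (q * (r + 1)) ≃ Fin q × Fin (r + 1)) (l : ι') =>
    adapt (U l) (fl (k := K) (jf M a) σ) (fl_mono _ _) (fl_zero _ _) (q * (r + 1))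
  refine ⟨b, fun σ l => ⟨hb1 σ l, hb2 σ l, fun φ hφ => ?_, hb3 σ l, ?_, hb4 σ l⟩⟩
  · exact (hb1 σ l).ne_zero (mem_coe.2 hφ)
  · have h1 := hb4 σ l _ le_rfl
    rw [fl_top hq a ha M hM σ, top_inf_eq] at h1
    rw [← h1]
    congr 1
    exact (filter_true_of_mem fun φ _ => Submodule.mem_top).symm

/-- the size of a linear combination -/
lemma loc_span {J : Type} (ψ : J → Fin d → K) (v : Pl K) (T : Finset J) (φ : Fin d → K)
    (hφ : φ ∈ Submodule.span K (ψ '' (T : Set J))) :
    ∃ C : ℝ, 0 ≤ C ∧ ∀ (Y : Fin d → K) (τ0 H : ℝ), (∀ t ∈ T, ∑ i, ψ t i * Y i = 0 ∨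
      τ0 ≤ wt v * (H - Real.log (av v (∑ i, ψ t i * Y i)))) → ∑ i, φ i * Y i ≠ 0 →
      τ0 - C ≤ wt v * (H - Real.log (av v (∑ i, φ i * Y i))) := by
  classical
  obtain ⟨c, hc⟩ : ∃ c : J → K, ∑ t ∈ T, c t • ψ t = φ := by
    rw [Submodule.mem_span_image_finset_iff_exists_fun] at hφ
    obtain ⟨c, hc⟩ := hφ
    refine ⟨fun t => if h : t ∈ T then c ⟨t, h⟩ else 0, ?_⟩
    rw [← hc, ← sum_coe_sort T]
    refine sum_congr rfl fun t _ => ?_
    beta_reduce
    rw [dif_pos t.2]
  have hw : 0 < wt v := wt_pos v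
  set B : ℝ := max 1 (∑ t ∈ T, av v (c t)) with hB
  have hB1 : 1 ≤ B := le_max_left _ _
  refine ⟨wt v * Real.log B, mul_nonneg hw.le (Real.log_nonneg hB1), ?_⟩
  intro Y τ0 H hT hφY
  have h1 : ∀ t ∈ T, av v (∑ i, ψ t i * Y i) ≤ Real.exp (H - τ0 / wt v) := by
    intro t ht
    rcases hT t ht with h | h
    · rw [h, map_zero]
      exact (Real.exp_pos _).le
    · by_cases h0 : ∑ i, ψ t i * Y i = 0
      · rw [h0, map_zero]
        exact (Real.exp_pos _).le
      · rw [← Real.exp_log ((av v).pos_iff.2 h0)]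
        refine Real.exp_le_exp.2 ?_
        have h2 : τ0 / wt v ≤ H - Real.log (av v (∑ i, ψ t i * Y i)) := by
          rw [div_le_iff₀ hw]
          linarith
        linarith
  have h2 : ∑ i, φ i * Y i = ∑ t ∈ T, c t * ∑ i, ψ t i * Y i := by
    rw [← hc]
    simp only [Finset.sum_apply, Pi.smul_apply, smul_eq_mul]
    simp_rw [sum_mul, mul_sum]
    rw [sum_comm]
    exact sum_congr rfl fun t _ => sum_congr rfl fun i _ => by ring
  have h3 : av v (∑ i, φ i * Y i) ≤ B * Real.exp (H - τ0 / wt v) := by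
    rw [h2]
    refine ((av v).sum_le _ _).trans ?_
    have h4 : ∑ t ∈ T, av v (c t * ∑ i, ψ t i * Y i) ≤
        (∑ t ∈ T, av v (c t)) * Real.exp (H - τ0 / wt v) := by
      rw [sum_mul]
      refine sum_le_sum fun t ht => ?_
      rw [map_mul]
      exact mul_le_mul_of_nonneg_left (h1 t ht) ((av v).nonneg _)
    exact h4.trans (mul_le_mul_of_nonneg_right (le_max_right _ _) (Real.exp_pos _).le)
  have h4 := Real.log_le_log ((av v).pos_iff.2 hφY) h3
  rw [Real.log_mul (by positivity) (Real.exp_pos _).ne', Real.log_exp] at h4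
  have h5 := mul_le_mul_of_nonneg_left h4 hw.le
  have h6 : wt v * (Real.log B + (H - τ0 / wt v)) = wt v * Real.log B + wt v * H - τ0 := by
    field_simp
    ring
  rw [h6] at h5
  rw [mul_sub]
  linarith

open Classical in
/-- the estimate at one place -/
theorem place_gw (hq : 0 < q) (a : Fin q → K) (ha : Function.Injective a)
    (M : Fin (r + 1) → Fin d → K)
    {ι' : Type} [Fintype ι'] (U : ι' → Submodule K (Fin d → K)) (y : ι' → ℝ)
    (hy : ∀ l, 0 ≤ y l) (hdr : d ≤ r + 1)
    (hmaj : ∀ A : Submodule K (Fin d → K), A ≠ ⊤ →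
      ((jt (jf M a) A).card : ℝ) ≤ ∑ l, y l * finrank K (A ⊓ U l : Submodule K (Fin d → K)))
    (htot : ∑ l, y l * finrank K (U l) = d + 2 * ((r + 1 - d : ℕ) : ℝ))
    (b : (Fin (q * (r + 1)) ≃ Fin q × Fin (r + 1)) → ι' → Finset (Fin d → K))
    (hb : ∀ σ l, LinearIndepOn K id (b σ l : Set (Fin d → K)) ∧ (∀ φ ∈ b σ l, φ ∈ U l) ∧
      (∀ φ ∈ b σ l, φ ≠ 0) ∧
      (∀ φ ∈ b σ l, φ ∈ fl (k := K) (jf M a) σ (q * (r + 1))) ∧
      (b σ l).card = finrank K (U l) ∧
      ∀ j ≤ q * (r + 1), ((b σ l).filter fun φ => φ ∈ fl (k := K) (jf M a) σ j).card =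
        finrank K (fl (k := K) (jf M a) σ j ⊓ U l : Submodule K (Fin d → K))) (v : Pl K) :
    ∃ Cv : ℝ, 0 ≤ Cv ∧ ∀ (L E : Type) [Field L] [NumberField L] [Field E] [NumberField E]
      [Algebra K L] [Algebra L E] [Algebra K E] [IsScalarTower K L E] [IsGalois K E] (x : L),
      IntermediateField.adjoin K {x} = ⊤ → finrank K L = r →
      (∀ i, x ≠ algebraMap K L (a i)) → ∀ Y : Fin d → K, Y ≠ 0 →
      (∀ j : Fin (r + 1), (minpoly K x).coeff j = ∑ l, M j l * Y l) →
      (∀ σ l, ∀ φ ∈ b σ l, ∑ i, φ i * Y i ≠ 0) →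
      ∀ u : Pl E, Ov v u → ∃ σ : Fin (q * (r + 1)) ≃ Fin q × Fin (r + 1),
        ∑ i, (∑ y ∈ cj K (algebraMap L E x), prx v u (a i) y +
          ∑ y ∈ cj K (algebraMap L E x), ∑ z ∈ cj K (algebraMap L E x),
            min (prx v u (a i) y) (prx v u (a i) z)) ≤
        2 * ∑ l, y l * (wt v * ∑ φ ∈ b σ l, (Real.log (nrm (av v) Y) -
          Real.log (av v (∑ i, φ i * Y i)))) + Cv := by
  obtain ⟨C0, hC00, hC0⟩ := place_tau hq a ha v r
  have hw : 0 < wt v := wt_pos v
  -- the constants of the linear combinations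
  have hex : ∀ (T : Finset (Fin q × Fin (r + 1))) (p : (Fin (q * (r + 1)) ≃ Fin q × Fin (r + 1)) × ι')
      (φ : b p.1 p.2), ∃ C : ℝ, 0 ≤ C ∧ (φ.1 ∈ Submodule.span K (jf M a '' (T : Set _)) →
      ∀ (Y : Fin d → K) (τ0 H : ℝ), (∀ t ∈ T, ∑ i, jf M a t i * Y i = 0 ∨
      τ0 ≤ wt v * (H - Real.log (av v (∑ i, jf M a t i * Y i)))) → ∑ i, φ.1 i * Y i ≠ 0 →
      τ0 - C ≤ wt v * (H - Real.log (av v (∑ i, φ.1 i * Y i)))) := by
    intro T p φ
    by_cases h : φ.1 ∈ Submodule.span K (jf M a '' (T : Set _))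
    · obtain ⟨C, h1, h2⟩ := loc_span (jf M a) v T φ.1 h
      exact ⟨C, h1, fun _ => h2⟩
    · exact ⟨0, le_rfl, fun h' => absurd h' h⟩
  choose Cs hCs0 hCs using hex
  set C1 : ℝ := ∑ T, ∑ p, ∑ φ, Cs T p φ with hC1
  have hC10 : 0 ≤ C1 := sum_nonneg fun T _ => sum_nonneg fun p _ => sum_nonneg fun φ _ =>
    hCs0 T p φ
  have hCs1 : ∀ T p φ, Cs T p φ ≤ C1 := by
    intro T p φ
    have h1 := single_le_sum (f := fun φ => Cs T p φ) (fun φ _ => hCs0 T p φ) (mem_univ φ)
    have h2 := single_le_sum (f := fun p => ∑ φ, Cs T p φ) (fun p _ => sum_nonneg fun φ _ =>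
      hCs0 T p φ) (mem_univ p)
    have h3 := single_le_sum (f := fun T => ∑ p, ∑ φ, Cs T p φ) (fun T _ => sum_nonneg fun p _ =>
      sum_nonneg fun φ _ => hCs0 T p φ) (mem_univ T)
    exact h1.trans (h2.trans h3)
  -- the matrix
  set B : ℝ := max 1 (∑ j, ∑ l, av v (M j l)) with hB
  have hB1 : 1 ≤ B := le_max_left _ _
  set C2 : ℝ := C1 + C0 + wt v * Real.log B with hC2
  have hC20 : 0 ≤ C2 := by
    have := mul_nonneg hw.le (Real.log_nonneg hB1)
    linarith
  refine ⟨2 * ((d + 2 * ((r + 1 - d : ℕ) : ℝ)) * C2) + C0, by positivity, ?_⟩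
  intro L E _ _ _ _ _ _ _ _ _ x hx hr hxa Y hY0 hY hφY u hu
  obtain ⟨τ, hτ0, hτa, ⟨n, hns, hnz⟩, hτc, hmain⟩ := hC0 L E x hx hr hxa u hu
  have hdeg : (minpoly K x).natDegree = r := by rw [minpoly_natDegree hx, hr]
  set F : Fin (r + 1) → K := fun j => (minpoly K x).coeff j with hF
  have hF0 : F ≠ 0 := by
    intro h0
    have h1 := congrFun h0 ⟨r, by omega⟩
    have h2 : F ⟨r, by omega⟩ = 1 := by
      show (minpoly K x).coeff r = 1
      rw [← hdeg]
      exact (minpoly.monic (Algebra.IsIntegral.isIntegral x)).coeff_natDegree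
    rw [h2] at h1
    exact one_ne_zero h1
  have hnF : Real.log (nrm (av v) F) ≤ Real.log B + Real.log (nrm (av v) Y) := by
    have hYp := nrm_pos (av v) hY0
    rw [← Real.log_mul (by positivity) hYp.ne']
    refine Real.log_le_log (nrm_pos _ hF0) ?_
    obtain ⟨j, hj⟩ := exists_nrm (av v) (by omega : 0 < r + 1) F
    rw [← hj]
    show av v ((minpoly K x).coeff j) ≤ _
    rw [hY j]
    have h1 : av v (∑ l, M j l * Y l) ≤ ∑ l, av v (M j l) * nrm (av v) Y := by
      refine ((av v).sum_le _ _).trans (sum_le_sum fun i _ => ?_)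
      rw [map_mul]
      exact mul_le_mul_of_nonneg_left (le_nrm _ _ _) ((av v).nonneg _)
    refine h1.trans ?_
    rw [← sum_mul]
    refine mul_le_mul_of_nonneg_right ?_ hYp.le
    refine le_trans ?_ (le_max_right _ _)
    exact single_le_sum (f := fun j => ∑ i, av v (M j i)) (fun j _ => sum_nonneg fun i _ =>
      (av v).nonneg _) (mem_univ j)
  have hjY : ∀ t : Fin q × Fin (r + 1), ∑ i, jf M a t i * Y i =
      (taylor (a t.1) (minpoly K x)).coeff t.2 := by
    intro t
    rw [← tf_apply r (a t.1) t.2 _ hdeg.le]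
    unfold jf
    simp_rw [hY, sum_mul, mul_sum]
    rw [sum_comm]
    exact sum_congr rfl fun j _ => sum_congr rfl fun l _ => by ring
  obtain ⟨σ, hσ1, hσ2⟩ := ordering (q := q) (r := r) (fun t => τ t.1 t.2)
    (fun i j j' h => hτa i h)
  refine ⟨σ, ?_⟩
  have hrM : r + 1 ≤ q * (r + 1) := Nat.le_mul_of_pos_left _ hq
  set τs : ℕ → ℝ := fun j => if h : j < (q * (r + 1)) then τ (σ ⟨j, h⟩).1 (σ ⟨j, h⟩).2 else 0 with hτs
  have hτs0 : ∀ j, 0 ≤ τs j := by
    intro j
    simp only [hτs]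
    split_ifs
    · exact hτ0 _ _
    · exact le_rfl
  have hτsa : Antitone τs := by
    intro j j' h
    simp only [hτs]
    by_cases h1 : j' < (q * (r + 1))
    · rw [dif_pos h1, dif_pos (lt_of_le_of_lt h h1)]
      exact hσ1 ⟨j, lt_of_le_of_lt h h1⟩ ⟨j', h1⟩ h
    · rw [dif_neg h1]
      split_ifs
      · exact hτ0 _ _
      · exact le_rfl
  have hτsr : ∀ j, r ≤ j → τs j = 0 := by
    intro j hj
    by_contra hne
    have hjP : j < (q * (r + 1)) := by
      by_contra hc
      apply hne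
      simp only [hτs]
      rw [dif_neg hc]
    have hpos : 0 < τs j := lt_of_le_of_ne (hτs0 j) (Ne.symm hne)
    -- at least `j + 1` positive numbers
    have h1 : (Finset.range (j + 1)).card ≤ (univ.filter fun t : Fin q × Fin (r + 1) =>
        (t.2 : ℕ) < n t.1).card := by
      refine card_le_card_of_injOn (fun i => if h : i < (q * (r + 1)) then σ ⟨i, h⟩ else σ ⟨j, hjP⟩) ?_ ?_
      · intro i hi
        rw [mem_coe, mem_range] at hi
        have hiP : i < (q * (r + 1)) := by omega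
        rw [mem_coe, mem_filter]
        refine ⟨mem_univ _, ?_⟩
        beta_reduce
        rw [dif_pos hiP]
        by_contra hc
        push Not at hc
        have h2 := hnz _ _ hc
        have h3 : τs j ≤ τs i := hτsa (by omega)
        have h4 : τs i = 0 := by
          simp only [hτs]
          rw [dif_pos hiP]
          exact h2
        linarith
      · intro i hi i' hi' h
        rw [mem_coe, mem_range] at hi hi'
        have hiP : i < (q * (r + 1)) := by omega
        have hiP2 : i' < (q * (r + 1)) := by omega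
        simp only [dif_pos hiP, dif_pos hiP2] at h
        have h2 := σ.injective h
        simpa using h2
    have h2 : (univ.filter fun t : Fin q × Fin (r + 1) => (t.2 : ℕ) < n t.1).card ≤ r := by
      have h3 : (univ.filter fun t : Fin q × Fin (r + 1) => (t.2 : ℕ) < n t.1).card ≤
          (univ.sigma fun i : Fin q => Finset.range (n i)).card := by
        refine card_le_card_of_injOn (fun t => ⟨t.1, (t.2 : ℕ)⟩) ?_ ?_
        · intro t ht
          rw [mem_coe, mem_filter] at ht
          rw [mem_coe, mem_sigma]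
          exact ⟨mem_univ _, mem_range.2 ht.2⟩
        · rintro ⟨i, k⟩ _ ⟨i', k'⟩ _ h
          simp only [Sigma.mk.injEq] at h
          obtain ⟨rfl, h4⟩ := h
          exact Prod.ext rfl (Fin.ext (eq_of_heq h4))
      rw [card_sigma] at h3
      simp only [card_range] at h3
      rw [hns] at h3
      exact h3
    rw [card_range] at h1
    omega
  have hf : ∀ j ≤ r, (j : ℝ) ≤ ∑ l, y l *
      finrank K (fl (k := K) (jf M a) σ j ⊓ U l : Submodule K (Fin d → K)) := by
    intro j hj
    by_cases ht : fl (k := K) (jf M a) σ j = ⊤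
    · have h0 : ∑ l, y l * (finrank K (fl (k := K) (jf M a) σ j ⊓ U l :
          Submodule K (Fin d → K)) : ℝ) = ∑ l, y l * finrank K (U l) :=
        sum_congr rfl fun l _ => by rw [ht, top_inf_eq]
      rw [h0, htot]
      have h1 : j ≤ d + 2 * (r + 1 - d) := by omega
      exact_mod_cast h1
    · refine le_trans ?_ (hmaj _ ht)
      have h1 : (Finset.range j).card ≤ (jt (jf M a) (fl (k := K) (jf M a) σ j)).card := by
        refine card_le_card_of_injOn (fun i => if h : i < (q * (r + 1)) then σ ⟨i, h⟩ else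
          σ ⟨0, by omega⟩) ?_ ?_
        · intro i hi
          rw [mem_coe, mem_range] at hi
          have hiP : i < (q * (r + 1)) := by omega
          beta_reduce
          rw [dif_pos hiP, mem_coe, mem_jt]
          intro k' hk'
          refine Submodule.subset_span ⟨((σ ⟨i, hiP⟩).1, k'), ?_, rfl⟩
          have h2 := hσ2 (σ ⟨i, hiP⟩).1 k' (σ ⟨i, hiP⟩).2 hk'
          rw [Prod.mk.eta, σ.symm_apply_apply, Fin.le_def] at h2
          exact lt_of_le_of_lt h2 hi
        · intro i hi i' hi' h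
          rw [mem_coe, mem_range] at hi hi'
          have hiP : i < (q * (r + 1)) := by omega
          have hiP2 : i' < (q * (r + 1)) := by omega
          simp only [dif_pos hiP, dif_pos hiP2] at h
          have h2 := σ.injective h
          simpa using h2
      rw [card_range] at h1
      exact_mod_cast h1
  set val : (Fin d → K) → ℝ := fun φ => wt v * (Real.log (nrm (av v) Y) -
    Real.log (av v (∑ i, φ i * Y i))) + C2 with hval
  have h1 := lp U y hy (fl (k := K) (jf M a) σ) (fl_mono _ _) (fl_zero _ _) (q * (r + 1)) (b σ)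
    (fun l => (hb σ l).2.2.1) (fun l => (hb σ l).2.2.2.1) (fun l => (hb σ l).2.2.2.2.2)
    τs hτsa hτs0 r (by omega) hτsr hf val (by
      intro l φ hφ j hj hj1 _
      set T : Finset (Fin q × Fin (r + 1)) := univ.filter fun t =>
        ((σ.symm t : Fin (q * (r + 1))) : ℕ) < j + 1 with hT
      have hT' : (T : Set (Fin q × Fin (r + 1))) = {t | ((σ.symm t : Fin (q * (r + 1))) : ℕ) < j + 1} := by
        ext t
        simp [hT]
      have hφT : φ ∈ Submodule.span K (jf M a '' (T : Set _)) := by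
        rw [hT']
        exact hj1
      have h2 := hCs T (σ, l) ⟨φ, hφ⟩ hφT Y (τs j - C0) (Real.log (nrm (av v) F)) (by
        intro t ht
        rw [hjY t]
        have h3 := hτc t.1 t.2 (by have := t.2.2; omega)
        refine h3.imp_right fun h4 => ?_
        have h5 : τs j ≤ τ t.1 t.2 := by
          simp only [hτs]
          rw [dif_pos hj]
          have h6 : σ.symm t ≤ ⟨j, hj⟩ := by
            rw [Fin.le_def]
            have := (mem_filter.1 ht).2
            simp only
            omega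
          have h7 := hσ1 _ _ h6
          rw [σ.apply_symm_apply] at h7
          exact h7
        linarith) (hφY σ l φ hφ)
      have h3 := hCs1 T (σ, l) ⟨φ, hφ⟩
      have h4 := mul_le_mul_of_nonneg_left hnF hw.le
      simp only [hval, hC2]
      rw [mul_sub] at h2 ⊢
      rw [mul_add] at h4
      linarith)
  have h2 : ∑ j ∈ Finset.range (q * (r + 1)), τs j = ∑ i, ∑ k ∈ Finset.range (r + 1), τ i k := by
    rw [Finset.sum_range]
    have h3 : ∀ j : Fin (q * (r + 1)), τs j = τ (σ j).1 (σ j).2 := by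
      intro j
      simp only [hτs]
      rw [dif_pos j.2]
    rw [sum_congr rfl fun j _ => h3 j, σ.sum_comp (fun t => τ t.1 (t.2 : ℕ)),
      Fintype.sum_prod_type]
    exact sum_congr rfl fun i _ => by rw [Finset.sum_range]
  rw [h2] at h1
  have h3 : ∑ l, y l * ∑ φ ∈ b σ l, val φ = ∑ l, y l * (wt v * ∑ φ ∈ b σ l,
      (Real.log (nrm (av v) Y) - Real.log (av v (∑ i, φ i * Y i)))) +
        (d + 2 * ((r + 1 - d : ℕ) : ℝ)) * C2 := by
    rw [← htot, sum_mul, ← sum_add_distrib]
    refine sum_congr rfl fun l _ => ?_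
    simp only [hval]
    rw [sum_add_distrib, sum_const, (hb σ l).2.2.2.2.1, nsmul_eq_mul, ← mul_sum]
    ring
  rw [h3] at h1
  linarith

end Pool.Agent.H430.Gw
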