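import Pool.Agent.H430.Gw.Main

/-!
The inequality for the closed points outside of the linear systems of large codimension.
-/

set_option autoImplicit false

namespace Pool.Agent.H430.Gw

open Finset NumberField IsDedekindDomain Height Module Polynomial
open Pool.Agent.W180.OP (Pl av wt fv nrm wt_nonneg le_nrm exists_nrm nrm_pos)
open Pool.Agent.NH28 (Ov nn ab mem_ab sum_nn one_le_nn nn_ext nn_nonneg exists_below ov_unique
  sum_split height_sum prod_formula fab mem_fab nrm_support ab_nonempty fv_sum_le)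
open Pool.Agent.H430.Cl
open Pool.Agent.H430.Hf

/-- a Galois extension -/
lemma exists_gal (K L : Type) [Field K] [NumberField K] [Field L] [NumberField L] [Algebra K L] :
    ∃ (E : Type) (_ : Field E) (_ : NumberField E) (_ : Algebra L E) (_ : Algebra K E)
      (_ : IsScalarTower K L E), IsGalois K E := by
  have : FiniteDimensional K L := Module.Finite.of_restrictScalars_finite ℚ K L
  have : Algebra.IsAlgebraic K (AlgebraicClosure L) := Algebra.IsAlgebraic.trans K L _
  have : IsAlgClosure K (AlgebraicClosure L) := ⟨inferInstance, inferInstance⟩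
  have : Normal K (AlgebraicClosure L) := inferInstance
  let E := IntermediateField.normalClosure K L (AlgebraicClosure L)
  have : FiniteDimensional K E := inferInstance
  have h1 : NumberField E := {
    to_charZero := charZero_of_injective_algebraMap (algebraMap K E).injective
    to_finiteDimensional := Module.Finite.trans K E }
  have : Normal K E := inferInstance
  exact ⟨E, inferInstance, h1, inferInstance, inferInstance, inferInstance, ⟨⟩⟩

/-- the inequality in terms of the places of `K(x)` -/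
theorem gw_fin {K : Type} [Field K] [NumberField K] {q : ℕ} (a : Fin q → K)
    (ha : Function.Injective a) (r : ℕ) :
    ∃ 𝒲 : Finset (Submodule K (Fin (r + 1) → K)),
      ∀ (S : Finset (Pl K)) (ε : ℝ), 0 < ε → ∃ C : ℝ, ∀ (L : Type) [Field L] [NumberField L]
      [Algebra K L] (x : L), IntermediateField.adjoin K {x} = ⊤ → finrank K L = r →
      (∀ i, x ≠ algebraMap K L (a i)) → ∀ κ : ℕ,
      (∀ W ∈ 𝒲, (fun j : Fin (r + 1) => (minpoly K x).coeff j) ∈ W → r + 1 ≤ finrank K W + κ) →
        ∑ v ∈ S, ∑ i, (∑ w ∈ ab L v, nn v w * prx v w (a i) x +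
          ∑ w ∈ ab L v, ∑ w' ∈ ab L v, nn v w * nn v w' * min (prx v w (a i) x)
            (prx v w' (a i) x)) ≤ (2 * (r + 1 + κ) + ε) * logHeight ![1, x] + C := by
  classical
  rcases Nat.eq_zero_or_pos q with hq | hq
  · subst hq
    refine ⟨∅, fun S ε hε => ⟨0, ?_⟩⟩
    intro L _ _ _ x _ _ _ κ _
    simp only [univ_eq_empty, sum_empty, sum_const_zero]
    have := logHeight_nonneg (![1, x] : Fin 2 → L)
    positivity
  obtain ⟨𝒲, h⟩ := rec_W hq a ha r _ ⊤ le_rfl
  refine ⟨𝒲, fun S ε hε => ?_⟩
  obtain ⟨C, hC0, hC⟩ := h S ε hε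
  refine ⟨C, ?_⟩
  intro L _ _ _ x hx hr hxa κ hκ
  obtain ⟨E, _, _, _, _, _, hG⟩ := exists_gal K L
  choose u hu using fun v : Pl K => ab_nonempty (L := E) v
  have h1 := hC L E x hx hr hxa Submodule.mem_top κ (by
    intro W hW hlt hF
    have := hκ W hW hF
    omega) u (fun v _ => mem_ab.1 (hu v))
  refine le_trans (le_of_eq ?_) h1
  refine sum_congr rfl fun v _ => sum_congr rfl fun i _ => ?_
  rw [single_sum hx (mem_ab.1 (hu v)), pair_sum hx (mem_ab.1 (hu v))]

/-- the inequality for the proximity and the clustered proximity -/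
theorem gw_max {K : Type} [Field K] [NumberField K] {q : ℕ} (a : Fin q → K)
    (ha : Function.Injective a) (r : ℕ) :
    ∃ 𝒲 : Finset (Submodule K (Fin (r + 1) → K)),
      ∀ (S : Finset (Pl K)) (ε : ℝ), 0 < ε → ∃ C : ℝ, ∀ (L : Type) [Field L] [NumberField L]
      [Algebra K L] (x : L), IntermediateField.adjoin K {x} = ⊤ → finrank K L = r →
      (∀ i, x ≠ algebraMap K L (a i)) → ∀ κ : ℕ,
      (∀ W ∈ 𝒲, (fun j : Fin (r + 1) => (minpoly K x).coeff j) ∈ W → r + 1 ≤ finrank K W + κ) →
        ∑ v ∈ S, ∑ i, max (∑ w ∈ ab L v, nn v w * prx v w (a i) x)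
          ((∑ w ∈ ab L v, nn v w * prx v w (a i) x + ∑ w ∈ ab L v, ∑ w' ∈ ab L v,
            nn v w * nn v w' * min (prx v w (a i) x) (prx v w' (a i) x)) / 2) ≤
          (r + 1 + κ + ε) * logHeight ![1, x] + C := by
  classical
  obtain ⟨𝒲, h⟩ := gw_fin a ha r
  refine ⟨𝒲, fun S ε hε => ?_⟩
  obtain ⟨C, hC⟩ := h S (2 * ε) (by positivity)
  choose c hc0 hc using fun (v : Pl K) (i : Fin q) => prx_lb v (a i)
  refine ⟨(C + ∑ v ∈ S, ∑ i, (r : ℝ) * r * c v i) / 2, ?_⟩
  intro L _ _ _ x hx hr hxa κ hκ
  have : FiniteDimensional K L := Module.Finite.of_restrictScalars_finite ℚ K L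
  have h1 := hC L x hx hr hxa κ hκ
  have h2 : ∀ v ∈ S, ∀ i, 2 * ∑ w ∈ ab L v, nn v w * prx v w (a i) x ≤
      (∑ w ∈ ab L v, nn v w * prx v w (a i) x +
          ∑ w ∈ ab L v, ∑ w' ∈ ab L v, nn v w * nn v w' * min (prx v w (a i) x)
            (prx v w' (a i) x)) + (r : ℝ) * r * c v i := by
    intro v _ i
    have hlb : ∀ w ∈ ab L v, -(c v i) ≤ prx v w (a i) x := fun w hw => hc v i L w hw x (hxa i)
    have hsn : ∑ w ∈ ab L v, nn v w = r := by
      rw [← hr]
      exact sum_nn L v
    -- the diagonal terms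
    have h3 : ∀ w ∈ ab L v, nn v w * prx v w (a i) x ≤
        ∑ w' ∈ ab L v, nn v w * nn v w' * min (prx v w (a i) x) (prx v w' (a i) x) +
          nn v w * (r * c v i) := by
      intro w hw
      have hn1 := one_le_nn (mem_ab.1 hw)
      have h4 : ∑ w' ∈ ab L v, nn v w * nn v w' * (min (prx v w (a i) x) (prx v w' (a i) x) +
          c v i) ≥ nn v w * nn v w * (min (prx v w (a i) x) (prx v w (a i) x) + c v i) := by
        refine single_le_sum (f := fun w' => nn v w * nn v w' *
          (min (prx v w (a i) x) (prx v w' (a i) x) + c v i)) (fun w' hw' => ?_) hw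
        have hn2 := one_le_nn (mem_ab.1 hw')
        have h5 : 0 ≤ min (prx v w (a i) x) (prx v w' (a i) x) + c v i := by
          have := le_min (hlb w hw) (hlb w' hw')
          linarith
        positivity
      rw [min_self] at h4
      have h5 : nn v w * (prx v w (a i) x + c v i) ≤
          nn v w * nn v w * (prx v w (a i) x + c v i) := by
        refine mul_le_mul_of_nonneg_right ?_ (by have := hlb w hw; linarith)
        nlinarith
      have h6 : ∑ w' ∈ ab L v, nn v w * nn v w' * (min (prx v w (a i) x) (prx v w' (a i) x) +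
          c v i) = ∑ w' ∈ ab L v, nn v w * nn v w' * min (prx v w (a i) x) (prx v w' (a i) x) +
          nn v w * (r * c v i) := by
        rw [← hsn, sum_mul, mul_sum, ← sum_add_distrib]
        exact sum_congr rfl fun w' _ => by ring
      have h7 : 0 ≤ nn v w * c v i := mul_nonneg (by linarith) (hc0 v i)
      rw [h6] at h4
      linarith
    have h4 := sum_le_sum h3
    rw [sum_add_distrib, ← sum_mul, hsn] at h4
    linarith
  have h3 : ∀ v ∈ S, ∀ i, max (∑ w ∈ ab L v, nn v w * prx v w (a i) x)
      ((∑ w ∈ ab L v, nn v w * prx v w (a i) x + ∑ w ∈ ab L v, ∑ w' ∈ ab L v,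
            nn v w * nn v w' * min (prx v w (a i) x) (prx v w' (a i) x)) / 2) ≤
      ((∑ w ∈ ab L v, nn v w * prx v w (a i) x + ∑ w ∈ ab L v, ∑ w' ∈ ab L v,
            nn v w * nn v w' * min (prx v w (a i) x) (prx v w' (a i) x)) +
            (r : ℝ) * r * c v i) / 2 := by
    intro v hv i
    have h4 := h2 v hv i
    have h5 : 0 ≤ (r : ℝ) * r * c v i := mul_nonneg (by positivity) (hc0 v i)
    exact max_le (by linarith) (by linarith)
  have h4 := sum_le_sum fun v (hv : v ∈ S) => sum_le_sum fun i (_ : i ∈ univ) => h3 v hv i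
  refine h4.trans ?_
  simp only [← sum_div]
  rw [div_le_iff₀ two_pos]
  simp only [sum_add_distrib] at h1 ⊢
  linarith

end Pool.Agent.H430.Gw
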