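import Pool.Agent.H430.Gw.Fin

/-!
Sharpness: heights and local heights in terms of the minimal polynomial.
-/

set_option autoImplicit false

namespace Pool.Agent.H430.Gw

open Finset NumberField IsDedekindDomain Height Module Polynomial
open Pool.Agent.W180.OP (Pl av wt fv nrm wt_nonneg le_nrm exists_nrm nrm_pos)
open Pool.Agent.NH28 (Ov nn ab mem_ab sum_nn one_le_nn nn_ext nn_nonneg exists_below ov_unique
  sum_split height_sum prod_formula fab mem_fab nrm_support ab_nonempty fv_sum_le)
open Pool.Agent.H430.Cl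
open Pool.Agent.H430.Hf

lemma prod_max_fin {E : Type} [Field E] (f : AbsoluteValue E ℝ) (hna : IsNonarchimedean f)
    (s : Finset E) (A : ℝ) (hA : ∀ k, f ((∏ y ∈ s, (X - C y)).coeff k) ≤ A) :
    ∏ y ∈ s, max 1 (f y) ≤ A := by
  classical
  have h1 : ∀ y : E, max 1 (f y) ≤ (X - C y : E[X]).gaussNorm f 1 := by
    intro y
    refine max_le ?_ ?_
    · have := (X - C y : E[X]).le_gaussNorm f (zero_le_one : (0 : ℝ) ≤ 1) 1
      simpa using this
    · have := (X - C y : E[X]).le_gaussNorm f (zero_le_one : (0 : ℝ) ≤ 1) 0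
      simpa using this
  have h2 : ∏ y ∈ s, max 1 (f y) ≤ (∏ y ∈ s, (X - C y) : E[X]).gaussNorm f 1 := by
    clear hA
    induction s using Finset.induction_on with
    | empty =>
      rw [prod_empty, prod_empty, ← C_1, gaussNorm_C, map_one]
    | insert y s hy ih =>
      rw [prod_insert hy, prod_insert hy, gaussNorm_mul hna one_pos]
      exact mul_le_mul (h1 y) ih (prod_nonneg fun y _ => zero_le_one.trans (le_max_left _ _))
        ((zero_le_one.trans (le_max_left _ _)).trans (h1 y))
  obtain ⟨i, hi⟩ := (∏ y ∈ s, (X - C y) : E[X]).exists_eq_gaussNorm f 1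
  rw [hi, one_pow, mul_one] at h2
  exact h2.trans (hA i)

section tower

variable {K L E : Type} [Field K] [NumberField K] [Field L] [NumberField L] [Field E]
  [NumberField E] [Algebra K L] [Algebra L E] [Algebra K E] [IsScalarTower K L E]

lemma nrm_lower_fin [IsGalois K E] {x : L} (hx : IntermediateField.adjoin K {x} = ⊤) {r : ℕ}
    (hr : finrank K L = r) {v : HeightOneSpectrum (𝓞 K)} {u : Pl E}
    (h : Ov (Sum.inr v : Pl K) u) :
    ∑ y ∈ cj K (algebraMap L E x), hu (Sum.inr v : Pl K) u y ≤
      Real.log (nrm (fv v) (fun j : Fin (r + 1) => (minpoly K x).coeff j)) := by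
  classical
  cases u with
  | inl u => exact h.elim
  | inr u =>
  have hnn : 0 < nn (Sum.inr v : Pl K) (Sum.inr u : Pl E) := by
    have := one_le_nn h
    linarith
  set f := minpoly K x with hf
  set F : Fin (r + 1) → K := fun j => f.coeff j with hF
  have hmin : f = minpoly K (algebraMap L E x) := by
    rw [hf, minpoly.algebraMap_eq (algebraMap L E).injective]
  have hdeg : f.natDegree = r := by rw [hf, minpoly_natDegree hx, hr]
  obtain ⟨j1, hj1⟩ := exists_nrm (fv u) (by omega : 0 < r + 1)
    (fun j : Fin (r + 1) => algebraMap K E (F j))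
  set A : ℝ := fv u (algebraMap K E (F j1)) with hA
  have hle : ∀ j, fv u (algebraMap K E (F j)) ≤ A := by
    intro j
    have := le_nrm (fv u) (fun j : Fin (r + 1) => algebraMap K E (F j)) j
    rw [← hj1] at this
    exact this
  have hA1 : 1 ≤ A := by
    have h1 := hle ⟨r, by omega⟩
    have h2 : F ⟨r, by omega⟩ = 1 := by
      show f.coeff r = 1
      rw [← hdeg]
      exact (minpoly.monic (Algebra.IsIntegral.isIntegral x)).coeff_natDegree
    rw [h2, map_one, map_one] at h1
    exact h1
  have hco : ∀ k, fv u ((∏ y ∈ cj K (algebraMap L E x), (X - C y)).coeff k) ≤ A := by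
    intro k
    rw [← minpoly_map, ← hmin, coeff_map]
    by_cases hk : k < r + 1
    · exact hle ⟨k, hk⟩
    · rw [coeff_eq_zero_of_natDegree_lt (by omega), map_zero, map_zero]
      linarith
  have hna : IsNonarchimedean (fv u) := FinitePlace.add_le (FinitePlace.mk u)
  have h1 := prod_max_fin (fv u) hna _ A hco
  have hpos : ∀ y ∈ cj K (algebraMap L E x), max 1 (fv u y) ≠ 0 := fun y _ =>
    (lt_of_lt_of_le one_pos (le_max_left _ _)).ne'
  have h2 : ∑ y ∈ cj K (algebraMap L E x), Real.log (max 1 (fv u y)) ≤ Real.log A := by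
    rw [← Real.log_prod hpos]
    exact Real.log_le_log (prod_pos fun y _ => lt_of_lt_of_le one_pos (le_max_left _ _)) h1
  have h3 : ∑ y ∈ cj K (algebraMap L E x), hu (Sum.inr v : Pl K) (Sum.inr u : Pl E) y =
      (∑ y ∈ cj K (algebraMap L E x), Real.log (max 1 (fv u y))) /
        nn (Sum.inr v : Pl K) (Sum.inr u : Pl E) := by
    unfold hu
    rw [sum_div]
    refine sum_congr rfl fun y _ => ?_
    congr 1
    exact one_mul _
  have hF0 : F j1 ≠ 0 := by
    intro h0
    rw [hA, h0, map_zero, map_zero] at hA1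
    linarith
  have h5 : Real.log A / nn (Sum.inr v : Pl K) (Sum.inr u : Pl E) = Real.log (fv v (F j1)) := by
    have e := log_down h (F j1)
    have e1 : wt (Sum.inr v : Pl K) * Real.log (av (Sum.inr v : Pl K) (F j1)) =
        Real.log (fv v (F j1)) := one_mul _
    have e2 : wt (Sum.inr u : Pl E) * Real.log (av (Sum.inr u : Pl E)
        (algebraMap K E (F j1))) = Real.log A := one_mul _
    rw [e1, e2] at e
    exact e.symm
  rw [h3]
  calc _ ≤ Real.log A / nn (Sum.inr v : Pl K) (Sum.inr u : Pl E) := by gcongr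
    _ = Real.log (fv v (F j1)) := h5
    _ ≤ _ := Real.log_le_log ((fv v).pos_iff.2 hF0) (le_nrm _ _ _)

/-- the local heights at one place -/
lemma prx_sum [IsGalois K E] {x : L} (hx : IntermediateField.adjoin K {x} = ⊤) {v : Pl K}
    {u : Pl E} (h : Ov v u) (b : K) (hb : (minpoly K x).eval b ≠ 0) :
    ∑ y ∈ cj K (algebraMap L E x), prx v u b y =
      ∑ y ∈ cj K (algebraMap L E x), hu v u y -
        wt v * Real.log (av v ((minpoly K x).eval b)) := by
  classical
  have hmin : minpoly K x = minpoly K (algebraMap L E x) := by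
    rw [minpoly.algebraMap_eq (algebraMap L E).injective]
  have h1 : algebraMap K E ((minpoly K x).eval b) =
      ∏ y ∈ cj K (algebraMap L E x), (algebraMap K E b - y) := by
    have h2 : algebraMap K E ((minpoly K x).eval b) =
        ((minpoly K x).map (algebraMap K E)).eval (algebraMap K E b) := by
      rw [eval_map, eval₂_at_apply]
    rw [h2, hmin, minpoly_map, eval_prod]
    simp
  have h0 : algebraMap K E ((minpoly K x).eval b) ≠ 0 := (_root_.map_ne_zero _).2 hb
  have hne : ∀ y ∈ cj K (algebraMap L E x), algebraMap K E b - y ≠ 0 := by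
    rw [h1] at h0
    exact prod_ne_zero_iff.1 h0
  have h3 : Real.log (av u (algebraMap K E ((minpoly K x).eval b))) =
      ∑ y ∈ cj K (algebraMap L E x), Real.log (av u (y - algebraMap K E b)) := by
    rw [h1, map_prod, Real.log_prod fun y hy => ((av u).pos_iff.2 (hne y hy)).ne']
    refine sum_congr rfl fun y _ => ?_
    rw [← (av u).map_neg, neg_sub]
  rw [log_down h, h3, mul_sum, sum_div, ← sum_sub_distrib]
  refine sum_congr rfl fun y _ => ?_
  unfold prx hu
  ring

end tower

/-- lower bound for the local heights -/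
lemma prox_lower {K L : Type} [Field K] [NumberField K] [Field L] [NumberField L] [Algebra K L]
    {x : L} (hx : IntermediateField.adjoin K {x} = ⊤) {r : ℕ} (hr : finrank K L = r) (v : Pl K)
    (b : K) (hb : (minpoly K x).eval b ≠ 0) :
    wt v * (Real.log (nrm (av v) (fun j : Fin (r + 1) => (minpoly K x).coeff j)) -
      Real.log (av v ((minpoly K x).eval b))) - 2 * (r * Real.log 2) ≤
      ∑ w ∈ ab L v, nn v w * prx v w b x := by
  obtain ⟨E, _, _, _, _, _, hG⟩ := exists_gal K L
  obtain ⟨u, hu⟩ := ab_nonempty E v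
  have h1 := nrm_upper (E := E) hx hr (mem_ab.1 hu)
  have h2 := prx_sum (E := E) hx (mem_ab.1 hu) b hb
  rw [single_sum hx (mem_ab.1 hu)] at h2
  rw [h2]
  linarith

/-- upper bound for the height -/
lemma height_upper {K : Type} [Field K] [NumberField K] (r : ℕ) : ∃ C : ℝ, 0 ≤ C ∧
    ∀ (L : Type) [Field L] [NumberField L] [Algebra K L] (x : L),
      IntermediateField.adjoin K {x} = ⊤ → finrank K L = r →
      logHeight ![1, x] ≤ logHeight (fun j : Fin (r + 1) => (minpoly K x).coeff j) + C := by
  classical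
  have hl : 0 ≤ (r : ℝ) * Real.log (r + 1) := by
    have : 0 ≤ Real.log ((r : ℝ) + 1) := Real.log_nonneg (by
      have : (0 : ℝ) ≤ r := Nat.cast_nonneg r
      linarith)
    positivity
  refine ⟨∑ _v : InfinitePlace K, 2 * (r * Real.log (r + 1)),
    sum_nonneg fun v _ => by positivity, ?_⟩
  intro L _ _ _ x hx hr
  obtain ⟨E, _, _, _, _, _, hG⟩ := exists_gal K L
  set F : Fin (r + 1) → K := fun j => (minpoly K x).coeff j with hF
  have hF0 : F ≠ 0 := coeff_vec_ne hx hr
  obtain ⟨T0, -, hT0⟩ := height_pl (K := K) x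
  set G := (nrm_support hF0).toFinset with hG
  have hmem : ∀ v, v ∈ G ↔ nrm (fv v) F ≠ 1 := by
    intro v
    rw [hG, Set.Finite.mem_toFinset, Set.mem_ofPred_eq]
  set T : Finset (Pl K) := T0 ∪ (univ.image Sum.inl ∪ G.image Sum.inr) with hT
  have hinf : ∀ v : InfinitePlace K, (Sum.inl v : Pl K) ∈ T := fun v =>
    mem_union_right _ (mem_union_left _ (mem_image_of_mem _ (mem_univ v)))
  have h1 := height_sum hF0 T.toRight (fun v hv => by
    rw [mem_toRight]
    exact mem_union_right _ (mem_union_right _ (mem_image_of_mem _ ((hmem v).2 hv))))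
  have h2 : T.toLeft = univ := by
    ext v
    rw [mem_toLeft]
    simp [hinf v]
  have hvi : ∀ v : InfinitePlace K,
      ∑ w ∈ ab L (Sum.inl v : Pl K), wt w * Real.log (max 1 (av w x)) ≤
        (v.mult : ℝ) * Real.log (nrm v.1 F) + 2 * (r * Real.log (r + 1)) := by
    intro v
    obtain ⟨u, hu⟩ := ab_nonempty E (Sum.inl v : Pl K)
    rw [← hu_sum hx (mem_ab.1 hu)]
    have := nrm_lower hx hr (mem_ab.1 hu)
    have e : wt (Sum.inl v : Pl K) * Real.log (nrm (av (Sum.inl v : Pl K)) F) =
      (v.mult : ℝ) * Real.log (nrm v.1 F) := rfl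
    rw [e] at this
    linarith
  have hvf : ∀ v : HeightOneSpectrum (𝓞 K),
      ∑ w ∈ ab L (Sum.inr v : Pl K), wt w * Real.log (max 1 (av w x)) ≤
        Real.log (nrm (fv v) F) := by
    intro v
    obtain ⟨u, hu⟩ := ab_nonempty E (Sum.inr v : Pl K)
    rw [← hu_sum hx (mem_ab.1 hu)]
    exact nrm_lower_fin hx hr (mem_ab.1 hu)
  have h3 : ∀ G : Pl K → ℝ, ∑ v ∈ T, G v = ∑ v, G (Sum.inl v) + ∑ v ∈ T.toRight, G (Sum.inr v) := by
    intro G
    conv_lhs => rw [← toLeft_disjSum_toRight (u := T), sum_disjSum, h2]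
  rw [← hT0 T (by intro v hv; exact mem_union_left _ hv), h3, h1]
  refine (add_le_add (sum_le_sum fun v _ => hvi v) (sum_le_sum fun v _ => hvf v)).trans ?_
  rw [sum_add_distrib]
  linarith

end Pool.Agent.H430.Gw
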