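import Pool.Agent.H430.Gw.Cnt

/-!
Bases of a subspace which are adapted to a flag, and the comparison of weights.
-/

set_option autoImplicit false

namespace Pool.Agent.H430.Gw

open Finset Module

section

variable {k V : Type} [Field k] [AddCommGroup V] [Module k V] [FiniteDimensional k V]

open Classical in
/-- a basis of a subspace, adapted to a flag -/
theorem adapt (U : Submodule k V) (S : ℕ → Submodule k V) (hS : Monotone S) (h0 : S 0 = ⊥) :
    ∀ M : ℕ, ∃ b : Finset V, LinearIndepOn k id (b : Set V) ∧ (∀ φ ∈ b, φ ∈ U) ∧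
      (∀ φ ∈ b, φ ∈ S M) ∧
      ∀ j ≤ M, (b.filter fun φ => φ ∈ S j).card = finrank k (S j ⊓ U : Submodule k V) := by
  intro M
  induction M with
  | zero =>
    refine ⟨∅, by simp, by simp, by simp, fun j hj => ?_⟩
    rw [Nat.le_zero.1 hj, h0, bot_inf_eq, finrank_bot]
    simp
  | succ M ih =>
    obtain ⟨b, hb1, hb2, hb3, hb4⟩ := ih
    have hbS : (b : Set V) ⊆ ((S (M + 1) ⊓ U : Submodule k V) : Set V) := fun φ hφ =>
      ⟨hS (Nat.le_succ M) (hb3 φ hφ), hb2 φ hφ⟩
    obtain ⟨c, hc1, hc2, hc3, hc4⟩ := exists_linearIndepOn_id_extension hb1 hbS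
    have hcf : c.Finite := LinearIndependent.setFinite (R := k) hc4.linearIndependent
    have hspan : Submodule.span k (b : Set V) = S M ⊓ U := by
      apply Submodule.eq_of_le_of_finrank_eq
      · rw [Submodule.span_le]
        exact fun φ hφ => ⟨hb3 φ hφ, hb2 φ hφ⟩
      · rw [finrank_span_finset_eq_card hb1, ← hb4 M le_rfl, filter_true_of_mem hb3]
    refine ⟨hcf.toFinset, by rw [hcf.coe_toFinset]; exact hc4, fun φ hφ => ?_, fun φ hφ => ?_,
      fun j hj => ?_⟩
    · exact (hc1 (hcf.mem_toFinset.1 hφ)).2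
    · exact (hc1 (hcf.mem_toFinset.1 hφ)).1
    · rcases Nat.lt_or_ge M j with h | h
      · have hj' : j = M + 1 := by omega
        subst hj'
        have h2 : (hcf.toFinset.filter fun φ => φ ∈ S (M + 1)) = hcf.toFinset :=
          filter_true_of_mem fun φ hφ => (hc1 (hcf.mem_toFinset.1 hφ)).1
        rw [h2]
        have h1 : Submodule.span k (hcf.toFinset : Set V) = S (M + 1) ⊓ U := by
          rw [hcf.coe_toFinset]
          exact le_antisymm (Submodule.span_le.2 hc1) hc3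
        rw [← h1, finrank_span_finset_eq_card (by rw [hcf.coe_toFinset]; exact hc4)]
      · rw [← hb4 j h]
        congr 1
        ext φ
        rw [mem_filter, mem_filter, hcf.mem_toFinset]
        refine ⟨fun hφ => ⟨?_, hφ.2⟩, fun hφ => ⟨hc2 hφ.1, hφ.2⟩⟩
        by_contra hnb
        have h1 : φ ∈ S M ⊓ U := ⟨hS h hφ.2, (hc1 hφ.1).2⟩
        rw [← hspan] at h1
        have h2 : LinearIndepOn k id (insert φ (b : Set V)) :=
          hc4.mono (Set.insert_subset hφ.1 hc2)
        exact ((linearIndepOn_id_insert (by simpa using hnb)).1 h2).2 h1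

end

lemma abel (τ : ℕ → ℝ) (hτ : Antitone τ) (hτ0 : ∀ j, 0 ≤ τ j) (g : ℕ → ℝ) (hg0 : g 0 = 0) (R : ℕ)
    (hg : ∀ j ≤ R, 0 ≤ g j) (hR : ∀ j, R ≤ j → τ j = 0) (M : ℕ) :
    0 ≤ ∑ j ∈ range M, τ j * (g (j + 1) - g j) := by
  have h1 : ∀ m ≤ R, τ m * g m ≤ ∑ j ∈ range m, τ j * (g (j + 1) - g j) := by
    intro m
    induction m with
    | zero =>
      intro _
      rw [hg0, mul_zero, range_zero, sum_empty]
    | succ m ih =>
      intro hm
      rw [sum_range_succ]
      have h2 := ih (by omega)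
      have h3 := mul_le_mul_of_nonneg_right (hτ (Nat.le_succ m)) (hg (m + 1) hm)
      have h4 : τ m * (g (m + 1) - g m) = τ m * g (m + 1) - τ m * g m := by ring
      simp only [Nat.succ_eq_add_one] at h3
      linarith
  rcases Nat.le_total M R with h | h
  · exact (mul_nonneg (hτ0 M) (hg M h)).trans (h1 M h)
  · have h2 : ∑ j ∈ range M, τ j * (g (j + 1) - g j) =
        ∑ j ∈ range R, τ j * (g (j + 1) - g j) := by
      refine (sum_subset (range_subset_range.2 h) fun j _ hj => ?_).symm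
      rw [mem_range, not_lt] at hj
      rw [hR j hj, zero_mul]
    rw [h2]
    exact (mul_nonneg (hτ0 R) (hg R le_rfl)).trans (h1 R le_rfl)

section

variable {k V : Type} [Field k] [AddCommGroup V] [Module k V]

open Classical in
lemma level (S : ℕ → Submodule k V) (hS : Monotone S) (τ : ℕ → ℝ) (φ : V) (h0 : φ ∉ S 0) :
    ∀ M, φ ∈ S M → ∃ j < M, φ ∈ S (j + 1) ∧ φ ∉ S j ∧
      ∑ i ∈ range M, τ i * ((if φ ∈ S (i + 1) then 1 else 0) - (if φ ∈ S i then 1 else 0)) =
        τ j := by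
  intro M
  induction M with
  | zero => exact fun h => absurd h h0
  | succ M ih =>
    intro hM
    by_cases h : φ ∈ S M
    · obtain ⟨j, hj, h1, h2, h3⟩ := ih h
      refine ⟨j, by omega, h1, h2, ?_⟩
      rw [sum_range_succ, h3, if_pos hM, if_pos h, sub_self, mul_zero, add_zero]
    · refine ⟨M, by omega, hM, h, ?_⟩
      rw [sum_range_succ, if_pos hM, if_neg h, sub_zero, mul_one]
      rw [sum_eq_zero, zero_add]
      intro i hi
      rw [mem_range] at hi
      rw [if_neg (fun h' => h (hS (by omega) h')), if_neg (fun h' => h (hS (by omega) h')),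
        sub_self, mul_zero]

open Classical in
/-- the comparison at one place -/
theorem lp {ι : Type} [Fintype ι] (U : ι → Submodule k V) (y : ι → ℝ) (hy : ∀ l, 0 ≤ y l)
    (S : ℕ → Submodule k V) (hS : Monotone S) (h0 : S 0 = ⊥) (M : ℕ) (b : ι → Finset V)
    (hb0 : ∀ l, ∀ φ ∈ b l, φ ≠ 0) (hbM : ∀ l, ∀ φ ∈ b l, φ ∈ S M)
    (hb : ∀ l, ∀ j ≤ M, ((b l).filter fun φ => φ ∈ S j).card =
      finrank k (S j ⊓ U l : Submodule k V))
    (τ : ℕ → ℝ) (hτ : Antitone τ) (hτ0 : ∀ j, 0 ≤ τ j) (R : ℕ) (hRM : R ≤ M)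
    (hR : ∀ j, R ≤ j → τ j = 0)
    (hf : ∀ j ≤ R, (j : ℝ) ≤ ∑ l, y l * finrank k (S j ⊓ U l : Submodule k V)) (val : V → ℝ)
    (hval : ∀ l, ∀ φ ∈ b l, ∀ j < M, φ ∈ S (j + 1) → φ ∉ S j → τ j ≤ val φ) :
    ∑ j ∈ range M, τ j ≤ ∑ l, y l * ∑ φ ∈ b l, val φ := by
  set D : ι → ℕ → ℝ := fun l j => (((b l).filter fun φ => φ ∈ S j).card : ℝ) with hD
  have hD0 : ∀ l, D l 0 = 0 := by
    intro l
    simp only [hD]
    rw [filter_false_of_mem, card_empty, Nat.cast_zero]
    intro φ hφ h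
    rw [h0] at h
    exact hb0 l φ hφ ((Submodule.mem_bot k).1 h)
  have h1 := abel τ hτ hτ0 (fun j => ∑ l, y l * D l j - j) (by simp [hD0]) R (by
    intro j hj
    have h2 := hf j hj
    have h3 : ∑ l, y l * D l j = ∑ l, y l * finrank k (S j ⊓ U l : Submodule k V) :=
      sum_congr rfl fun l _ => by
        simp only [hD]
        rw [hb l j (hj.trans hRM)]
    show 0 ≤ ∑ l, y l * D l j - j
    rw [h3]
    linarith) hR M
  have h2 : ∑ j ∈ range M, τ j * ((∑ l, y l * D l (j + 1) - ((j + 1 : ℕ) : ℝ)) -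
      (∑ l, y l * D l j - j)) = ∑ l, y l * (∑ j ∈ range M, τ j * (D l (j + 1) - D l j)) -
        ∑ j ∈ range M, τ j := by
    have h3 : ∀ j, τ j * ((∑ l, y l * D l (j + 1) - ((j + 1 : ℕ) : ℝ)) -
        (∑ l, y l * D l j - j)) = ∑ l, y l * (τ j * (D l (j + 1) - D l j)) - τ j := by
      intro j
      have h4 : ∑ l, y l * (τ j * (D l (j + 1) - D l j)) =
          τ j * (∑ l, y l * D l (j + 1)) - τ j * ∑ l, y l * D l j := by
        rw [mul_sum, mul_sum, ← sum_sub_distrib]
        exact sum_congr rfl fun l _ => by ring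
      rw [h4]
      push_cast
      ring
    rw [sum_congr rfl fun j _ => h3 j, sum_sub_distrib, sum_comm]
    congr 1
    exact sum_congr rfl fun l _ => by rw [mul_sum]
  rw [h2] at h1
  have h3 : ∀ l, ∑ j ∈ range M, τ j * (D l (j + 1) - D l j) ≤ ∑ φ ∈ b l, val φ := by
    intro l
    have h4 : ∀ j, D l j = ∑ φ ∈ b l, if φ ∈ S j then (1 : ℝ) else 0 := by
      intro j
      simp only [hD]
      rw [card_filter]
      push_cast
      rfl
    have h5 : ∑ j ∈ range M, τ j * (D l (j + 1) - D l j) = ∑ φ ∈ b l, ∑ j ∈ range M,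
        τ j * ((if φ ∈ S (j + 1) then 1 else 0) - (if φ ∈ S j then 1 else 0)) := by
      rw [sum_comm]
      refine sum_congr rfl fun j _ => ?_
      rw [h4, h4, ← sum_sub_distrib, mul_sum]
    rw [h5]
    refine sum_le_sum fun φ hφ => ?_
    obtain ⟨j, hj, hj1, hj2, hj3⟩ := level S hS τ φ (by
      rw [h0]
      exact fun h => hb0 l φ hφ ((Submodule.mem_bot k).1 h)) M (hbM l φ hφ)
    rw [hj3]
    exact hval l φ hφ j hj hj1 hj2
  have h4 := sum_le_sum fun l (_ : l ∈ univ) => mul_le_mul_of_nonneg_left (h3 l) (hy l)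
  linarith

end

/-- an ordering of the pairs in which `τ` decreases and which is compatible with the second
coordinate -/
lemma ordering {q r : ℕ} (τ : Fin q × Fin (r + 1) → ℝ)
    (hτ : ∀ i, ∀ j j' : Fin (r + 1), j ≤ j' → τ (i, j') ≤ τ (i, j)) :
    ∃ σ : Fin (q * (r + 1)) ≃ Fin q × Fin (r + 1),
      (∀ a b, a ≤ b → τ (σ b) ≤ τ (σ a)) ∧
      ∀ i, ∀ j j' : Fin (r + 1), j ≤ j' → σ.symm (i, j) ≤ σ.symm (i, j') := by
  classical
  set e0 : Fin (q * (r + 1)) ≃ Fin q × Fin (r + 1) := finProdFinEquiv.symm with he0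
  set f : Fin (q * (r + 1)) → ℝᵒᵈ ×ₗ Fin (r + 1) := fun a =>
    toLex (OrderDual.toDual (τ (e0 a)), (e0 a).2) with hf
  have hm := Tuple.monotone_sort f
  set σ : Fin (q * (r + 1)) ≃ Fin q × Fin (r + 1) := (Tuple.sort f).trans e0 with hσ
  have hm' : ∀ a b, a ≤ b → (toLex (OrderDual.toDual (τ (σ a)), (σ a).2) : ℝᵒᵈ ×ₗ Fin (r + 1)) ≤
      toLex (OrderDual.toDual (τ (σ b)), (σ b).2) := fun a b h => hm h
  refine ⟨σ, fun a b h => ?_, fun i j j' h => ?_⟩
  · have h1 := hm' a b h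
    rw [Prod.Lex.toLex_le_toLex] at h1
    rcases h1 with h1 | h1
    · exact (OrderDual.toDual_lt_toDual.1 h1).le
    · exact (OrderDual.toDual_inj.1 h1.1).ge
  · rcases h.eq_or_lt with h' | h'
    · rw [h']
    by_contra hlt
    push Not at hlt
    have h1 := hm' _ _ hlt.le
    rw [Equiv.apply_symm_apply, Equiv.apply_symm_apply, Prod.Lex.toLex_le_toLex] at h1
    rcases h1 with h1 | h1
    · have h2 := OrderDual.toDual_lt_toDual.1 h1
      exact absurd (hτ i j j' h) (not_le.2 h2)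
    · exact absurd h1.2 (not_le.2 h')

end Pool.Agent.H430.Gw
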