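import Pool.Agent.H430.Gw.HN

/-!
The number of the conditions in a subspace, and its majorant.
-/

set_option autoImplicit false

namespace Pool.Agent.H430.Gw

open Finset Module

section

variable {k V : Type} [Field k] [AddCommGroup V] [Module k V] {q r : ℕ}

/-- the jets which are in `U` -/
noncomputable def jt (ψ : Fin q × Fin (r + 1) → V) (U : Submodule k V) :
    Finset (Fin q × Fin (r + 1)) :=
  open Classical in univ.filter fun t => ∀ j ≤ t.2, ψ (t.1, j) ∈ U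

lemma mem_jt {ψ : Fin q × Fin (r + 1) → V} {U : Submodule k V} {t : Fin q × Fin (r + 1)} :
    t ∈ jt ψ U ↔ ∀ j ≤ t.2, ψ (t.1, j) ∈ U := by
  classical
  unfold jt
  rw [mem_filter]
  exact ⟨fun h => h.2, fun h => ⟨mem_univ _, h⟩⟩

lemma jt_sup (ψ : Fin q × Fin (r + 1) → V) (A B : Submodule k V) :
    (jt ψ A).card + (jt ψ B).card ≤ (jt ψ (A ⊔ B)).card + (jt ψ (A ⊓ B)).card := by
  classical
  rw [← card_union_add_card_inter]
  refine add_le_add (card_le_card ?_) (card_le_card ?_)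
  · refine union_subset (fun t ht => mem_jt.2 fun j hj => ?_) fun t ht => mem_jt.2 fun j hj => ?_
    · exact Submodule.mem_sup_left (mem_jt.1 ht j hj)
    · exact Submodule.mem_sup_right (mem_jt.1 ht j hj)
  · intro t ht
    rw [mem_inter, mem_jt, mem_jt] at ht
    exact mem_jt.2 fun j hj => ⟨ht.1 j hj, ht.2 j hj⟩

/-- the excess -/
noncomputable def ex (ψ : Fin q × Fin (r + 1) → V) (A : Submodule k V) : ℕ :=
  sSup {n | ∃ B ≤ A, n + finrank k B ≤ (jt ψ B).card}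

end

section

variable {k V : Type} [Field k] [AddCommGroup V] [Module k V] [FiniteDimensional k V] {q r : ℕ}
  (ψ : Fin q × Fin (r + 1) → V) (E : ℕ) (h0 : ∀ i, ψ (i, 0) ≠ 0)
  (hE : ∀ U : Submodule k V, U ≠ ⊤ → (jt ψ U).card ≤ finrank k U + E)

include h0 in
lemma jt_bot : (jt ψ (⊥ : Submodule k V)).card = 0 := by
  rw [card_eq_zero, eq_empty_iff_forall_notMem]
  intro t ht
  exact h0 t.1 ((Submodule.mem_bot k).1 (mem_jt.1 ht 0 (Fin.zero_le _)))

include hE in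
lemma ex_bdd {A : Submodule k V} (hA : A ≠ ⊤) :
    BddAbove {n | ∃ B ≤ A, n + finrank k B ≤ (jt ψ B).card} := by
  refine ⟨E, ?_⟩
  rintro n ⟨B, hB, hn⟩
  have hB' : B ≠ ⊤ := fun h => hA (top_le_iff.1 (h ▸ hB))
  have := hE B hB'
  omega

lemma ex_ne (A : Submodule k V) : {n | ∃ B ≤ A, n + finrank k B ≤ (jt ψ B).card}.Nonempty := by
  refine ⟨0, ⊥, bot_le, ?_⟩
  rw [finrank_bot]
  exact Nat.zero_le _

include hE in
lemma ex_mem {A : Submodule k V} (hA : A ≠ ⊤) :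
    ∃ B ≤ A, ex ψ A + finrank k B ≤ (jt ψ B).card :=
  Nat.sSup_mem (ex_ne ψ A) (ex_bdd ψ E hE hA)

include hE in
lemma le_ex {A B : Submodule k V} (hA : A ≠ ⊤) (hB : B ≤ A) :
    (jt ψ B).card ≤ finrank k B + ex ψ A := by
  by_cases h : finrank k B ≤ (jt ψ B).card
  · have h1 : (jt ψ B).card - finrank k B ≤ ex ψ A :=
      le_csSup (ex_bdd ψ E hE hA) ⟨B, hB, by omega⟩
    omega
  · omega

include hE in
lemma ex_le {A : Submodule k V} (hA : A ≠ ⊤) : ex ψ A ≤ E := by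
  refine csSup_le' ?_
  rintro n ⟨B, hB, hn⟩
  have hB' : B ≠ ⊤ := fun h => hA (top_le_iff.1 (h ▸ hB))
  have := hE B hB'
  omega

/-- the majorant -/
noncomputable def fn (A : Submodule k V) : ℕ :=
  open Classical in if A = ⊤ then finrank k V + 2 * E else finrank k A + ex ψ A

lemma fn_top : fn ψ E (⊤ : Submodule k V) = finrank k V + 2 * E := by
  unfold fn
  rw [if_pos rfl]

lemma fn_ne {A : Submodule k V} (hA : A ≠ ⊤) : fn ψ E A = finrank k A + ex ψ A := by
  unfold fn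
  rw [if_neg hA]

include hE in
lemma ex_mono {A B : Submodule k V} (hB : B ≠ ⊤) (h : A ≤ B) : ex ψ A ≤ ex ψ B := by
  refine csSup_le' ?_
  rintro n ⟨C, hC, hn⟩
  exact le_csSup (ex_bdd ψ E hE hB) ⟨C, hC.trans h, hn⟩

include hE in
lemma fn_mono : Monotone (fn ψ E (k := k) (V := V)) := by
  intro A B h
  by_cases hB : B = ⊤
  · subst hB
    rw [fn_top]
    by_cases hA : A = ⊤
    · rw [hA, fn_top]
    · rw [fn_ne ψ E hA]
      have h1 := ex_le ψ E hE hA
      have h2 := Submodule.finrank_le A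
      omega
  · have hA : A ≠ ⊤ := fun h' => hB (top_le_iff.1 (h' ▸ h))
    rw [fn_ne ψ E hA, fn_ne ψ E hB]
    exact add_le_add (Submodule.finrank_mono h) (ex_mono ψ E hE hB h)

include hE in
lemma fn_sup (A B : Submodule k V) :
    fn ψ E A + fn ψ E B ≤ fn ψ E (A ⊔ B) + fn ψ E (A ⊓ B) := by
  by_cases hA : A = ⊤
  · subst hA
    rw [top_sup_eq, top_inf_eq]
  by_cases hB : B = ⊤
  · subst hB
    rw [sup_top_eq, inf_top_eq, add_comm]
  have hAB : A ⊓ B ≠ ⊤ := fun h => hA (top_le_iff.1 (h ▸ inf_le_left))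
  have hdim := Submodule.finrank_sup_add_finrank_inf_eq A B
  rw [fn_ne ψ E hA, fn_ne ψ E hB, fn_ne ψ E hAB]
  by_cases hs : A ⊔ B = ⊤
  · rw [hs, fn_top]
    have h1 := ex_le ψ E hE hA
    have h2 := ex_le ψ E hE hB
    rw [hs, finrank_top] at hdim
    omega
  · rw [fn_ne ψ E hs]
    obtain ⟨A', hA', h1⟩ := ex_mem ψ E hE hA
    obtain ⟨B', hB', h2⟩ := ex_mem ψ E hE hB
    have h3 := jt_sup ψ A' B'
    have h4 := le_ex ψ E hE hs (sup_le_sup hA' hB')
    have h5 := le_ex ψ E hE hAB (inf_le_inf hA' hB')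
    have h6 := Submodule.finrank_sup_add_finrank_inf_eq A' B'
    omega

include h0 hE in
/-- the weights -/
theorem cnt (hV : (⊥ : Submodule k V) ≠ ⊤) :
    ∃ (ι : Type) (_ : Fintype ι) (U : ι → Submodule k V) (y : ι → ℝ), (∀ l, 0 ≤ y l) ∧
      (∀ A : Submodule k V, A ≠ ⊤ →
        ((jt ψ A).card : ℝ) ≤ ∑ l, y l * finrank k (A ⊓ U l : Submodule k V)) ∧
      ∑ l, y l * finrank k (U l) = finrank k V + 2 * E := by
  obtain ⟨ι, hι, U, y, hy0, h1, h2⟩ := hn (k := k) (V := V) (fun A => (fn ψ E A : ℝ)) (by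
      refine ((Set.finite_Iic (finrank k V + 2 * E)).image fun n : ℕ => (n : ℝ)).subset ?_
      rintro _ ⟨A, rfl⟩
      refine ⟨fn ψ E A, ?_, rfl⟩
      rw [Set.mem_Iic, ← fn_top ψ E]
      exact fn_mono ψ E hE le_top) (fun A B h => Nat.cast_le.2 (fn_mono ψ E hE h))
    (fun A B => by
      have := fn_sup ψ E hE A B
      show (fn ψ E A : ℝ) + fn ψ E B ≤ fn ψ E (A ⊔ B) + fn ψ E (A ⊓ B)
      exact_mod_cast this) (by
      have h1 : fn ψ E (⊥ : Submodule k V) = 0 := by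
        rw [fn_ne ψ E hV, finrank_bot, zero_add]
        obtain ⟨B, hB, h2⟩ := ex_mem ψ E hE hV
        rw [le_bot_iff.1 hB, jt_bot ψ h0] at h2
        omega
      simp only [h1, Nat.cast_zero])
  refine ⟨ι, hι, U, y, hy0, fun A hA => ?_, ?_⟩
  · refine le_trans ?_ (h1 A)
    have h3 : (jt ψ A).card ≤ fn ψ E A := by
      rw [fn_ne ψ E hA]
      exact le_ex ψ E hE hA le_rfl
    exact_mod_cast h3
  · rw [← h2]
    rw [fn_top]
    push_cast
    ring

end

end Pool.Agent.H430.Gw
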