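import Mathlib

/-!
The filtration of Harder and Narasimhan for supermodular functions on the lattice of subspaces.
-/

set_option autoImplicit false

namespace Pool.Agent.H430.Gw

open Finset Module

lemma finrank_modular {k V : Type} [Field k] [AddCommGroup V] [Module k V]
    [FiniteDimensional k V] (A B U : Submodule k V) (h : B ≤ U) :
    (finrank k ((A ⊔ B) ⊓ U : Submodule k V) : ℝ) =
      finrank k (A ⊓ U : Submodule k V) + finrank k B - finrank k (A ⊓ B : Submodule k V) := by
  have h1 : (A ⊔ B) ⊓ U = B ⊔ (A ⊓ U) := by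
    rw [sup_comm A B, sup_inf_assoc_of_le A h]
  have h2 := Submodule.finrank_sup_add_finrank_inf_eq B (A ⊓ U)
  have h3 : B ⊓ (A ⊓ U) = A ⊓ B := by
    apply le_antisymm
    · exact le_inf (inf_le_right.trans inf_le_left) inf_le_left
    · exact le_inf inf_le_right (le_inf inf_le_left (inf_le_right.trans h))
  rw [h1]
  rw [h3] at h2
  have h4 : (finrank k (B ⊔ A ⊓ U : Submodule k V) : ℝ) + finrank k (A ⊓ B : Submodule k V) =
      finrank k B + finrank k (A ⊓ U : Submodule k V) := by exact_mod_cast h2
  linarith

/-- the filtration of Harder and Narasimhan above a subspace -/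
theorem hn_aux {k V : Type} [Field k] [AddCommGroup V] [Module k V] [FiniteDimensional k V]
    (F : Submodule k V → ℝ) (hfin : (Set.range F).Finite) (hmono : Monotone F)
    (hsup : ∀ A B, F A + F B ≤ F (A ⊔ B) + F (A ⊓ B)) :
    ∀ (n : ℕ) (B : Submodule k V), finrank k V ≤ finrank k B + n → ∀ s : ℝ, 0 ≤ s →
      (∀ A, B ≤ A → F A - F B ≤ s * (finrank k A - finrank k B)) →
      ∃ (ι : Type) (_ : Fintype ι) (U : ι → Submodule k V) (y : ι → ℝ), (∀ l, 0 ≤ y l) ∧
        (∀ l, B ≤ U l) ∧ ∑ l, y l ≤ s ∧
        (∀ A, B ≤ A → F A - F B ≤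
          ∑ l, y l * (finrank k (A ⊓ U l : Submodule k V) - finrank k B)) ∧
        F ⊤ - F B = ∑ l, y l * (finrank k (U l) - finrank k B) := by
  classical
  intro n
  induction n with
  | zero =>
    intro B hB s hs _
    have hBt : B = ⊤ := by
      apply Submodule.eq_top_of_finrank_eq
      have := Submodule.finrank_le B
      omega
    subst hBt
    refine ⟨Empty, inferInstance, fun l => l.elim, fun l => l.elim, fun l => l.elim,
      fun l => l.elim, by simpa using hs, fun A hA => ?_, by simp⟩
    rw [top_le_iff.1 hA]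
    simp
  | succ n ih =>
    intro B hB s hs hslope
    rcases eq_or_ne B ⊤ with hBt | hBt
    · subst hBt
      refine ⟨Empty, inferInstance, fun l => l.elim, fun l => l.elim, fun l => l.elim,
        fun l => l.elim, by simpa using hs, fun A hA => ?_, by simp⟩
      rw [top_le_iff.1 hA]
      simp
    -- the largest slope
    set sl : Submodule k V → ℝ := fun A => (F A - F B) / (finrank k A - finrank k B) with hsl
    have hTfin : (sl '' {A | B < A}).Finite := by
      have h1 : (Set.range fun A : Submodule k V => (F A, finrank k A)).Finite := by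
        refine (hfin.prod (Set.finite_Iic (finrank k V))).subset ?_
        rintro _ ⟨A, rfl⟩
        exact ⟨⟨A, rfl⟩, Submodule.finrank_le A⟩
      refine (h1.image fun p : ℝ × ℕ => (p.1 - F B) / (p.2 - finrank k B)).subset ?_
      rintro _ ⟨A, _, rfl⟩
      exact ⟨(F A, finrank k A), ⟨A, rfl⟩, rfl⟩
    have hTne : (sl '' {A | B < A}).Nonempty := ⟨sl ⊤, ⊤, lt_top_iff_ne_top.2 hBt, rfl⟩
    obtain ⟨_, ⟨B1, hB1, rfl⟩, hmax⟩ := Set.exists_max_image _ id hTfin hTne
    have hB1' : B < B1 := hB1
    have hdim : finrank k B < finrank k B1 := Submodule.finrank_lt_finrank_of_lt hB1'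
    have hdimR : (0 : ℝ) < finrank k B1 - finrank k B := by
      have : (finrank k B : ℝ) < finrank k B1 := by exact_mod_cast hdim
      linarith
    set s1 : ℝ := sl B1 with hs1
    have hs1e : F B1 - F B = s1 * (finrank k B1 - finrank k B) := by
      rw [hs1]
      simp only [hsl]
      rw [div_mul_cancel₀ _ hdimR.ne']
    have hs10 : 0 ≤ s1 := div_nonneg (sub_nonneg.2 (hmono hB1'.le)) hdimR.le
    have hs1s : s1 ≤ s := by
      have h1 := hslope B1 hB1'.le
      rw [hs1e] at h1
      exact le_of_mul_le_mul_right h1 hdimR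
    have hle : ∀ A, B ≤ A → F A - F B ≤ s1 * (finrank k A - finrank k B) := by
      intro A hA
      rcases hA.eq_or_lt with h | h
      · rw [h]
        simp
      · have h1 : sl A ≤ s1 := hmax _ ⟨A, h, rfl⟩
        have h2 : (0 : ℝ) < finrank k A - finrank k B := by
          have : (finrank k B : ℝ) < finrank k A := by
            exact_mod_cast Submodule.finrank_lt_finrank_of_lt h
          linarith
        exact (div_le_iff₀ h2).1 h1
    obtain ⟨ι, _, U, y, hy0, hU, hys, hmain, htop⟩ := ih B1 (by omega) s1 hs10 (by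
      intro A hA
      have h1 := hle A (hB1'.le.trans hA)
      linarith)
    refine ⟨Option ι, inferInstance, fun l => l.elim B1 U, fun l => l.elim (s1 - ∑ l, y l) y,
      ?_, ?_, ?_, ?_, ?_⟩
    · rintro (_ | l)
      · exact sub_nonneg.2 hys
      · exact hy0 l
    · rintro (_ | l)
      · exact hB1'.le
      · exact hB1'.le.trans (hU l)
    · rw [Fintype.sum_option]
      simp only [Option.elim]
      linarith
    · intro A hA
      rw [Fintype.sum_option]
      show F A - F B ≤ (s1 - ∑ l, y l) * ((finrank k (A ⊓ B1 : Submodule k V) : ℝ) - finrank k B) +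
        ∑ l, y l * ((finrank k (A ⊓ U l : Submodule k V) : ℝ) - finrank k B)
      have h1 := hsup A B1
      have h2 := hmain (A ⊔ B1) le_sup_right
      have h3 := hle (A ⊓ B1) (le_inf hA hB1'.le)
      have h4 : ∑ l, y l * ((finrank k ((A ⊔ B1) ⊓ U l : Submodule k V) : ℝ) - finrank k B1) =
          ∑ l, y l * (finrank k (A ⊓ U l : Submodule k V) - finrank k B) -
            (∑ l, y l) * (finrank k (A ⊓ B1 : Submodule k V) - finrank k B) := by
        rw [sum_mul, ← sum_sub_distrib]
        refine sum_congr rfl fun l _ => ?_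
        rw [finrank_modular A B1 (U l) (hU l)]
        ring
      rw [h4] at h2
      rw [sub_mul]
      linarith
    · rw [Fintype.sum_option]
      show F ⊤ - F B = (s1 - ∑ l, y l) * ((finrank k B1 : ℝ) - finrank k B) +
        ∑ l, y l * ((finrank k (U l) : ℝ) - finrank k B)
      have h4 : ∑ l, y l * ((finrank k (U l) : ℝ) - finrank k B1) =
          ∑ l, y l * (finrank k (U l) - finrank k B) -
            (∑ l, y l) * (finrank k B1 - finrank k B) := by
        rw [sum_mul, ← sum_sub_distrib]
        exact sum_congr rfl fun l _ => by ring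
      rw [h4] at htop
      rw [sub_mul]
      linarith

/-- a supermodular function on the subspaces is dominated by a function
`∑ l, y l * dim (A ⊓ U l)` with the same value at the whole space -/
theorem hn {k V : Type} [Field k] [AddCommGroup V] [Module k V] [FiniteDimensional k V]
    (F : Submodule k V → ℝ) (hfin : (Set.range F).Finite) (hmono : Monotone F)
    (hsup : ∀ A B, F A + F B ≤ F (A ⊔ B) + F (A ⊓ B)) (h0 : F ⊥ = 0) :
    ∃ (ι : Type) (_ : Fintype ι) (U : ι → Submodule k V) (y : ι → ℝ), (∀ l, 0 ≤ y l) ∧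
      (∀ A, F A ≤ ∑ l, y l * finrank k (A ⊓ U l : Submodule k V)) ∧
      F ⊤ = ∑ l, y l * finrank k (U l) := by
  have hF0 : ∀ A, 0 ≤ F A := fun A => h0 ▸ hmono bot_le
  obtain ⟨ι, hι, U, y, hy0, _, _, h1, h2⟩ := hn_aux F hfin hmono hsup (finrank k V) ⊥
    (by omega) (F ⊤) (hF0 _) (by
      intro A _
      rw [h0, finrank_bot, Nat.cast_zero, sub_zero, sub_zero]
      rcases eq_or_ne A ⊥ with h | h
      · rw [h, h0, finrank_bot, Nat.cast_zero, mul_zero]
      · have h1 : (1 : ℝ) ≤ finrank k A := by
          have : 0 < finrank k A := by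
            rw [Nat.pos_iff_ne_zero]
            exact fun h' => h (Submodule.finrank_eq_zero.1 h')
          exact_mod_cast this
        exact (hmono le_top).trans (le_mul_of_one_le_right (hF0 _) h1))
  refine ⟨ι, hι, U, y, hy0, fun A => ?_, ?_⟩
  · have := h1 A bot_le
    rw [h0, finrank_bot, Nat.cast_zero, sub_zero] at this
    simpa using this
  · rw [h0, finrank_bot, Nat.cast_zero, sub_zero] at h2
    simpa using h2

end Pool.Agent.H430.Gw
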