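import Pool.Agent.H430.Gw.Adapt
import Pool.Agent.H430.Hf.Tay

/-!
The number of the jets in a proper subspace of the space of forms on a linear system.
-/

set_option autoImplicit false

namespace Pool.Agent.H430.Gw

open Finset Module
open Pool.Agent.H430.Hf (tf tf_indep)

lemma exists_le_sum {q : ℕ} (f : Fin q → ℕ) :
    ∀ n ≤ ∑ i, f i, ∃ g : Fin q → ℕ, (∀ i, g i ≤ f i) ∧ ∑ i, g i = n := by
  intro n
  induction n with
  | zero => exact fun _ => ⟨fun _ => 0, fun _ => Nat.zero_le _, by simp⟩
  | succ n ih =>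
    intro hn
    obtain ⟨g, hg, hgs⟩ := ih (by omega)
    obtain ⟨i, hi⟩ : ∃ i, g i < f i := by
      by_contra hc
      push Not at hc
      have := sum_le_sum fun i (_ : i ∈ univ) => hc i
      omega
    refine ⟨fun j => g j + if j = i then 1 else 0, fun j => ?_, ?_⟩
    · by_cases h : j = i
      · subst h
        simpa using hi
      · simpa [h] using hg j
    · rw [sum_add_distrib, hgs]
      simp

variable {K : Type} [Field K] {q r : ℕ}

/-- the functionals of the jets are independent if there are at most `r + 1` of them -/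
lemma tf_indep' (hq : 0 < q) (a : Fin q → K) (ha : Function.Injective a) (m : Fin q → ℕ)
    (hm : ∑ i, m i ≤ r + 1) :
    LinearIndependent K (fun s : (Σ i : Fin q, Fin (m i)) => tf r (a s.1) (s.2 : ℕ)) := by
  classical
  set i0 : Fin q := ⟨0, hq⟩ with hi0
  set m' : Fin q → ℕ := fun i => m i + if i = i0 then (r + 1 - ∑ i, m i) else 0 with hm'
  have hm's : ∑ i, m' i = r + 1 := by
    simp only [hm']
    rw [sum_add_distrib]
    simp only [sum_ite_eq', mem_univ, if_true]
    omega
  have hmm : ∀ i, m i ≤ m' i := fun i => Nat.le_add_right _ _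
  have hcardσ : Fintype.card (Σ i : Fin q, Fin (m' i)) = r + 1 := by
    rw [Fintype.card_sigma]
    simp only [Fintype.card_fin]
    exact hm's
  set eq : (Σ i : Fin q, Fin (m' i)) ≃ Fin (r + 1) := Fintype.equivFinOfCardEq hcardσ with heq
  have h1 := tf_indep a ha m' hm's (fun j => ((eq.symm j).1, ((eq.symm j).2 : ℕ)))
    (fun i k hk => ⟨eq ⟨i, ⟨k, hk⟩⟩, by rw [eq.symm_apply_apply]⟩)
  have h2 : (fun s : (Σ i : Fin q, Fin (m i)) => tf r (a s.1) (s.2 : ℕ)) =
      (fun j => tf r (a ((eq.symm j).1)) ((eq.symm j).2 : ℕ)) ∘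
        fun s : (Σ i : Fin q, Fin (m i)) => eq ⟨s.1, ⟨s.2, s.2.2.trans_le (hmm s.1)⟩⟩ := by
    funext s
    show _ = tf r (a ((eq.symm (eq ⟨s.1, ⟨s.2, s.2.2.trans_le (hmm s.1)⟩⟩)).1)) _
    rw [eq.symm_apply_apply]
  rw [h2]
  refine h1.comp _ ?_
  rintro ⟨i, k⟩ ⟨i', k'⟩ h
  have h3 := eq.injective h
  simp only [Sigma.mk.injEq] at h3
  obtain ⟨rfl, h4⟩ := h3
  have h5 := eq_of_heq h4
  simp only [Fin.mk.injEq] at h5
  rw [Fin.ext h5]

/-- the functional of a jet on the parameters of a linear system -/
noncomputable def jf {d : ℕ} (M : Fin (r + 1) → Fin d → K) (a : Fin q → K)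
    (t : Fin q × Fin (r + 1)) : Fin d → K := fun l => ∑ j, tf r (a t.1) (t.2 : ℕ) j * M j l

/-- the restriction of the functionals is surjective -/
lemma res_surj {d : ℕ} (M : Fin (r + 1) → Fin d → K)
    (hM : Function.Injective fun y : Fin d → K => fun j => ∑ l, M j l * y l) :
    Function.Surjective fun z : Fin (r + 1) → K => fun l => ∑ j, z j * M j l := by
  set Mx : Matrix (Fin (r + 1)) (Fin d) K := Matrix.of M with hMx
  have h1 : LinearMap.ker (Matrix.toLin' Mx) = ⊥ := by
    rw [LinearMap.ker_eq_bot]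
    intro y y' h
    exact hM h
  obtain ⟨g, hg⟩ := LinearMap.exists_leftInverse_of_injective (Matrix.toLin' Mx) h1
  have h2 : LinearMap.toMatrix' g * Mx = 1 := by
    have h3 := congrArg LinearMap.toMatrix' hg
    rw [LinearMap.toMatrix'_comp, LinearMap.toMatrix'_toLin', LinearMap.toMatrix'_id] at h3
    exact h3
  intro w
  refine ⟨Matrix.vecMul w (LinearMap.toMatrix' g), ?_⟩
  have h3 : Matrix.vecMul (Matrix.vecMul w (LinearMap.toMatrix' g)) Mx = w := by
    rw [Matrix.vecMul_vecMul, h2, Matrix.vecMul_one]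
  exact h3

/-- the number of the jets in a proper subspace -/
theorem jets (hq : 0 < q) (a : Fin q → K) (ha : Function.Injective a) {d : ℕ}
    (M : Fin (r + 1) → Fin d → K)
    (hM : Function.Injective fun y : Fin d → K => fun j => ∑ l, M j l * y l)
    (U : Submodule K (Fin d → K)) (hU : U ≠ ⊤) :
    (jt (jf M a) U).card ≤ finrank K U + (r + 1 - d) := by
  classical
  set ρ : (Fin (r + 1) → K) →ₗ[K] (Fin d → K) := Matrix.vecMulLinear (Matrix.of M) with hρ
  have hρa : ∀ z, ρ z = fun l => ∑ j, z j * M j l := fun z => rfl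
  have hsurj : Function.Surjective ρ := res_surj M hM
  set C : Submodule K (Fin (r + 1) → K) := LinearMap.ker (U.mkQ.comp ρ) with hC
  have hCf : finrank K C + d = (r + 1) + finrank K U := by
    have h1 := LinearMap.finrank_range_add_finrank_ker (U.mkQ.comp ρ)
    have h2 : LinearMap.range (U.mkQ.comp ρ) = ⊤ := by
      rw [LinearMap.range_eq_top, LinearMap.coe_comp]
      exact (Submodule.mkQ_surjective U).comp hsurj
    rw [h2, finrank_top] at h1
    have h3 := Submodule.finrank_quotient_add_finrank U
    rw [finrank_fintype_fun_eq_card, Fintype.card_fin] at h1 h3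
    have h4 : finrank K C = finrank K (LinearMap.ker (U.mkQ.comp ρ)) := by rw [hC]
    rw [h4]
    omega
  have hd : finrank K U < d := by
    have h1 := Submodule.finrank_lt hU
    simpa using h1
  have hdr : d ≤ r + 1 := by
    have h1 := LinearMap.finrank_le_finrank_of_injective (f := Matrix.toLin' (Matrix.of M))
      (fun y y' h => hM h)
    simpa using h1
  set J := jt (jf M a) U with hJ
  set m : Fin q → ℕ := fun i => (J.filter fun t => t.1 = i).card with hm
  have hms : ∑ i, m i = J.card :=
    (card_eq_sum_card_fiberwise (s := J) (f := fun t : Fin q × Fin (r + 1) => t.1) (t := univ)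
      fun _ _ => mem_univ _).symm
  -- the jets of order less than `m i` are in `U`
  have hmem : ∀ i, ∀ k : ℕ, k < m i → ρ (tf r (a i) k) ∈ U := by
    intro i k hk
    have h1 : ∃ t ∈ J.filter fun t => t.1 = i, k ≤ (t.2 : ℕ) := by
      by_contra hc
      push Not at hc
      have h2 : (J.filter fun t => t.1 = i).card ≤ (range k).card := by
        refine card_le_card_of_injOn (fun t => (t.2 : ℕ)) (fun t ht => ?_) ?_
        · exact mem_coe.2 (mem_range.2 (hc t ht))
        · intro t ht t' ht' h
          have e1 := (mem_filter.1 ht).2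
          have e2 := (mem_filter.1 ht').2
          exact Prod.ext (e1.trans e2.symm) (Fin.ext h)
      rw [card_range] at h2
      simp only [hm] at hk
      omega
    obtain ⟨t, ht, hkt⟩ := h1
    obtain ⟨ht1, ht2⟩ := mem_filter.1 ht
    have h2 := mem_jt.1 ht1 ⟨k, by have := t.2.2; omega⟩ (by rw [Fin.le_def]; exact hkt)
    rw [ht2] at h2
    exact h2
  obtain ⟨g, hg, hgs⟩ := exists_le_sum m (min J.card (r + 1)) (by rw [hms]; exact min_le_left _ _)
  have hind := tf_indep' hq a ha g (by rw [hgs]; exact min_le_right _ _)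
  have h1 : min J.card (r + 1) ≤ finrank K C := by
    have h2 : LinearIndependent K (fun s : (Σ i : Fin q, Fin (g i)) =>
        (⟨tf r (a s.1) (s.2 : ℕ), by
          rw [hC, LinearMap.mem_ker, LinearMap.comp_apply, Submodule.mkQ_apply,
            Submodule.Quotient.mk_eq_zero]
          exact hmem s.1 s.2 (s.2.2.trans_le (hg s.1))⟩ : C)) :=
      LinearIndependent.of_comp C.subtype hind
    have h3 := h2.fintype_card_le_finrank
    rw [Fintype.card_sigma] at h3
    simp only [Fintype.card_fin] at h3
    rwa [hgs] at h3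
  omega

end Pool.Agent.H430.Gw
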