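import Pool.Agent.H430.Gw.Place

/-!
The inequality for the points of a linear system, and the recursion over the linear systems.
-/

set_option autoImplicit false

namespace Pool.Agent.H430.Gw

open Finset NumberField IsDedekindDomain Height Module Polynomial
open Pool.Agent.W180.OP (Pl av wt fv nrm wt_nonneg le_nrm exists_nrm nrm_pos)
open Pool.Agent.NH28 (Ov nn ab mem_ab sum_nn one_le_nn nn_ext nn_nonneg exists_below ov_unique
  sum_split height_sum prod_formula fab mem_fab nrm_support ab_nonempty fv_sum_le)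
open Pool.Agent.H430.Cl
open Pool.Agent.H430.Hf

variable {K : Type} [Field K] [NumberField K] {q : ℕ}

lemma coeff_vec_ne {L : Type} [Field L] [NumberField L] [Algebra K L] {x : L} {r : ℕ}
    (hx : IntermediateField.adjoin K {x} = ⊤) (hr : finrank K L = r) :
    (fun j : Fin (r + 1) => (minpoly K x).coeff j) ≠ 0 := by
  intro h0
  have hdeg : (minpoly K x).natDegree = r := by rw [minpoly_natDegree hx, hr]
  have h1 : (minpoly K x).coeff r = 0 := congrFun h0 ⟨r, by omega⟩
  have h2 : (minpoly K x).coeff r = 1 := by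
    rw [← hdeg]
    exact (minpoly.monic (Algebra.IsIntegral.isIntegral x)).coeff_natDegree
  rw [h2] at h1
  exact one_ne_zero h1

/-- the points of one linear system -/
theorem core_W (hq : 0 < q) (a : Fin q → K) (ha : Function.Injective a) (r : ℕ)
    (W : Submodule K (Fin (r + 1) → K)) :
    ∃ Z : Finset (Submodule K (Fin (r + 1) → K)), (∀ W' ∈ Z, finrank K W' < finrank K W) ∧
      ∀ (S : Finset (Pl K)) (ε : ℝ), 0 < ε → ∃ C : ℝ, 0 ≤ C ∧
      ∀ (L E : Type) [Field L] [NumberField L] [Field E] [NumberField E]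
      [Algebra K L] [Algebra L E] [Algebra K E] [IsScalarTower K L E] [IsGalois K E] (x : L),
      IntermediateField.adjoin K {x} = ⊤ → finrank K L = r →
      (∀ i, x ≠ algebraMap K L (a i)) →
      (fun j : Fin (r + 1) => (minpoly K x).coeff j) ∈ W →
      (∀ W' ∈ Z, (fun j : Fin (r + 1) => (minpoly K x).coeff j) ∉ W') →
      ∀ u : Pl K → Pl E, (∀ v ∈ S, Ov v (u v)) →
        ∑ v ∈ S, ∑ i, (∑ y ∈ cj K (algebraMap L E x), prx v (u v) (a i) y +
          ∑ y ∈ cj K (algebraMap L E x), ∑ z ∈ cj K (algebraMap L E x),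
            min (prx v (u v) (a i) y) (prx v (u v) (a i) z)) ≤
        (2 * (finrank K W + 2 * ((r + 1 - finrank K W : ℕ) : ℝ)) + ε) * logHeight ![1, x] + C := by
  classical
  obtain ⟨d, hd⟩ : ∃ d, d = finrank K W := ⟨_, rfl⟩
  rcases Nat.eq_zero_or_pos d with hd0 | hdpos
  · refine ⟨∅, fun W' h => absurd h (notMem_empty _), fun S ε hε => ⟨0, le_rfl, ?_⟩⟩
    intro L E _ _ _ _ _ _ _ _ _ x hx hr _ hFW _ u _
    have h1 : W = ⊥ := Submodule.finrank_eq_zero.1 (hd.symm.trans hd0)
    rw [h1, Submodule.mem_bot] at hFW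
    exact absurd hFW (coeff_vec_ne hx hr)
  set w : Basis (Fin d) K W := finBasisOfFinrankEq K W hd.symm with hw
  set M : Fin (r + 1) → Fin d → K := fun j l => (w l : Fin (r + 1) → K) j with hM
  have hMy : ∀ y : Fin d → K, (fun j => ∑ l, M j l * y l) =
      ((∑ l, y l • w l : W) : Fin (r + 1) → K) := by
    intro y
    funext j
    simp only [hM, Submodule.coe_sum, Submodule.coe_smul, Finset.sum_apply, Pi.smul_apply,
      smul_eq_mul]
    exact sum_congr rfl fun l _ => mul_comm _ _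
  have hMinj : Function.Injective fun y : Fin d → K => fun j => ∑ l, M j l * y l := by
    intro y y' h
    have h' : (fun j => ∑ l, M j l * y l) = fun j => ∑ l, M j l * y' l := h
    rw [hMy, hMy] at h'
    have h1 := Subtype.ext h'
    have h2 := congrArg w.equivFun h1
    rw [← w.equivFun_symm_apply, ← w.equivFun_symm_apply, LinearEquiv.apply_symm_apply,
      LinearEquiv.apply_symm_apply] at h2
    exact h2
  have hdr : d ≤ r + 1 := by
    have h1 := Submodule.finrank_le W
    rw [← hd] at h1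
    simpa using h1
  have hY : ∀ F : Fin (r + 1) → K, F ∈ W → ∃ Y : Fin d → K, F = fun j => ∑ l, M j l * Y l := by
    intro F hF
    refine ⟨w.equivFun ⟨F, hF⟩, ?_⟩
    rw [hMy, w.sum_equivFun]
  by_cases hbp : ∀ i, jf (r := r) M a (i, 0) ≠ 0
  · -- no base points
    obtain ⟨ι', _, U, y, hy0, hmaj, htot⟩ := cnt (jf M a) (r + 1 - d) hbp
      (fun U hU => jets hq a ha M hMinj U hU) (by
        intro h
        have h1 := congrArg (fun A : Submodule K (Fin d → K) => finrank K A) h
        simp only [finrank_bot, finrank_top, finrank_fintype_fun_eq_card, Fintype.card_fin] at h1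
        omega)
    rw [finrank_fintype_fun_eq_card, Fintype.card_fin] at htot
    obtain ⟨b, hb⟩ := exists_b hq a ha M hMinj U
    set Φ : ι' → Finset (Fin d → K) := fun l => univ.biUnion fun σ => b σ l with hΦ
    have hΦU : ∀ l, ∀ φ ∈ Φ l, φ ∈ U l := by
      intro l φ hφ
      obtain ⟨σ, _, hσ⟩ := mem_biUnion.1 hφ
      exact (hb σ l).2.1 φ hσ
    have hΦ0 : ∀ l, ∀ φ ∈ Φ l, φ ≠ 0 := by
      intro l φ hφ
      obtain ⟨σ, _, hσ⟩ := mem_biUnion.1 hφ
      exact (hb σ l).2.2.1 φ hσ
    choose Zf hZf0 hsch using fun l => sch_sub (U l) (Φ l) (hΦU l)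
    set Za : Finset (Fin d → K) := univ.biUnion fun l => Zf l ∪ Φ l with hZa
    have hZa0 : ∀ z ∈ Za, z ≠ 0 := by
      intro z hz
      obtain ⟨l, _, hl⟩ := mem_biUnion.1 hz
      rcases mem_union.1 hl with h | h
      · exact hZf0 l z h
      · exact hΦ0 l z h
    set Ml : (Fin d → K) →ₗ[K] (Fin (r + 1) → K) := Matrix.toLin' (Matrix.of M) with hMl
    set dt : (Fin d → K) → ((Fin d → K) →ₗ[K] K) := fun z => ∑ i, z i • LinearMap.proj i with hdt
    have hdta : ∀ z Y, dt z Y = ∑ i, z i * Y i := by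
      intro z Y
      simp [hdt]
    set sb : (Fin d → K) → Submodule K (Fin (r + 1) → K) := fun z =>
      (LinearMap.ker (dt z)).map Ml with hsb
    obtain ⟨Ch, hCh0, hCh⟩ := height_minpoly (K := K) r
    -- the left inverse
    have hker : LinearMap.ker Ml = ⊥ := by
      rw [LinearMap.ker_eq_bot]
      intro y y' h
      exact hMinj h
    obtain ⟨g, hg⟩ := LinearMap.exists_leftInverse_of_injective Ml hker
    obtain ⟨Cp, hCp0, hCp⟩ := proj_ht (K := K) (N := d) (n := r + 1)
      (fun j i => g (Pi.single i 1) j)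
    have hgF : ∀ F : Fin (r + 1) → K, (fun j => ∑ i, g (Pi.single i 1) j * F i) = g F := by
      intro F
      have h1 : F = ∑ i, F i • (Pi.single i (1 : K) : Fin (r + 1) → K) := by
        funext l
        simp [Finset.sum_apply, Pi.single_apply]
      funext j
      conv_rhs => rw [h1, map_sum]
      rw [Finset.sum_apply]
      refine sum_congr rfl fun i _ => ?_
      rw [map_smul, Pi.smul_apply, smul_eq_mul, mul_comm]
    refine ⟨Za.image sb, ?_, ?_⟩
    · intro W' hW'
      obtain ⟨z, hz, rfl⟩ := mem_image.1 hW'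
      rw [← hd]
      refine lt_of_le_of_lt (Submodule.finrank_map_le _ _) ?_
      have h1 : LinearMap.ker (dt z) ≠ ⊤ := by
        intro h
        apply hZa0 z hz
        have h2 : dt z = 0 := LinearMap.ker_eq_top.1 h
        funext i
        have h3 := hdta z (Pi.single i 1)
        rw [h2, LinearMap.zero_apply] at h3
        simpa [Pi.single_apply] using h3.symm
      have h2 := Submodule.finrank_lt h1
      simpa using h2
    intro S ε hε
    have hsy0 : 0 ≤ ∑ l, y l := sum_nonneg fun l _ => hy0 l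
    set ε1 : ℝ := ε / (2 * (∑ l, y l + 1)) with hε1
    have hε10 : 0 < ε1 := by positivity
    choose Cl hCl0 hCl using fun l => hsch l S ε1 hε10
    choose Cv hCv0 hCv using fun v : Pl K => place_gw hq a ha M U y hy0 hdr hmaj htot b hb v
    set T : ℝ := (d : ℝ) + 2 * ((r + 1 - d : ℕ) : ℝ) with hT
    have hT0 : 0 ≤ T := by positivity
    have hylC : 0 ≤ ∑ l, y l * Cl l := sum_nonneg fun l _ => mul_nonneg (hy0 l) (hCl0 l)
    have hCvs : 0 ≤ ∑ v ∈ S, Cv v := sum_nonneg fun v _ => hCv0 v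
    refine ⟨2 * ((T + ε1 * ∑ l, y l) * (Ch + Cp) + ∑ l, y l * Cl l) + ∑ v ∈ S, Cv v,
      by positivity, ?_⟩
    intro L E _ _ _ _ _ _ _ _ _ x hx hr hxa hFW hFZ u hu
    set F : Fin (r + 1) → K := fun j => (minpoly K x).coeff j with hF
    have hF0 : F ≠ 0 := coeff_vec_ne hx hr
    obtain ⟨Y, hYF⟩ := hY F hFW
    have hY0 : Y ≠ 0 := by
      rintro rfl
      apply hF0
      rw [hYF]
      funext j
      simp
    have hMlY : Ml Y = F := by
      rw [hYF]
      rfl
    have hzY : ∀ z ∈ Za, ∑ i, z i * Y i ≠ 0 := by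
      intro z hz h
      refine hFZ (sb z) (mem_image_of_mem _ hz) ?_
      refine ⟨Y, ?_, hMlY⟩
      show dt z Y = 0
      rw [hdta]
      exact h
    have hzΦ : ∀ l, ∀ φ ∈ Φ l, ∑ i, φ i * Y i ≠ 0 := fun l φ hφ =>
      hzY φ (mem_biUnion.2 ⟨l, mem_univ _, mem_union_right _ hφ⟩)
    have hex : ∀ v, ∃ σ : Fin (q * (r + 1)) ≃ Fin q × Fin (r + 1), v ∈ S →
        ∑ i, (∑ y ∈ cj K (algebraMap L E x), prx v (u v) (a i) y +
          ∑ y ∈ cj K (algebraMap L E x), ∑ z ∈ cj K (algebraMap L E x),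
            min (prx v (u v) (a i) y) (prx v (u v) (a i) z)) ≤
        2 * ∑ l, y l * (wt v * ∑ φ ∈ b σ l, (Real.log (nrm (av v) Y) -
          Real.log (av v (∑ i, φ i * Y i)))) + Cv v := by
      intro v
      by_cases hv : v ∈ S
      · obtain ⟨σ, hσ⟩ := hCv v L E x hx hr hxa Y hY0 (fun j => congrFun hYF j)
          (fun σ l φ hφ => hzΦ l φ (mem_biUnion.2 ⟨σ, mem_univ _, hφ⟩)) (u v) (hu v hv)
        exact ⟨σ, fun _ => hσ⟩
      · exact ⟨finProdFinEquiv.symm, fun h => absurd h hv⟩
    choose σ hσ using hex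
    have h1 : ∀ l, ∑ v ∈ S, wt v * ∑ φ ∈ b (σ v) l, (Real.log (nrm (av v) Y) -
        Real.log (av v (∑ i, φ i * Y i))) ≤ (finrank K (U l) + ε1) * logHeight Y + Cl l := by
      intro l
      exact hCl l Y hY0 (fun z hz => hzY z (mem_biUnion.2 ⟨l, mem_univ _, mem_union_left _ hz⟩))
        (hzΦ l) (fun v => b (σ v) l) (fun v _ φ hφ => mem_biUnion.2 ⟨σ v, mem_univ _, hφ⟩)
        (fun v _ => (hb (σ v) l).1) (fun v _ => (hb (σ v) l).2.2.2.2.1)
    have h2 := sum_le_sum fun v (hv : v ∈ S) => hσ v hv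
    refine h2.trans ?_
    rw [sum_add_distrib, ← mul_sum, sum_comm]
    have h3 : ∑ l, ∑ v ∈ S, y l * (wt v * ∑ φ ∈ b (σ v) l, (Real.log (nrm (av v) Y) -
        Real.log (av v (∑ i, φ i * Y i)))) ≤ (T + ε1 * ∑ l, y l) * logHeight Y +
          ∑ l, y l * Cl l := by
      have h4 : (T + ε1 * ∑ l, y l) * logHeight Y + ∑ l, y l * Cl l =
          ∑ l, y l * ((finrank K (U l) + ε1) * logHeight Y + Cl l) := by
        have h5 : ∑ l, y l * ((finrank K (U l) + ε1) * logHeight Y + Cl l) =
            (∑ l, y l * finrank K (U l)) * logHeight Y + ε1 * (∑ l, y l) * logHeight Y +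
              ∑ l, y l * Cl l := by
          rw [sum_mul, mul_sum, sum_mul, ← sum_add_distrib, ← sum_add_distrib]
          exact sum_congr rfl fun l _ => by ring
        rw [h5, htot]
        ring
      rw [h4]
      refine sum_le_sum fun l _ => ?_
      rw [← mul_sum]
      exact mul_le_mul_of_nonneg_left (h1 l) (hy0 l)
    have h4 : logHeight Y ≤ logHeight ![1, x] + (Ch + Cp) := by
      have h5 := hCh L E x hx hr
      have hgY : (fun j => ∑ i, g (Pi.single i 1) j * F i) = Y := by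
        rw [hgF, ← hMlY]
        exact LinearMap.congr_fun hg Y
      have h6 := hCp ∅ F hF0 (by rw [hgY]; exact hY0)
      rw [hgY, sum_empty] at h6
      have h7 : logHeight F ≤ logHeight ![1, x] + Ch := h5
      linarith
    have h5 : (T + ε1 * ∑ l, y l) * logHeight Y ≤
        (T + ε1 * ∑ l, y l) * (logHeight ![1, x] + (Ch + Cp)) :=
      mul_le_mul_of_nonneg_left h4 (by positivity)
    have hh0 : 0 ≤ logHeight ![1, x] := logHeight_nonneg _
    have h6 : 2 * (ε1 * ∑ l, y l) ≤ ε := by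
      rw [hε1]
      have h7 : ε / (2 * (∑ l, y l + 1)) * ∑ l, y l ≤ ε / (2 * (∑ l, y l + 1)) *
          (∑ l, y l + 1) := mul_le_mul_of_nonneg_left (by linarith) (by positivity)
      have h8 : ε / (2 * (∑ l, y l + 1)) * (∑ l, y l + 1) = ε / 2 := by
        field_simp
      rw [h8] at h7
      linarith
    have h7 := mul_le_mul_of_nonneg_right h6 hh0
    rw [← hd]
    have h8 : (2 * T + ε) * logHeight ![1, x] = 2 * (T * logHeight ![1, x]) +
      ε * logHeight ![1, x] := by ring
    rw [h8]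
    have h9 : (T + ε1 * ∑ l, y l) * (logHeight ![1, x] + (Ch + Cp)) =
        T * logHeight ![1, x] + (ε1 * ∑ l, y l) * logHeight ![1, x] +
          (T + ε1 * ∑ l, y l) * (Ch + Cp) := by ring
    rw [h9] at h5
    have h10 : 2 * (ε1 * ∑ l, y l) * logHeight ![1, x] =
      2 * ((ε1 * ∑ l, y l) * logHeight ![1, x]) := by ring
    rw [h10] at h7
    linarith
  · -- base points: there is no point
    push Not at hbp
    obtain ⟨i, hi⟩ := hbp
    refine ⟨∅, fun W' h => absurd h (notMem_empty _), fun S ε hε => ⟨0, le_rfl, ?_⟩⟩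
    intro L E _ _ _ _ _ _ _ _ _ x hx hr hxa hFW _ u _
    exfalso
    obtain ⟨Y, hYF⟩ := hY _ hFW
    have hdeg : (minpoly K x).natDegree = r := by rw [minpoly_natDegree hx, hr]
    have h1 := tf_apply r (a i) 0 _ hdeg.le
    have h2 : ∑ j : Fin (r + 1), tf r (a i) 0 j * (minpoly K x).coeff j =
        ∑ l, jf M a (i, 0) l * Y l := by
      unfold jf
      have h3 : ∀ j : Fin (r + 1), (minpoly K x).coeff j = ∑ l, M j l * Y l := fun j =>
        congrFun hYF j
      simp_rw [h3, sum_mul, mul_sum]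
      rw [sum_comm]
      exact sum_congr rfl fun j _ => sum_congr rfl fun l _ => by
        simp only [Fin.val_zero]
        ring
    rw [h2, hi] at h1
    simp only [Pi.zero_apply, zero_mul, sum_const_zero, taylor_coeff_zero] at h1
    exact hxa i (minpoly.root (Algebra.IsIntegral.isIntegral x) (show (minpoly K x).IsRoot (a i)
      from h1.symm)).symm

/-- the recursion -/
theorem rec_W (hq : 0 < q) (a : Fin q → K) (ha : Function.Injective a) (r : ℕ) :
    ∀ (n : ℕ) (W : Submodule K (Fin (r + 1) → K)), finrank K W ≤ n →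
    ∃ 𝒲 : Finset (Submodule K (Fin (r + 1) → K)),
      ∀ (S : Finset (Pl K)) (ε : ℝ), 0 < ε → ∃ C : ℝ, 0 ≤ C ∧
      ∀ (L E : Type) [Field L] [NumberField L] [Field E] [NumberField E]
      [Algebra K L] [Algebra L E] [Algebra K E] [IsScalarTower K L E] [IsGalois K E] (x : L),
      IntermediateField.adjoin K {x} = ⊤ → finrank K L = r →
      (∀ i, x ≠ algebraMap K L (a i)) →
      (fun j : Fin (r + 1) => (minpoly K x).coeff j) ∈ W → ∀ κ : ℕ,
      (∀ W' ∈ 𝒲, finrank K W' + κ < r + 1 →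
        (fun j : Fin (r + 1) => (minpoly K x).coeff j) ∉ W') →
      ∀ u : Pl K → Pl E, (∀ v ∈ S, Ov v (u v)) →
        ∑ v ∈ S, ∑ i, (∑ y ∈ cj K (algebraMap L E x), prx v (u v) (a i) y +
          ∑ y ∈ cj K (algebraMap L E x), ∑ z ∈ cj K (algebraMap L E x),
            min (prx v (u v) (a i) y) (prx v (u v) (a i) z)) ≤
        (2 * (r + 1 + κ) + ε) * logHeight ![1, x] + C := by
  classical
  intro n
  induction n with
  | zero =>
    intro W hW
    refine ⟨∅, fun S ε hε => ⟨0, le_rfl, ?_⟩⟩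
    intro L E _ _ _ _ _ _ _ _ _ x hx hr _ hFW κ _ u _
    have h1 : W = ⊥ := Submodule.finrank_eq_zero.1 (Nat.le_zero.1 hW)
    rw [h1, Submodule.mem_bot] at hFW
    exact absurd hFW (coeff_vec_ne hx hr)
  | succ n ih =>
    intro W hW
    obtain ⟨Z, hZ, hcore⟩ := core_W hq a ha r W
    choose 𝒲 h𝒲 using fun W' : {W' // W' ∈ Z} => ih W'.1 (by
      have := hZ W'.1 W'.2
      omega)
    refine ⟨insert W (Z.attach.biUnion 𝒲), fun S ε hε => ?_⟩
    obtain ⟨C, hC0, hC⟩ := hcore S ε hε
    choose C' hC'0 hC' using fun W' : {W' // W' ∈ Z} => h𝒲 W' S ε hε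
    have hC's : 0 ≤ ∑ W', C' W' := sum_nonneg fun W' _ => hC'0 W'
    refine ⟨C + ∑ W', C' W', by positivity, ?_⟩
    intro L E _ _ _ _ _ _ _ _ _ x hx hr hxa hFW κ hκ u hu
    have hh0 : 0 ≤ logHeight ![1, x] := logHeight_nonneg _
    by_cases hFZ : ∀ W' ∈ Z, (fun j : Fin (r + 1) => (minpoly K x).coeff j) ∉ W'
    · have h1 := hC L E x hx hr hxa hFW hFZ u hu
      have h2 : r + 1 ≤ finrank K W + κ := by
        by_contra hc
        push Not at hc
        exact hκ W (mem_insert_self _ _) hc hFW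
      have h3 : ((finrank K W : ℝ) + 2 * ((r + 1 - finrank K W : ℕ) : ℝ)) ≤ r + 1 + κ := by
        have h4 : finrank K W + 2 * (r + 1 - finrank K W) ≤ r + 1 + κ := by
          have := Submodule.finrank_le W
          simp only [finrank_fintype_fun_eq_card, Fintype.card_fin] at this
          omega
        exact_mod_cast h4
      have h4 := mul_le_mul_of_nonneg_right (show 2 * ((finrank K W : ℝ) +
        2 * ((r + 1 - finrank K W : ℕ) : ℝ)) + ε ≤ 2 * (r + 1 + κ) + ε by linarith) hh0
      linarith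
    · push Not at hFZ
      obtain ⟨W', hW', hFW'⟩ := hFZ
      have h1 := hC' ⟨W', hW'⟩ L E x hx hr hxa hFW' κ (fun W'' hW'' => hκ W''
        (mem_insert_of_mem (mem_biUnion.2 ⟨⟨W', hW'⟩, mem_attach _ _, hW''⟩))) u hu
      have h2 := single_le_sum (f := C') (fun W' _ => hC'0 W') (mem_univ ⟨W', hW'⟩)
      linarith

end Pool.Agent.H430.Gw
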