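import Mathlib

/-!
Sharpness: the polynomials.
-/

set_option autoImplicit false

namespace Pool.Agent.H430.Gw

open Finset Module Polynomial

/-- the criterion of Eisenstein -/
lemma eis (P : ℤ[X]) (hd : 0 < P.natDegree) (hlc : ¬ (2 : ℤ) ∣ P.leadingCoeff)
    (hc : ∀ j < P.natDegree, (2 : ℤ) ∣ P.coeff j) (h0 : ¬ (4 : ℤ) ∣ P.coeff 0) :
    Irreducible (P.map (Int.castRingHom ℚ)) := by
  have hP0 : P ≠ 0 := by
    rintro rfl
    simp at hd
  set c := P.content with hcd
  set f := P.primPart with hf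
  have hPf : P = C c * f := P.eq_C_content_mul_primPart
  have hco : ∀ j, P.coeff j = c * f.coeff j := by
    intro j
    conv_lhs => rw [hPf, coeff_C_mul]
  have hdeg : f.natDegree = P.natDegree := P.natDegree_primPart
  have hc2 : ¬ (2 : ℤ) ∣ c := by
    intro h
    apply hlc
    rw [leadingCoeff, hco]
    exact h.mul_right _
  have h2 : Prime (2 : ℤ) := Int.prime_two
  have hf2 : ∀ j < f.natDegree, (2 : ℤ) ∣ f.coeff j := by
    intro j hj
    have h1 := hc j (by omega)
    rw [hco] at h1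
    exact (h2.dvd_or_dvd h1).resolve_left hc2
  have hfl : ¬ (2 : ℤ) ∣ f.leadingCoeff := by
    intro h
    apply hlc
    rw [leadingCoeff, hco, ← hdeg]
    exact h.mul_left _
  have hf0 : ¬ (4 : ℤ) ∣ f.coeff 0 := by
    intro h
    apply h0
    rw [hco]
    exact h.mul_left _
  have hprime : (Ideal.span {(2 : ℤ)}).IsPrime := (Ideal.span_singleton_prime h2.ne_zero).2 h2
  have hirr : Irreducible f := by
    refine irreducible_of_eisenstein_criterion hprime ?_ ?_ ?_ ?_ P.isPrimitive_primPart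
    · rwa [Ideal.mem_span_singleton]
    · intro n hn
      rw [Ideal.mem_span_singleton]
      exact hf2 n (coe_lt_degree.1 hn)
    · rw [← natDegree_pos_iff_degree_pos, hdeg]
      exact hd
    · rw [Ideal.span_singleton_pow, Ideal.mem_span_singleton]
      norm_num
      exact hf0
  have h3 := (IsPrimitive.Int.irreducible_iff_irreducible_map_cast P.isPrimitive_primPart).1 hirr
  have h4 : P.map (Int.castRingHom ℚ) = C (c : ℚ) * f.map (Int.castRingHom ℚ) := by
    conv_lhs => rw [hPf, Polynomial.map_mul, map_C]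
    rfl
  have hc0 : (c : ℚ) ≠ 0 := by
    intro h
    have : c = 0 := by exact_mod_cast h
    rw [hcd, content_eq_zero_iff] at this
    exact hP0 this
  rw [h4]
  exact (irreducible_isUnit_mul (isUnit_C.2 (isUnit_iff_ne_zero.2 hc0))).2 h3

/-- the polynomial with the roots `4 j` -/
noncomputable def RR (r : ℕ) : ℤ[X] := ∏ j ∈ range r, (X - C (4 * j : ℤ))

/-- the polynomial with the roots `2 i + 1` -/
noncomputable def QQ (n : ℕ) : ℤ[X] := ∏ i ∈ range n, (X - C (2 * i + 1 : ℤ))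

/-- the free factor -/
noncomputable def GG (e t : ℕ) : ℤ[X] :=
  1 + C 2 * ∑ j ∈ range (e + 1), C ((t : ℤ) ^ (j + 1)) * X ^ j

/-- the polynomials -/
noncomputable def PP (r n e t k l : ℕ) : ℤ[X] :=
  C (3 ^ k) * RR r + C (2 * 5 ^ l) * (QQ n * GG e t)

lemma RR_monic (r : ℕ) : (RR r).Monic := monic_prod_of_monic _ _ fun _ _ => monic_X_sub_C _

lemma QQ_monic (n : ℕ) : (QQ n).Monic := monic_prod_of_monic _ _ fun _ _ => monic_X_sub_C _

lemma RR_natDegree (r : ℕ) : (RR r).natDegree = r := by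
  unfold RR
  rw [natDegree_prod_of_monic _ _ fun _ _ => monic_X_sub_C _]
  simp only [natDegree_X_sub_C, sum_const, card_range, smul_eq_mul, mul_one]

lemma QQ_natDegree (n : ℕ) : (QQ n).natDegree = n := by
  unfold QQ
  rw [natDegree_prod_of_monic _ _ fun _ _ => monic_X_sub_C _]
  simp only [natDegree_X_sub_C, sum_const, card_range, smul_eq_mul, mul_one]

lemma RR_coeff {r j : ℕ} (hj : j < r) : (4 : ℤ) ∣ (RR r).coeff j := by
  have h1 : (RR r).map (Int.castRingHom (ZMod 4)) = X ^ r := by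
    unfold RR
    rw [Polynomial.map_prod]
    have h2 : ∀ i ∈ range r, (X - C (4 * (i : ℤ)) : ℤ[X]).map (Int.castRingHom (ZMod 4)) = X := by
      intro i _
      have h3 : (Int.castRingHom (ZMod 4)) (4 * (i : ℤ)) = 0 := by
        rw [map_mul]
        have : (Int.castRingHom (ZMod 4)) 4 = 0 := by decide
        rw [this, zero_mul]
      rw [Polynomial.map_sub, map_X, map_C, h3, C_0, sub_zero]
    rw [prod_congr rfl h2, prod_const, card_range]
  have h2 : ((RR r).map (Int.castRingHom (ZMod 4))).coeff j = 0 := by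
    rw [h1, coeff_X_pow, if_neg (by omega)]
  rw [coeff_map] at h2
  exact (ZMod.intCast_zmod_eq_zero_iff_dvd _ 4).1 h2

lemma RR_eval_odd (r : ℕ) (b : ℤ) (hb : Odd b) : Odd ((RR r).eval b) := by
  unfold RR
  rw [eval_prod]
  refine Finset.prod_induction _ Odd (fun a b ha hb => ha.mul hb) odd_one fun i _ => ?_
  rw [eval_sub, eval_X, eval_C]
  exact hb.sub_even ⟨2 * i, by ring⟩

lemma QQ_eval_odd (n : ℕ) (b : ℤ) (hb : Even b) : Odd ((QQ n).eval b) := by
  unfold QQ
  rw [eval_prod]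
  refine Finset.prod_induction _ Odd (fun a b ha hb => ha.mul hb) odd_one fun i _ => ?_
  rw [eval_sub, eval_X, eval_C]
  exact hb.sub_odd ⟨i, by ring⟩

lemma GG_eval_odd (e t : ℕ) (b : ℤ) : Odd ((GG e t).eval b) := by
  unfold GG
  rw [eval_add, eval_mul, eval_one, eval_C]
  exact odd_one.add_even (even_two_mul _)

lemma RR_root {r : ℕ} (j : ℕ) (hj : j < r) : (RR r).eval (4 * j : ℤ) = 0 := by
  unfold RR
  rw [eval_prod]
  exact prod_eq_zero (mem_range.2 hj) (by simp)

lemma QQ_root {n : ℕ} (i : ℕ) (hi : i < n) : (QQ n).eval (2 * i + 1 : ℤ) = 0 := by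
  unfold QQ
  rw [eval_prod]
  exact prod_eq_zero (mem_range.2 hi) (by simp)

lemma GG_natDegree (e t : ℕ) : (GG e t).natDegree ≤ e := by
  unfold GG
  refine (natDegree_add_le _ _).trans (max_le (by simp) ?_)
  refine (natDegree_C_mul_le _ _).trans (natDegree_sum_le_of_forall_le _ _ fun j hj => ?_)
  refine (natDegree_C_mul_X_pow_le _ _).trans ?_
  have := mem_range.1 hj
  omega

section PP

variable {r n e : ℕ} (hr : r = n + e) (hn : 0 < n) (t k l : ℕ)

include hr hn

lemma PP_coeff_top : ¬ (2 : ℤ) ∣ (PP r n e t k l).coeff r := by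
  unfold PP
  rw [coeff_add, coeff_C_mul, coeff_C_mul]
  have h1 : (RR r).coeff r = 1 := by
    have := (RR_monic r).coeff_natDegree
    rwa [RR_natDegree] at this
  rw [h1, mul_one, mul_assoc]
  intro h
  have h2 : (2 : ℤ) ∣ 3 ^ k := (Int.dvd_add_left (dvd_mul_right _ _)).1 h
  have h3 := Int.Prime.dvd_pow' (p := 2) Nat.prime_two h2
  omega

lemma PP_natDegree : (PP r n e t k l).natDegree = r := by
  refine le_antisymm ?_ (le_natDegree_of_ne_zero fun h => ?_)
  · unfold PP
    refine (natDegree_add_le _ _).trans (max_le ?_ ?_)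
    · exact (natDegree_C_mul_le _ _).trans (RR_natDegree r).le
    · refine (natDegree_C_mul_le _ _).trans (natDegree_mul_le.trans ?_)
      rw [QQ_natDegree]
      have := GG_natDegree e t
      omega
  · have h1 := PP_coeff_top hr hn t k l
    rw [h] at h1
    exact h1 (dvd_zero _)

lemma PP_coeff_even {j : ℕ} (hj : j < r) : (2 : ℤ) ∣ (PP r n e t k l).coeff j := by
  unfold PP
  rw [coeff_add, coeff_C_mul, coeff_C_mul, mul_assoc]
  refine dvd_add ?_ (dvd_mul_right _ _)
  exact ((show (2 : ℤ) ∣ 4 by norm_num).trans (RR_coeff hj)).mul_left _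

lemma PP_coeff_zero : ¬ (4 : ℤ) ∣ (PP r n e t k l).coeff 0 := by
  unfold PP
  rw [coeff_add, coeff_C_mul, coeff_C_mul]
  intro h
  have h1 := (Int.dvd_add_right (((RR_coeff (r := r) (j := 0) (by omega))).mul_left (3 ^ k))).1 h
  rw [coeff_zero_eq_eval_zero, eval_mul] at h1
  have h2 : Odd ((5 : ℤ) ^ l * ((QQ n).eval 0 * (GG e t).eval 0)) :=
    (Odd.pow (by decide)).mul ((QQ_eval_odd n 0 (by decide)).mul (GG_eval_odd e t 0))
  obtain ⟨m, hm⟩ := h2
  rw [mul_assoc, hm] at h1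
  omega

lemma PP_irred : Irreducible ((PP r n e t k l).map (Int.castRingHom ℚ)) := by
  have hd := PP_natDegree hr hn t k l
  refine eis _ (by omega) ?_ ?_ (PP_coeff_zero hr hn t k l)
  · rw [leadingCoeff, hd]
    exact PP_coeff_top hr hn t k l
  · intro j hj
    rw [hd] at hj
    exact PP_coeff_even hr hn t k l hj

end PP

lemma PP_eval_odd (r n e t k l : ℕ) (i : ℕ) (hi : i < n) :
    (PP r n e t k l).eval (2 * i + 1 : ℤ) = 3 ^ k * (RR r).eval (2 * i + 1 : ℤ) := by
  unfold PP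
  rw [eval_add, eval_mul, eval_mul, eval_mul, QQ_root i hi, eval_C]
  ring

lemma PP_eval_even (r n e t k l : ℕ) (j : ℕ) (hj : j < r) :
    (PP r n e t k l).eval (4 * j : ℤ) =
      5 ^ l * (2 * ((QQ n).eval (4 * j : ℤ) * (GG e t).eval (4 * j : ℤ))) := by
  unfold PP
  rw [eval_add, eval_mul, eval_mul, eval_mul, RR_root j hj, eval_C, eval_C]
  ring

/-- a bound for the coefficients -/
lemma PP_bound (r n e t : ℕ) : ∃ B : ℕ, 0 < B ∧ ∀ k l, 5 ^ l ≤ 3 ^ k → ∀ j,
    |(PP r n e t k l).coeff j| ≤ 3 ^ k * B := by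
  obtain ⟨B1, hB1⟩ : ∃ B : ℕ, ∀ j, |(RR r).coeff j| ≤ B := by
    refine ⟨∑ j ∈ range (r + 1), ((RR r).coeff j).natAbs, fun j => ?_⟩
    by_cases hj : j < r + 1
    · rw [Int.abs_eq_natAbs]
      exact_mod_cast single_le_sum (f := fun j => ((RR r).coeff j).natAbs) (fun _ _ => Nat.zero_le _)
        (mem_range.2 hj)
    · rw [coeff_eq_zero_of_natDegree_lt (by rw [RR_natDegree]; omega), abs_zero]
      positivity
  obtain ⟨B2, hB2⟩ : ∃ B : ℕ, ∀ j, |(QQ n * GG e t).coeff j| ≤ B := by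
    refine ⟨∑ j ∈ range ((QQ n * GG e t).natDegree + 1), ((QQ n * GG e t).coeff j).natAbs,
      fun j => ?_⟩
    by_cases hj : j < (QQ n * GG e t).natDegree + 1
    · rw [Int.abs_eq_natAbs]
      exact_mod_cast single_le_sum (f := fun j => ((QQ n * GG e t).coeff j).natAbs)
        (fun _ _ => Nat.zero_le _) (mem_range.2 hj)
    · rw [coeff_eq_zero_of_natDegree_lt (by omega), abs_zero]
      positivity
  refine ⟨B1 + 2 * B2 + 1, by omega, fun k l hkl j => ?_⟩
  unfold PP
  rw [coeff_add, coeff_C_mul, coeff_C_mul]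
  refine (abs_add_le _ _).trans ?_
  rw [abs_mul, abs_mul, abs_of_nonneg (by positivity : (0 : ℤ) ≤ 3 ^ k),
    abs_of_nonneg (by positivity : (0 : ℤ) ≤ 2 * 5 ^ l)]
  have h1 : (3 : ℤ) ^ k * |(RR r).coeff j| ≤ 3 ^ k * B1 :=
    mul_le_mul_of_nonneg_left (hB1 j) (by positivity)
  have h3 : (5 : ℤ) ^ l ≤ 3 ^ k := by exact_mod_cast hkl
  have h2 : 2 * (5 : ℤ) ^ l * |(QQ n * GG e t).coeff j| ≤ 2 * 3 ^ k * B2 :=
    mul_le_mul (by linarith) (hB2 j) (abs_nonneg _) (by positivity)
  have h4 : (0 : ℤ) ≤ 3 ^ k := by positivity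
  push_cast
  nlinarith

end Pool.Agent.H430.Gw
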