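import Pool.Agent.H430.Gw.Sh2

/-!
Sharpness: the polynomials avoid finitely many linear systems.
-/

set_option autoImplicit false

namespace Pool.Agent.H430.Gw

open Finset Module Polynomial Filter

/-- the vector of the coefficients -/
noncomputable def vq (r : ℕ) : ℚ[X] →ₗ[ℚ] (Fin (r + 1) → ℚ) :=
  LinearMap.pi fun j => lcoeff ℚ (j : ℕ)

lemma vq_apply (r : ℕ) (P : ℚ[X]) (j : Fin (r + 1)) : vq r P j = P.coeff j := rfl

lemma vq_inj {r : ℕ} {P : ℚ[X]} (hP : P.natDegree ≤ r) (h : vq r P = 0) : P = 0 := by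
  ext j
  rw [coeff_zero]
  by_cases hj : j < r + 1
  · exact congrFun h ⟨j, hj⟩
  · exact coeff_eq_zero_of_natDegree_lt (by omega)

/-- the rational forms of the polynomials -/
noncomputable def Rrat (r : ℕ) : ℚ[X] := (RR r).map (Int.castRingHom ℚ)

/-- the rational forms of the polynomials -/
noncomputable def Qrat (n : ℕ) : ℚ[X] := (QQ n).map (Int.castRingHom ℚ)

lemma eval_cast (P : ℤ[X]) (b : ℤ) : (P.map (Int.castRingHom ℚ)).eval (b : ℚ) = (P.eval b : ℤ) := by
  simp

/-- a linear system of small dimension does not contain the one of the examples -/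
lemma exists_form {r n e : ℕ} (hr : r = n + e) (hn : 0 < n)
    (W : Submodule ℚ (Fin (r + 1) → ℚ)) (hW : finrank ℚ W < e + 2) :
    ∃ φ : (Fin (r + 1) → ℚ) →ₗ[ℚ] ℚ, (∀ w ∈ W, φ w = 0) ∧
      (φ (vq r (Rrat r)) ≠ 0 ∨ ∃ j ≤ e, φ (vq r (Qrat n * X ^ j)) ≠ 0) := by
  classical
  by_contra hc
  push Not at hc
  have hmem : ∀ v : Fin (r + 1) → ℚ, (∀ φ : (Fin (r + 1) → ℚ) →ₗ[ℚ] ℚ, (∀ w ∈ W, φ w = 0) →
      φ v = 0) → v ∈ W := by
    intro v hv
    rw [← Subspace.forall_mem_dualAnnihilator_apply_eq_zero_iff]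
    intro φ hφ
    exact hv φ ((Submodule.mem_dualAnnihilator φ).1 hφ)
  have hR : vq r (Rrat r) ∈ W := hmem _ fun φ hφ => (hc φ hφ).1
  have hQ : ∀ j ≤ e, vq r (Qrat n * X ^ j) ∈ W := fun j hj => hmem _ fun φ hφ => (hc φ hφ).2 j hj
  -- the linear map
  let T : (ℚ × (Fin (e + 1) → ℚ)) →ₗ[ℚ] (Fin (r + 1) → ℚ) :=
    (LinearMap.toSpanSingleton ℚ _ (vq r (Rrat r))).comp (LinearMap.fst ℚ ℚ (Fin (e + 1) → ℚ)) +
    (Fintype.linearCombination ℚ fun j : Fin (e + 1) => vq r (Qrat n * X ^ (j : ℕ))).comp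
      (LinearMap.snd ℚ ℚ (Fin (e + 1) → ℚ))
  have hT : ∀ c g, T (c, g) = c • vq r (Rrat r) + ∑ j : Fin (e + 1), g j • vq r (Qrat n * X ^ (j : ℕ)) :=
    fun c g => rfl
  have hTW : ∀ z, T z ∈ W := by
    rintro ⟨c, g⟩
    rw [hT]
    exact W.add_mem (W.smul_mem _ hR) (W.sum_mem fun j _ => W.smul_mem _
      (hQ j (by have := j.2; omega)))
  have hinj : Function.Injective T := by
    rw [← LinearMap.ker_eq_bot, LinearMap.ker_eq_bot']
    rintro ⟨c, g⟩ h
    set G : ℚ[X] := ∑ j : Fin (e + 1), C (g j) * X ^ (j : ℕ) with hG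
    have h1 : T (c, g) = vq r (C c * Rrat r + Qrat n * G) := by
      rw [hT, map_add, ← smul_eq_C_mul, map_smul, hG, mul_sum, map_sum]
      congr 1
      refine sum_congr rfl fun j _ => ?_
      rw [← map_smul, smul_eq_C_mul]
      congr 1
      ring
    have hGd : G.natDegree ≤ e := by
      refine natDegree_sum_le_of_forall_le _ _ fun j _ => ?_
      refine (natDegree_C_mul_X_pow_le _ _).trans ?_
      have := j.2
      omega
    have hQd : (Qrat n).natDegree ≤ n := (natDegree_map_le).trans (QQ_natDegree n).le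
    have hRd : (Rrat r).natDegree ≤ r := (natDegree_map_le).trans (RR_natDegree r).le
    rw [h1] at h
    have h2 := vq_inj (by
      refine (natDegree_add_le _ _).trans (max_le ?_ ?_)
      · exact (natDegree_C_mul_le _ _).trans hRd
      · refine natDegree_mul_le.trans ?_
        omega) h
    have h3 := congrArg (eval ((1 : ℤ) : ℚ)) h2
    have e1 : (Qrat n).eval ((1 : ℤ) : ℚ) = 0 := by
      rw [Qrat, eval_cast]
      have := QQ_root 0 hn
      simp only [Nat.cast_zero, mul_zero, zero_add] at this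
      rw [this]
      rfl
    have e2 : (Rrat r).eval ((1 : ℤ) : ℚ) ≠ 0 := by
      rw [Rrat, eval_cast]
      have := RR_eval_odd r 1 odd_one
      intro h0
      have h0' : (RR r).eval 1 = 0 := by exact_mod_cast h0
      rw [h0'] at this
      exact absurd this (by decide)
    rw [eval_add, eval_mul, eval_mul, e1, zero_mul, add_zero, eval_C, eval_zero] at h3
    have hc0 : c = 0 := (mul_eq_zero.1 h3).resolve_right e2
    rw [hc0, C_0, zero_mul, zero_add] at h2
    have hQ0 : Qrat n ≠ 0 := by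
      rw [Qrat, Polynomial.map_ne_zero_iff (Int.castRingHom ℚ).injective_int]
      exact (QQ_monic n).ne_zero
    have hG0 := (mul_eq_zero.1 h2).resolve_left hQ0
    have hg : g = 0 := by
      funext j
      have h4 := congrArg (fun P : ℚ[X] => P.coeff j) hG0
      simp only [hG, finsetSum_coeff, coeff_C_mul, coeff_X_pow, coeff_zero] at h4
      rw [Finset.sum_eq_single j] at h4
      · simpa using h4
      · intro i _ hij
        rw [if_neg, mul_zero]
        intro h5
        exact hij (Fin.ext h5.symm)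
      · intro h5
        exact absurd (mem_univ j) h5
    rw [hc0, hg]
    rfl
  have h1 := LinearMap.finrank_le_finrank_of_injective (f := T.codRestrict W hTW) (by
    intro a b hab
    exact hinj (congrArg Subtype.val hab))
  rw [finrank_prod, finrank_self, finrank_fintype_fun_eq_card, Fintype.card_fin] at h1
  omega

/-- the choice of the free factor -/
lemma choose_t {r n e : ℕ} (φ : (Fin (r + 1) → ℚ) →ₗ[ℚ] ℚ)
    (h : ∃ j ≤ e, φ (vq r (Qrat n * X ^ j)) ≠ 0) :
    ∀ᶠ t : ℕ in atTop, φ (vq r (Qrat n * (GG e t).map (Int.castRingHom ℚ))) ≠ 0 := by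
  classical
  obtain ⟨j0, hj0, hne⟩ := h
  set g : ℚ[X] := C (φ (vq r (Qrat n))) + ∑ j ∈ range (e + 1),
    C (2 * φ (vq r (Qrat n * X ^ j))) * X ^ (j + 1) with hg
  have hg0 : g ≠ 0 := by
    intro h0
    have h1 := congrArg (fun P : ℚ[X] => P.coeff (j0 + 1)) h0
    simp only [hg, coeff_add, finsetSum_coeff, coeff_C_mul, coeff_X_pow, coeff_zero] at h1
    rw [coeff_C_succ, zero_add, Finset.sum_eq_single j0] at h1
    · rw [if_pos rfl, mul_one] at h1
      exact hne ((mul_eq_zero.1 h1).resolve_left two_ne_zero)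
    · intro i _ hij
      rw [if_neg (by omega), mul_zero]
    · intro h2
      exact absurd (mem_range.2 (by omega)) h2
  have hev : ∀ t : ℕ, φ (vq r (Qrat n * (GG e t).map (Int.castRingHom ℚ))) = g.eval (t : ℚ) := by
    intro t
    have h1 : Qrat n * (GG e t).map (Int.castRingHom ℚ) = Qrat n + ∑ j ∈ range (e + 1),
        C (2 * (t : ℚ) ^ (j + 1)) * (Qrat n * X ^ j) := by
      unfold GG
      rw [Polynomial.map_add, Polynomial.map_one, Polynomial.map_mul, Polynomial.map_sum, mul_add,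
        mul_one, mul_sum, mul_sum]
      congr 1
      refine sum_congr rfl fun j _ => ?_
      rw [Polynomial.map_mul, Polynomial.map_pow, map_C, map_C, map_X]
      simp only [map_mul, map_pow]
      simp
      ring
    rw [h1, map_add, map_add, map_sum, map_sum, hg, eval_add, eval_C, eval_finsetSum]
    congr 1
    refine sum_congr rfl fun j _ => ?_
    rw [← smul_eq_C_mul, map_smul, map_smul, eval_mul, eval_C, eval_pow, eval_X, smul_eq_mul]
    ring
  have hfin : {t : ℕ | g.eval (t : ℚ) = 0}.Finite := by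
    have h1 := (g.roots.toFinset : Set ℚ).toFinite
    refine (h1.preimage (f := fun t : ℕ => (t : ℚ)) (Nat.cast_injective.injOn)).subset ?_
    intro t ht
    simp only [Set.mem_preimage, mem_coe, Multiset.mem_toFinset]
    exact (mem_roots hg0).2 ht
  have h2 : ∀ᶠ t : ℕ in cofinite, ¬ g.eval (t : ℚ) = 0 := eventually_cofinite.2 (by
    simpa only [not_not] using hfin)
  rw [Nat.cofinite_eq_atTop] at h2
  filter_upwards [h2] with t ht
  rw [hev]
  exact ht

/-- the exponent -/
noncomputable def lk (k : ℕ) : ℕ := Nat.log 5 (3 ^ k)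

lemma lk_le (k : ℕ) : 5 ^ lk k ≤ 3 ^ k := Nat.pow_log_le_self 5 (by positivity)

lemma lk_lt (k : ℕ) : 3 ^ k < 5 ^ (lk k + 1) := Nat.lt_pow_succ_log_self (by norm_num) _

lemma choose_k (α β : ℚ) (h : α ≠ 0 ∨ β ≠ 0) :
    ∀ᶠ k : ℕ in atTop, 3 ^ k * α + 2 * 5 ^ lk k * β ≠ 0 := by
  have hsub : {k : ℕ | 3 ^ k * α + 2 * 5 ^ lk k * β = 0}.Subsingleton := by
    have key : ∀ k k' : ℕ, k < k' → 3 ^ k * α + 2 * 5 ^ lk k * β = 0 →
        3 ^ k' * α + 2 * 5 ^ lk k' * β = 0 → False := by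
      intro k k' hkk h1 h2
      have hβ : β ≠ 0 := by
        rintro rfl
        rw [mul_zero, add_zero] at h1
        have h3 := (mul_eq_zero.1 h1).resolve_left (by positivity)
        rcases h with h | h
        · exact h h3
        · exact h rfl
      have hα : α ≠ 0 := by
        rintro rfl
        rw [mul_zero, zero_add] at h1
        exact hβ ((mul_eq_zero.1 h1).resolve_left (by positivity))
      have h3 : (3 : ℚ) ^ k * 5 ^ lk k' = 3 ^ k' * 5 ^ lk k := by
        have e1 : 3 ^ k * α = -(2 * 5 ^ lk k * β) := by linarith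
        have e2 : 3 ^ k' * α = -(2 * 5 ^ lk k' * β) := by linarith
        have e3 : ((3 : ℚ) ^ k * 5 ^ lk k') * (2 * α * β) = (3 ^ k' * 5 ^ lk k) * (2 * α * β) := by
          calc ((3 : ℚ) ^ k * 5 ^ lk k') * (2 * α * β) = (3 ^ k * α) * (2 * 5 ^ lk k' * β) := by ring
            _ = -(2 * 5 ^ lk k * β) * (2 * 5 ^ lk k' * β) := by rw [e1]
            _ = (2 * 5 ^ lk k * β) * (-(2 * 5 ^ lk k' * β)) := by ring
            _ = (2 * 5 ^ lk k * β) * (3 ^ k' * α) := by rw [e2]
            _ = (3 ^ k' * 5 ^ lk k) * (2 * α * β) := by ring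
        exact mul_right_cancel₀ (by positivity) e3
      have h4 : 3 ^ k * 5 ^ lk k' = 3 ^ k' * 5 ^ lk k := by exact_mod_cast h3
      have h5 : 5 ^ lk k' = 3 ^ (k' - k) * 5 ^ lk k := by
        have e : 3 ^ k' = 3 ^ k * 3 ^ (k' - k) := by rw [← pow_add]; congr 1; omega
        rw [e, mul_assoc] at h4
        exact Nat.eq_of_mul_eq_mul_left (by positivity) h4
      have h6 : 3 ∣ 5 ^ lk k' := by
        rw [h5]
        exact (dvd_pow_self 3 (by omega)).mul_right _
      have h7 := Nat.Prime.dvd_of_dvd_pow Nat.prime_three h6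
      omega
    intro k hk k' hk'
    rcases lt_trichotomy k k' with hl | hl | hl
    · exact (key k k' hl hk hk').elim
    · exact hl
    · exact (key k' k hl hk' hk).elim
  have h2 : ∀ᶠ k : ℕ in cofinite, ¬ (3 ^ k * α + 2 * 5 ^ lk k * β = 0) :=
    eventually_cofinite.2 (by simpa only [not_not] using hsub.finite)
  rw [Nat.cofinite_eq_atTop] at h2
  exact h2

/-- the polynomials avoid finitely many linear systems of small dimension -/
theorem avoid {r n e : ℕ} (hr : r = n + e) (hn : 0 < n)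
    (𝒲 : Finset (Submodule ℚ (Fin (r + 1) → ℚ))) :
    ∃ t : ℕ, ∀ᶠ k : ℕ in atTop, ∀ W ∈ 𝒲, finrank ℚ W < e + 2 →
      vq r ((PP r n e t k (lk k)).map (Int.castRingHom ℚ)) ∉ W := by
  classical
  have hex : ∀ W : Submodule ℚ (Fin (r + 1) → ℚ), ∃ φ : (Fin (r + 1) → ℚ) →ₗ[ℚ] ℚ,
      finrank ℚ W < e + 2 → (∀ w ∈ W, φ w = 0) ∧
      (φ (vq r (Rrat r)) ≠ 0 ∨ ∃ j ≤ e, φ (vq r (Qrat n * X ^ j)) ≠ 0) := by
    intro W
    by_cases hW : finrank ℚ W < e + 2
    · obtain ⟨φ, hφ⟩ := exists_form hr hn W hW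
      exact ⟨φ, fun _ => hφ⟩
    · exact ⟨0, fun h => absurd h hW⟩
  choose φ hφ using hex
  have ht : ∀ᶠ t : ℕ in atTop, ∀ W ∈ 𝒲, (∃ j ≤ e, φ W (vq r (Qrat n * X ^ j)) ≠ 0) →
      φ W (vq r (Qrat n * (GG e t).map (Int.castRingHom ℚ))) ≠ 0 := by
    rw [eventually_all_finset]
    intro W _
    by_cases h : ∃ j ≤ e, φ W (vq r (Qrat n * X ^ j)) ≠ 0
    · filter_upwards [choose_t (φ W) h] with t ht _
      exact ht
    · exact Eventually.of_forall fun t h' => absurd h' h
  obtain ⟨t, ht⟩ := ht.exists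
  refine ⟨t, ?_⟩
  rw [eventually_all_finset]
  intro W hW
  by_cases hd : finrank ℚ W < e + 2
  · obtain ⟨h1, h2⟩ := hφ W hd
    have h3 : φ W (vq r (Rrat r)) ≠ 0 ∨
        φ W (vq r (Qrat n * (GG e t).map (Int.castRingHom ℚ))) ≠ 0 := h2.imp id (ht W hW)
    filter_upwards [choose_k _ _ h3] with k hk _ hmem
    apply hk
    have h4 := h1 _ hmem
    have h5 : (PP r n e t k (lk k)).map (Int.castRingHom ℚ) = (3 ^ k : ℚ) • Rrat r +
        (2 * 5 ^ lk k : ℚ) • (Qrat n * (GG e t).map (Int.castRingHom ℚ)) := by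
      unfold PP Rrat Qrat
      rw [Polynomial.map_add, Polynomial.map_mul, Polynomial.map_mul, Polynomial.map_mul, map_C,
        map_C, smul_eq_C_mul, smul_eq_C_mul]
      simp
    rw [h5, map_add, map_add, map_smul, map_smul, map_smul, map_smul, smul_eq_mul,
      smul_eq_mul] at h4
    exact h4
  · exact Eventually.of_forall fun k h => absurd h hd

end Pool.Agent.H430.Gw
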