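import Pool.Agent.H430.Gw.Sh1
import Pool.Agent.H430.Gw.Sh3

/-!
Sharpness: the points.
-/

set_option autoImplicit false

namespace Pool.Agent.H430.Gw

open Finset NumberField IsDedekindDomain Height Module Polynomial Filter
open Pool.Agent.W180.OP (Pl av wt fv nrm wt_nonneg le_nrm exists_nrm nrm_pos)
open Pool.Agent.NH28 (Ov nn ab mem_ab sum_nn one_le_nn nn_ext nn_nonneg exists_below ov_unique
  sum_split height_sum prod_formula fab mem_fab nrm_support ab_nonempty fv_sum_le)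
open Pool.Agent.H430.Cl
open Pool.Agent.H430.Hf

/-- the number field of an irreducible polynomial -/
lemma exists_field' (f : ℚ[X]) (hirr : Irreducible f) :
    ∃ (L : Type) (_ : Field L) (_ : NumberField L) (_ : Algebra ℚ L) (x : L),
      IntermediateField.adjoin ℚ {x} = ⊤ ∧ finrank ℚ L = f.natDegree ∧
        minpoly ℚ x = f * C f.leadingCoeff⁻¹ := by
  have hF : Fact (Irreducible f) := ⟨hirr⟩
  have hf0 : f ≠ 0 := hirr.ne_zero
  have h1 := IntermediateField.adjoin_root_eq_top f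
  have h2 := (AdjoinRoot.powerBasis hf0).finrank
  rw [AdjoinRoot.powerBasis_dim] at h2
  have h3 := AdjoinRoot.minpoly_root hf0
  have hfin : FiniteDimensional ℚ (AdjoinRoot f) := (AdjoinRoot.powerBasis hf0).finite
  have hchar : CharZero (AdjoinRoot f) :=
    charZero_of_injective_algebraMap (algebraMap ℚ (AdjoinRoot f)).injective
  have hnf : NumberField (AdjoinRoot f) := {
    to_charZero := hchar
    to_finiteDimensional := by
      convert hfin }
  exact ⟨AdjoinRoot f, inferInstance, hnf, _, AdjoinRoot.root f, h1, h2, h3⟩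

/-- the number fields -/
lemma exists_field {r n e : ℕ} (hr : r = n + e) (hn : 0 < n) (t k l : ℕ) :
    ∃ (L : Type) (_ : Field L) (_ : NumberField L) (_ : Algebra ℚ L) (x : L),
      IntermediateField.adjoin ℚ {x} = ⊤ ∧ finrank ℚ L = r ∧ ∃ c : ℚ, c ≠ 0 ∧
        minpoly ℚ x = C c * (PP r n e t k l).map (Int.castRingHom ℚ) := by
  obtain ⟨L, i1, i2, i3, x, h1, h2, h3⟩ := exists_field' _ (PP_irred hr hn t k l)
  refine ⟨L, i1, i2, i3, x, h1, ?_, ((PP r n e t k l).map (Int.castRingHom ℚ)).leadingCoeff⁻¹,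
    inv_ne_zero (leadingCoeff_ne_zero.2 (PP_irred hr hn t k l).ne_zero), ?_⟩
  · rw [h2, natDegree_map_eq_of_injective (Int.castRingHom ℚ).injective_int,
      PP_natDegree hr hn t k l]
  · rw [h3, mul_comm]

/-- the places above a natural number -/
lemma exists_places (m : ℕ) (hm : m ≠ 0) : ∃ T : Finset (HeightOneSpectrum (𝓞 ℚ)),
    (∀ v ∈ T, fv v (m : ℚ) ≠ 1) ∧ ∑ v ∈ T, Real.log (fv v (m : ℚ)) = - Real.log m := by
  classical
  have hd : (m : ℚ) ≠ 0 := by exact_mod_cast hm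
  have hx : (![(m : ℚ)] : Fin 1 → ℚ) ≠ 0 := by
    intro h
    exact hd (congrFun h 0)
  have hnr : ∀ v : HeightOneSpectrum (𝓞 ℚ), nrm (fv v) ![(m : ℚ)] = fv v (m : ℚ) := by
    intro v
    obtain ⟨j, hj⟩ := exists_nrm (fv v) one_pos ![(m : ℚ)]
    rw [← hj]
    fin_cases j
    rfl
  set F := (nrm_support hx).toFinset with hF
  have hmem : ∀ v, v ∈ F ↔ fv v (m : ℚ) ≠ 1 := by
    intro v
    rw [hF, Set.Finite.mem_toFinset, Set.mem_ofPred_eq, hnr]
  refine ⟨F, fun v hv => (hmem v).1 hv, ?_⟩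
  have h1 := prod_formula hd F (fun v hv => (hmem v).2 hv)
  have h2 : ∑ v : InfinitePlace ℚ, (v.mult : ℝ) * Real.log (v (m : ℚ)) = Real.log m := by
    have h3 : ∀ v : InfinitePlace ℚ, v (m : ℚ) = m := by
      intro v
      rw [Rat.infinitePlace_apply, Nat.abs_cast]
      simp
    simp only [h3]
    rw [← sum_mul]
    have h4 := InfinitePlace.sum_mult_eq (K := ℚ)
    rw [finrank_self] at h4
    have h5 : (∑ v : InfinitePlace ℚ, (v.mult : ℝ)) = 1 := by exact_mod_cast h4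
    rw [h5, one_mul]
  rw [h2] at h1
  linarith

lemma fv_int_le (v : HeightOneSpectrum (𝓞 ℚ)) (z : ℤ) : fv v (z : ℚ) ≤ 1 := by
  have hna : IsNonarchimedean ((FinitePlace.mk v) ·) := FinitePlace.add_le (FinitePlace.mk v)
  exact IsNonarchimedean.apply_intCast_le_one hna

lemma fv_nat_le (v : HeightOneSpectrum (𝓞 ℚ)) (z : ℕ) : fv v (z : ℚ) ≤ 1 := by
  have := fv_int_le v z
  exact_mod_cast this

lemma fv_coprime (v : HeightOneSpectrum (𝓞 ℚ)) (p q : ℕ) (h : Nat.Coprime p q)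
    (hp : fv v (p : ℚ) ≠ 1) : fv v (q : ℚ) = 1 := by
  refine le_antisymm (fv_nat_le v q) ?_
  have hp1 : fv v (p : ℚ) < 1 := lt_of_le_of_ne (fv_nat_le v p) hp
  have h1 := Nat.gcd_eq_gcd_ab p q
  rw [h.gcd_eq_one] at h1
  have h2 : (1 : ℚ) = p * (p.gcdA q : ℤ) + q * (p.gcdB q : ℤ) := by exact_mod_cast h1
  have h3 : fv v (1 : ℚ) ≤ max (fv v (p * (p.gcdA q : ℤ) : ℚ)) (fv v (q * (p.gcdB q : ℤ) : ℚ)) := by
    rw [h2]
    exact FinitePlace.add_le (FinitePlace.mk v) _ _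
  rw [map_one, map_mul, map_mul] at h3
  have h4 : fv v (p : ℚ) * fv v ((p.gcdA q : ℤ) : ℚ) < 1 :=
    lt_of_le_of_lt (mul_le_of_le_one_right ((fv v).nonneg _) (fv_int_le v _)) hp1
  have h5 : fv v (q : ℚ) * fv v ((p.gcdB q : ℤ) : ℚ) ≤ fv v (q : ℚ) :=
    mul_le_of_le_one_right ((fv v).nonneg _) (fv_int_le v _)
  rcases le_max_iff.1 h3 with h | h
  · linarith
  · exact h.trans h5

/-- the value at an integer is bounded by the coefficients -/
lemma eval_le_nrm (v : HeightOneSpectrum (𝓞 ℚ)) (r : ℕ) (f : ℚ[X]) (hf : f.natDegree ≤ r) (b : ℤ) :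
    fv v (f.eval (b : ℚ)) ≤ nrm (fv v) (fun j : Fin (r + 1) => f.coeff j) := by
  rw [eval_eq_sum_range' (n := r + 1) (by omega)]
  have h0 : 0 ≤ nrm (fv v) (fun j : Fin (r + 1) => f.coeff j) :=
    ((fv v).nonneg _).trans (le_nrm (fv v) (fun j : Fin (r + 1) => f.coeff j) 0)
  refine fv_sum_le v _ _ _ h0 fun j hj => ?_
  have h1 := le_nrm (fv v) (fun j : Fin (r + 1) => f.coeff j) ⟨j, mem_range.1 hj⟩
  refine le_trans ?_ h1
  rw [map_mul, map_pow]
  exact mul_le_of_le_one_right ((fv v).nonneg _) (pow_le_one₀ ((fv v).nonneg _) (fv_int_le v b))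

/-- the local estimate -/
lemma loc_low {L : Type} [Field L] [NumberField L] [Algebra ℚ L] {x : L}
    (hx : IntermediateField.adjoin ℚ {x} = ⊤) {r : ℕ} (hr : finrank ℚ L = r) {c : ℚ} (hc : c ≠ 0)
    {P : ℤ[X]} (hP : minpoly ℚ x = C c * P.map (Int.castRingHom ℚ))
    (v : HeightOneSpectrum (𝓞 ℚ)) (p q k l : ℕ) (hp : p ≠ 0) (hq : q ≠ 0) (hqv : fv v (q : ℚ) = 1)
    (b0 b m0 m1 : ℤ) (hm0 : m0 ≠ 0) (hm1 : m1 ≠ 0) (h0 : P.eval b0 = q ^ l * m0)
    (h1 : P.eval b = p ^ k * m1) :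
    Real.log (fv v (m0 : ℚ)) - k * Real.log (fv v (p : ℚ)) - 2 * (r * Real.log 2) ≤
      ∑ w ∈ ab L (Sum.inr v : Pl ℚ), nn (Sum.inr v : Pl ℚ) w * prx (Sum.inr v) w (b : ℚ) x := by
  have hq0 : (q : ℚ) ≠ 0 := by exact_mod_cast hq
  have hp0 : (p : ℚ) ≠ 0 := by exact_mod_cast hp
  have hm0' : (m0 : ℚ) ≠ 0 := by exact_mod_cast hm0
  have hm1' : (m1 : ℚ) ≠ 0 := by exact_mod_cast hm1
  have e0 : (minpoly ℚ x).eval (b0 : ℚ) = c * (q ^ l * m0) := by
    rw [hP, eval_mul, eval_C, eval_cast, h0]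
    push_cast
    ring
  have e1 : (minpoly ℚ x).eval (b : ℚ) = c * (p ^ k * m1) := by
    rw [hP, eval_mul, eval_C, eval_cast, h1]
    push_cast
    ring
  have hne1 : (minpoly ℚ x).eval (b : ℚ) ≠ 0 := by
    rw [e1]
    positivity
  have h2 := prox_lower hx hr (Sum.inr v : Pl ℚ) (b : ℚ) hne1
  have h3 := eval_le_nrm v r (minpoly ℚ x) (by rw [minpoly_natDegree hx, hr]) b0
  have h4 : 0 < fv v ((minpoly ℚ x).eval (b0 : ℚ)) := (fv v).pos_iff.2 (by
    rw [e0]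
    positivity)
  have h5 := Real.log_le_log h4 h3
  have hlog : ∀ y : ℚ, y ≠ 0 → fv v y ≠ 0 := fun y hy => ((fv v).pos_iff.2 hy).ne'
  have h6 : Real.log (fv v ((minpoly ℚ x).eval (b0 : ℚ))) =
      Real.log (fv v c) + Real.log (fv v (m0 : ℚ)) := by
    rw [e0, map_mul, map_mul, map_pow, hqv, one_pow, one_mul, Real.log_mul (hlog _ hc)
      (hlog _ hm0')]
  have h7 : Real.log (fv v ((minpoly ℚ x).eval (b : ℚ))) ≤
      Real.log (fv v c) + k * Real.log (fv v (p : ℚ)) := by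
    rw [e1, map_mul, map_mul, map_pow, Real.log_mul (hlog _ hc)
      (mul_ne_zero (pow_ne_zero _ (hlog _ hp0)) (hlog _ hm1')), Real.log_mul
      (pow_ne_zero _ (hlog _ hp0)) (hlog _ hm1'), Real.log_pow]
    have := Real.log_nonpos ((fv v).nonneg _) (fv_int_le v m1)
    linarith
  have h8 : wt (Sum.inr v : Pl ℚ) * (Real.log (nrm (av (Sum.inr v : Pl ℚ))
      (fun j : Fin (r + 1) => (minpoly ℚ x).coeff j)) -
      Real.log (av (Sum.inr v : Pl ℚ) ((minpoly ℚ x).eval (b : ℚ)))) =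
      Real.log (nrm (fv v) (fun j : Fin (r + 1) => (minpoly ℚ x).coeff j)) -
      Real.log (fv v ((minpoly ℚ x).eval (b : ℚ))) := one_mul _
  rw [h8] at h2
  linarith

/-- the height of a vector of integers -/
lemma height_int {r : ℕ} (F : Fin (r + 1) → ℤ) (hF : (fun j => (F j : ℚ)) ≠ 0) (B : ℝ)
    (hB1 : 1 ≤ B) (hB : ∀ j, |(F j : ℝ)| ≤ B) : logHeight (fun j => (F j : ℚ)) ≤ Real.log B := by
  classical
  set G := (nrm_support hF).toFinset with hG
  have hmem : ∀ v, v ∈ G ↔ nrm (fv v) (fun j => (F j : ℚ)) ≠ 1 := by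
    intro v
    rw [hG, Set.Finite.mem_toFinset, Set.mem_ofPred_eq]
  rw [height_sum hF G (fun v hv => (hmem v).2 hv)]
  have h1 : ∑ v ∈ G, Real.log (nrm (fv v) (fun j => (F j : ℚ))) ≤ 0 := by
    refine sum_nonpos fun v _ => ?_
    obtain ⟨j, hj⟩ := exists_nrm (fv v) (by omega : 0 < r + 1) (fun j => (F j : ℚ))
    rw [← hj]
    exact Real.log_nonpos ((fv v).nonneg _) (fv_int_le v _)
  have h2 : ∀ v : InfinitePlace ℚ, Real.log (nrm v.1 (fun j => (F j : ℚ))) ≤ Real.log B := by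
    intro v
    obtain ⟨j, hj⟩ := exists_nrm v.1 (by omega : 0 < r + 1) (fun j => (F j : ℚ))
    rw [← hj]
    have h3 : v.1 (F j : ℚ) = |(F j : ℝ)| := by
      have := Rat.infinitePlace_apply v (F j : ℚ)
      refine Eq.trans this ?_
      push_cast
      rfl
    rw [h3]
    rcases eq_or_ne (F j) 0 with h0 | h0
    · rw [h0, Int.cast_zero, abs_zero, Real.log_zero]
      exact Real.log_nonneg hB1
    · exact Real.log_le_log (abs_pos.2 (by exact_mod_cast h0)) (hB j)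
  have h3 : ∑ v : InfinitePlace ℚ, (v.mult : ℝ) * Real.log (nrm v.1 (fun j => (F j : ℚ))) ≤
      ∑ v : InfinitePlace ℚ, (v.mult : ℝ) * Real.log B :=
    sum_le_sum fun v _ => mul_le_mul_of_nonneg_left (h2 v) (Nat.cast_nonneg _)
  rw [← sum_mul] at h3
  have h4 := InfinitePlace.sum_mult_eq (K := ℚ)
  rw [finrank_self] at h4
  have h5 : (∑ v : InfinitePlace ℚ, (v.mult : ℝ)) = 1 := by exact_mod_cast h4
  rw [h5, one_mul] at h3
  linarith

end Pool.Agent.H430.Gw
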