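import Pool.Agent.H430.Gw.Sh4

/-!
Sharpness: the theorem.
-/

set_option autoImplicit false

namespace Pool.Agent.H430.Gw

open Finset NumberField IsDedekindDomain Height Module Polynomial Filter
open Pool.Agent.W180.OP (Pl av wt fv nrm wt_nonneg le_nrm exists_nrm nrm_pos)
open Pool.Agent.NH28 (Ov nn ab mem_ab sum_nn one_le_nn nn_ext nn_nonneg exists_below ov_unique
  sum_split height_sum prod_formula fab mem_fab nrm_support ab_nonempty fv_sum_le)
open Pool.Agent.H430.Cl
open Pool.Agent.H430.Hf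

/-- the points of the divisor -/
def pz (r i : ℕ) : ℤ := if i < r then 4 * i else 2 * ((i - r : ℕ) : ℤ) + 1

lemma pz_lt {r i : ℕ} (h : i < r) : pz r i = 4 * i := if_pos h

lemma pz_ge {r i : ℕ} (h : r ≤ i) : pz r i = 2 * ((i - r : ℕ) : ℤ) + 1 := if_neg (by omega)

lemma pz_inj (r : ℕ) : Function.Injective (pz r) := by
  intro i j h
  unfold pz at h
  split_ifs at h <;> omega

lemma PP_eval_ne (r n e t k l i : ℕ) : (PP r n e t k l).eval (pz r i) ≠ 0 := by
  by_cases hi : i < r
  · rw [pz_lt hi, PP_eval_even r n e t k l i hi]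
    have h1 := (QQ_eval_odd n (4 * i) ⟨2 * i, by ring⟩).mul (GG_eval_odd e t (4 * i))
    have h2 : (QQ n).eval (4 * i : ℤ) * (GG e t).eval (4 * i : ℤ) ≠ 0 := by
      intro h
      rw [h] at h1
      exact absurd h1 (by decide)
    positivity
  · have hodd : Odd (pz r i) := by
      rw [pz_ge (by omega)]
      exact ⟨_, rfl⟩
    have h1 : Odd ((PP r n e t k l).eval (pz r i)) := by
      unfold PP
      rw [eval_add, eval_mul, eval_mul, eval_C, eval_C, mul_assoc]
      exact ((Odd.pow (by decide)).mul (RR_eval_odd r _ hodd)).add_even (even_two_mul _)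
    intro h
    rw [h] at h1
    exact absurd h1 (by decide)

theorem sharp (r : ℕ) (hr0 : 0 < r) :
    ∃ a : Fin (2 * r) → ℚ, Function.Injective a ∧ ∃ S0 : Finset (Pl ℚ), ∀ S, S0 ⊆ S →
      ∀ κ < r, ∀ (𝒲 : Finset (Submodule ℚ (Fin (r + 1) → ℚ))) (c C : ℝ), c < r + 1 + κ →
      ∃ (L : Type) (_ : Field L) (_ : NumberField L) (_ : Algebra ℚ L) (x : L),
        IntermediateField.adjoin ℚ {x} = ⊤ ∧ finrank ℚ L = r ∧
        (∀ i, x ≠ algebraMap ℚ L (a i)) ∧
        (∀ W ∈ 𝒲, (fun j : Fin (r + 1) => (minpoly ℚ x).coeff j) ∈ W →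
          r + 1 ≤ finrank ℚ W + κ) ∧
        c * logHeight ![1, x] + C < ∑ v ∈ S, ∑ i, ∑ w ∈ ab L v, nn v w * prx v w (a i) x := by
  classical
  obtain ⟨T3, hT3, hs3⟩ := exists_places 3 (by norm_num)
  obtain ⟨T5, hT5, hs5⟩ := exists_places 5 (by norm_num)
  set S3 : Finset (Pl ℚ) := T3.map ⟨Sum.inr, Sum.inr_injective⟩ with hS3
  set S5 : Finset (Pl ℚ) := T5.map ⟨Sum.inr, Sum.inr_injective⟩ with hS5
  set a : Fin (2 * r) → ℚ := fun i => (pz r i : ℚ) with ha
  refine ⟨a, ?_, S3 ∪ S5, ?_⟩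
  · intro i j h
    have h' : (pz r i : ℚ) = (pz r j : ℚ) := h
    have h1 : pz r i = pz r j := by exact_mod_cast h'
    exact Fin.ext (pz_inj r h1)
  intro S hS κ hκ 𝒲 c C hc
  obtain ⟨n, hn⟩ : ∃ n, n = κ + 1 := ⟨_, rfl⟩
  obtain ⟨e, he⟩ : ∃ e, e = r - n := ⟨_, rfl⟩
  have hrn : r = n + e := by omega
  have hn0 : 0 < n := by omega
  obtain ⟨t, ht⟩ := avoid hrn hn0 𝒲
  obtain ⟨B, hB0, hB⟩ := PP_bound r n e t
  obtain ⟨Ch, hCh0, hCh⟩ := height_upper (K := ℚ) r
  choose c0 hc0 hc0' using fun (v : Pl ℚ) (i : Fin (2 * r)) => prx_lb v (a i)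
  -- the integers
  set mA : ℤ := 2 * ((QQ n).eval (4 * (0 : ℕ) : ℤ) * (GG e t).eval (4 * (0 : ℕ) : ℤ)) with hmA
  set mB : ℤ := (RR r).eval (2 * (0 : ℕ) + 1 : ℤ) with hmB
  have hodd_ne : ∀ z : ℤ, Odd z → z ≠ 0 := by
    intro z hz h
    rw [h] at hz
    exact absurd hz (by decide)
  have hQG : ∀ j : ℕ, 2 * ((QQ n).eval (4 * j : ℤ) * (GG e t).eval (4 * j : ℤ)) ≠ 0 := fun j =>
    mul_ne_zero two_ne_zero (hodd_ne _
      ((QQ_eval_odd n (4 * j) ⟨2 * j, by ring⟩).mul (GG_eval_odd e t (4 * j))))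
  have hRR : ∀ j : ℕ, (RR r).eval (2 * j + 1 : ℤ) ≠ 0 := fun j =>
    hodd_ne _ (RR_eval_odd r _ ⟨j, rfl⟩)
  set D : Pl ℚ → Fin (2 * r) → ℝ := fun v i => r * c0 v i + (|Real.log (av v (mA : ℚ))| +
    |Real.log (av v (mB : ℚ))| + 2 * (r * Real.log 2)) with hD
  set Dt : ℝ := ∑ v ∈ S, ∑ i, D v i with hDt
  set cp : ℝ := max c 0 with hcp
  have hlog3 : 0 < Real.log 3 := Real.log_pos (by norm_num)
  have hlog5 : 0 < Real.log 5 := Real.log_pos (by norm_num)
  have hcp1 : 0 < (n : ℝ) + r - cp := by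
    have h1 : (n : ℝ) = κ + 1 := by rw [hn]; push_cast; ring
    have h2 : (0 : ℝ) < r := by exact_mod_cast hr0
    have h3 : (0 : ℝ) ≤ κ := Nat.cast_nonneg _
    rw [hcp]
    rcases max_choice c 0 with h | h <;> rw [h] <;> linarith
  set RHS : ℝ := C + cp * (Real.log B + Ch) + r * Real.log 5 + Dt with hRHS
  obtain ⟨N, hN⟩ := exists_nat_gt (RHS / (((n : ℝ) + r - cp) * Real.log 3))
  obtain ⟨k, hk1, hk2⟩ := (ht.and (eventually_ge_atTop N)).exists
  set l := lk k with hl
  obtain ⟨L, i1, i2, i3, x, hx, hrL, cc, hcc, hmin⟩ := exists_field hrn hn0 t k l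
  have hxa : ∀ i, x ≠ algebraMap ℚ L (a i) := by
    intro i hxi
    have h1 : aeval x (minpoly ℚ x) = 0 := minpoly.aeval ℚ x
    have h2 : aeval x (minpoly ℚ x) = algebraMap ℚ L ((minpoly ℚ x).eval (a i)) := by
      conv_lhs => rw [hxi]
      rw [← hxi, aeval_def, hxi, eval₂_at_apply]
    rw [h2, _root_.map_eq_zero, hmin, eval_mul, eval_C] at h1
    have h3 := (mul_eq_zero.1 h1).resolve_left hcc
    simp only [ha] at h3
    rw [eval_cast] at h3
    exact PP_eval_ne r n e t k l i (by exact_mod_cast h3)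
  have hvec : (fun j : Fin (r + 1) => (minpoly ℚ x).coeff j) =
      cc • vq r ((PP r n e t k l).map (Int.castRingHom ℚ)) := by
    funext j
    rw [hmin, coeff_C_mul, Pi.smul_apply, smul_eq_mul, vq_apply]
  refine ⟨L, i1, i2, i3, x, hx, hrL, hxa, ?_, ?_⟩
  · intro W hW hmem
    by_contra hlt
    refine hk1 W hW (by omega) ?_
    rw [hvec] at hmem
    exact (W.smul_mem_iff hcc).1 hmem
  -- the height
  have hh : logHeight ![1, x] ≤ k * Real.log 3 + (Real.log B + Ch) := by
    have h1 := hCh L x hx hrL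
    have hvec2 : vq r ((PP r n e t k l).map (Int.castRingHom ℚ)) =
        fun j : Fin (r + 1) => (((PP r n e t k l).coeff j : ℤ) : ℚ) := by
      funext j
      rw [vq_apply, coeff_map]
      rfl
    have hne : (fun j : Fin (r + 1) => (((PP r n e t k l).coeff j : ℤ) : ℚ)) ≠ 0 := by
      rw [← hvec2]
      intro h0
      have := coeff_vec_ne hx hrL
      rw [hvec, h0, smul_zero] at this
      exact this rfl
    have hB1 : (1 : ℝ) ≤ B := by exact_mod_cast hB0
    have h31 : (1 : ℝ) ≤ 3 ^ k := one_le_pow₀ (by norm_num)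
    have h2 := height_int (fun j : Fin (r + 1) => (PP r n e t k l).coeff j) hne (3 ^ k * B)
      (by nlinarith) (fun j => by exact_mod_cast hB k l (lk_le k) j)
    have h3 : logHeight (fun j : Fin (r + 1) => (minpoly ℚ x).coeff j) =
        logHeight (fun j : Fin (r + 1) => (((PP r n e t k l).coeff j : ℤ) : ℚ)) := by
      rw [hvec, hvec2, logHeight_smul_eq_logHeight _ hcc]
    rw [h3] at h1
    rw [Real.log_mul (by positivity) (by positivity), Real.log_pow] at h2
    linarith
  -- the local terms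
  set X : Pl ℚ → Fin (2 * r) → ℝ := fun v i => ∑ w ∈ ab L v, nn v w * prx v w (a i) x with hX
  set I3 : Fin (2 * r) → ℝ := fun i => if r ≤ (i : ℕ) ∧ (i : ℕ) < r + n then 1 else 0 with hI3
  set I5 : Fin (2 * r) → ℝ := fun i => if (i : ℕ) < r then 1 else 0 with hI5
  set V3 : Pl ℚ → ℝ := fun v => if v ∈ S3 then -(k * Real.log (av v (3 : ℚ))) else 0 with hV3
  set V5 : Pl ℚ → ℝ := fun v => if v ∈ S5 then -(l * Real.log (av v (5 : ℚ))) else 0 with hV5
  have hl2 : 0 ≤ (r : ℝ) * Real.log 2 :=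
    mul_nonneg (Nat.cast_nonneg _) (Real.log_nonneg (by norm_num))
  have htriv : ∀ v i, -(r * c0 v i) ≤ X v i := by
    intro v i
    have h1 : ∀ w ∈ ab L v, nn v w * (-(c0 v i)) ≤ nn v w * prx v w (a i) x := fun w hw =>
      mul_le_mul_of_nonneg_left (hc0' v i L w hw x (hxa i)) (nn_nonneg v w)
    have h2 := sum_le_sum h1
    rw [← sum_mul, sum_nn, hrL] at h2
    simp only [hX]
    linarith
  have hrc : ∀ v i, 0 ≤ (r : ℝ) * c0 v i := fun v i => mul_nonneg (Nat.cast_nonneg _) (hc0 v i)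
  have hdis : ∀ v, v ∈ S3 → v ∉ S5 := by
    intro v h3 h5
    obtain ⟨v1, hv1, rfl⟩ := mem_map.1 h3
    obtain ⟨v2, hv2, h⟩ := mem_map.1 h5
    have h' : v2 = v1 := Sum.inr_injective h
    subst h'
    exact hT5 v2 hv2 (fv_coprime v2 3 5 (by norm_num) (hT3 v2 hv1))
  have hloc : ∀ v i, V3 v * I3 i + V5 v * I5 i - D v i ≤ X v i := by
    intro v i
    have hab1 := abs_nonneg (Real.log (av v (mA : ℚ)))
    have hab2 := abs_nonneg (Real.log (av v (mB : ℚ)))
    have hab3 := neg_abs_le (Real.log (av v (mA : ℚ)))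
    have hab4 := neg_abs_le (Real.log (av v (mB : ℚ)))
    have hrc' := hrc v i
    simp only [hD]
    by_cases h3 : v ∈ S3 ∧ r ≤ (i : ℕ) ∧ (i : ℕ) < r + n
    · have e5 : V5 v = 0 := by
        simp only [hV5]
        rw [if_neg (hdis v h3.1)]
      have e3 : V3 v = -(k * Real.log (av v (3 : ℚ))) := by
        simp only [hV3]
        rw [if_pos h3.1]
      have ei : I3 i = 1 := by
        simp only [hI3]
        rw [if_pos h3.2]
      obtain ⟨v', hv', hvv⟩ := mem_map.1 h3.1
      have hvv' : (Sum.inr v' : Pl ℚ) = v := hvv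
      subst hvv'
      have h5one : fv v' ((5 : ℕ) : ℚ) = 1 := fv_coprime v' 3 5 (by norm_num) (hT3 v' hv')
      have h6 := loc_low hx hrL hcc hmin v' 3 5 k l (by norm_num) (by norm_num) h5one
        (4 * (0 : ℕ)) (pz r i) mA ((RR r).eval (2 * ((i - r : ℕ) : ℤ) + 1)) (hQG 0) (hRR _)
        (PP_eval_even r n e t k l 0 hr0) (by
          rw [pz_ge h3.2.1]
          exact PP_eval_odd r n e t k l _ (by omega))
      have h7 : Real.log (fv v' (mA : ℚ)) = Real.log (av (Sum.inr v' : Pl ℚ) (mA : ℚ)) := rfl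
      have h8 : Real.log (fv v' ((3 : ℕ) : ℚ)) = Real.log (av (Sum.inr v' : Pl ℚ) (3 : ℚ)) := by
        rw [Nat.cast_ofNat]
        rfl
      rw [h7, h8] at h6
      rw [e5, e3, ei]
      simp only [hX]
      linarith
    · by_cases h5 : v ∈ S5 ∧ (i : ℕ) < r
      · have e3 : V3 v = 0 := by
          simp only [hV3]
          rw [if_neg (fun h => hdis v h h5.1)]
        have e5 : V5 v = -(l * Real.log (av v (5 : ℚ))) := by
          simp only [hV5]
          rw [if_pos h5.1]
        have ei : I5 i = 1 := by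
          simp only [hI5]
          rw [if_pos h5.2]
        obtain ⟨v', hv', hvv⟩ := mem_map.1 h5.1
        have hvv' : (Sum.inr v' : Pl ℚ) = v := hvv
        subst hvv'
        have h3one : fv v' ((3 : ℕ) : ℚ) = 1 := fv_coprime v' 5 3 (by norm_num) (hT5 v' hv')
        have h6 := loc_low hx hrL hcc hmin v' 5 3 l k (by norm_num) (by norm_num) h3one
          (2 * (0 : ℕ) + 1) (pz r i) mB
          (2 * ((QQ n).eval (4 * (i : ℕ) : ℤ) * (GG e t).eval (4 * (i : ℕ) : ℤ))) (hRR 0)
          (hQG _) (PP_eval_odd r n e t k l 0 hn0) (by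
            rw [pz_lt h5.2]
            exact PP_eval_even r n e t k l _ h5.2)
        have h7 : Real.log (fv v' (mB : ℚ)) = Real.log (av (Sum.inr v' : Pl ℚ) (mB : ℚ)) := rfl
        have h8 : Real.log (fv v' ((5 : ℕ) : ℚ)) = Real.log (av (Sum.inr v' : Pl ℚ) (5 : ℚ)) := by
          rw [Nat.cast_ofNat]
          rfl
        rw [h7, h8] at h6
        rw [e5, e3, ei]
        simp only [hX]
        linarith
      · have e3 : V3 v * I3 i = 0 := by
          simp only [hV3, hI3]
          by_cases hv : v ∈ S3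
          · rw [if_neg (fun h => h3 ⟨hv, h⟩), mul_zero]
          · rw [if_neg hv, zero_mul]
        have e5 : V5 v * I5 i = 0 := by
          simp only [hV5, hI5]
          by_cases hv : v ∈ S5
          · rw [if_neg (fun h => h5 ⟨hv, h⟩), mul_zero]
          · rw [if_neg hv, zero_mul]
        rw [e3, e5]
        have := htriv v i
        linarith
  have hsumI3 : ∑ i, I3 i = n := by
    simp only [hI3]
    rw [Fin.sum_univ_eq_sum_range (fun i => if r ≤ i ∧ i < r + n then (1 : ℝ) else 0) (2 * r),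
      sum_boole]
    have h1 : (range (2 * r)).filter (fun i => r ≤ i ∧ i < r + n) = Ico r (r + n) := by
      ext i
      rw [mem_filter, mem_range, mem_Ico]
      constructor
      · exact fun h => h.2
      · exact fun h => ⟨by omega, h⟩
    rw [h1, Nat.card_Ico]
    congr 1
    omega
  have hsumI5 : ∑ i, I5 i = r := by
    simp only [hI5]
    rw [Fin.sum_univ_eq_sum_range (fun i => if i < r then (1 : ℝ) else 0) (2 * r), sum_boole]
    have h1 : (range (2 * r)).filter (fun i => i < r) = range r := by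
      ext i
      rw [mem_filter, mem_range, mem_range]
      omega
    rw [h1, card_range]
  have hsumV3 : ∑ v ∈ S, V3 v = k * Real.log 3 := by
    simp only [hV3]
    rw [← sum_filter, filter_mem_eq_inter, inter_eq_right.2 (subset_union_left.trans hS), hS3,
      sum_map]
    have h1 : ∀ v ∈ T3, -(k * Real.log (av (Sum.inr v : Pl ℚ) (3 : ℚ))) =
        (-k) * Real.log (fv v ((3 : ℕ) : ℚ)) := by
      intro v _
      rw [Nat.cast_ofNat, neg_mul]
      rfl
    have h2 := sum_congr rfl h1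
    refine h2.trans ?_
    rw [← mul_sum, hs3]
    push_cast
    ring
  have hsumV5 : ∑ v ∈ S, V5 v = l * Real.log 5 := by
    simp only [hV5]
    rw [← sum_filter, filter_mem_eq_inter, inter_eq_right.2 (subset_union_right.trans hS), hS5,
      sum_map]
    have h1 : ∀ v ∈ T5, -(l * Real.log (av (Sum.inr v : Pl ℚ) (5 : ℚ))) =
        (-l) * Real.log (fv v ((5 : ℕ) : ℚ)) := by
      intro v _
      rw [Nat.cast_ofNat, neg_mul]
      rfl
    have h2 := sum_congr rfl h1
    refine h2.trans ?_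
    rw [← mul_sum, hs5]
    push_cast
    ring
  have htot : k * Real.log 3 * n + l * Real.log 5 * r - Dt ≤ ∑ v ∈ S, ∑ i, X v i := by
    have h1 := sum_le_sum fun v (_ : v ∈ S) => sum_le_sum fun i (_ : i ∈ univ) => hloc v i
    refine le_trans (le_of_eq ?_) h1
    simp only [sum_sub_distrib, sum_add_distrib, ← mul_sum]
    rw [← sum_mul, ← sum_mul, hsumI3, hsumI5, hsumV3, hsumV5]
  -- the end
  have hl5 : k * Real.log 3 ≤ l * Real.log 5 + Real.log 5 := by
    have h1 := lk_lt k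
    have h2 : (3 : ℝ) ^ k < 5 ^ (l + 1) := by exact_mod_cast h1
    have h3 := Real.log_lt_log (by positivity) h2
    rw [Real.log_pow, Real.log_pow] at h3
    push_cast at h3
    linarith
  have hkN : RHS < ((n : ℝ) + r - cp) * Real.log 3 * k := by
    have h1 : (N : ℝ) ≤ k := by exact_mod_cast hk2
    have h2 := lt_of_lt_of_le hN h1
    rw [div_lt_iff₀ (by positivity)] at h2
    linarith
  have hh0 : 0 ≤ logHeight ![1, x] := logHeight_nonneg _
  have h1 : c * logHeight ![1, x] ≤ cp * (k * Real.log 3 + (Real.log B + Ch)) :=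
    (mul_le_mul_of_nonneg_right (le_max_left c 0) hh0).trans
      (mul_le_mul_of_nonneg_left hh (le_max_right c 0))
  have h2 : r * (k * Real.log 3) ≤ r * (l * Real.log 5 + Real.log 5) :=
    mul_le_mul_of_nonneg_left hl5 (Nat.cast_nonneg _)
  rw [hRHS] at hkN
  have e1 : cp * (k * Real.log 3 + (Real.log B + Ch)) =
    cp * (k * Real.log 3) + cp * (Real.log B + Ch) := by ring
  have e2 : ((n : ℝ) + r - cp) * Real.log 3 * k = n * (k * Real.log 3) + r * (k * Real.log 3) -
    cp * (k * Real.log 3) := by ring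
  rw [e1] at h1
  rw [e2] at hkN
  linarith

end Pool.Agent.H430.Gw
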